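import Pool.Agent.C4M.Prob

/-!
# Many independent items, currying of product spaces
-/

set_option linter.unusedSectionVars false

namespace Pool.Agent.LLLA

open Finset

/-! ## elementary symmetric sums -/

/-- `m! e_m ≤ (∑ q) ^ m` -/
theorem esymm_le {J : Type*} [DecidableEq J] (s : Finset J) (q : J → ℝ) (hq : ∀ a ∈ s, 0 ≤ q a)
    (m : ℕ) : (m.factorial : ℝ) * ∑ B ∈ s.powersetCard m, ∏ a ∈ B, q a ≤
      (∑ a ∈ s, q a) ^ m := by
  induction m with
  | zero => simp
  | succ m ih =>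
    have hS : 0 ≤ ∑ a ∈ s, q a := Finset.sum_nonneg hq
    -- `(m+1) e_(m+1) ≤ (∑ q) e_m`
    have key : ((m : ℝ) + 1) * ∑ B ∈ s.powersetCard (m + 1), ∏ a ∈ B, q a ≤
        (∑ a ∈ s, q a) * ∑ B ∈ s.powersetCard m, ∏ a ∈ B, q a := by
      have h1 : ((m : ℝ) + 1) * ∑ B ∈ s.powersetCard (m + 1), ∏ a ∈ B, q a =
          ∑ B ∈ s.powersetCard (m + 1), ∑ a ∈ B, q a * ∏ b ∈ B.erase a, q b := by
        rw [Finset.mul_sum]
        apply Finset.sum_congr rfl
        intro B hB
        have hc : B.card = m + 1 := (Finset.mem_powersetCard.1 hB).2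
        have h2 : ∀ a ∈ B, q a * ∏ b ∈ B.erase a, q b = ∏ b ∈ B, q b := fun a ha =>
          Finset.mul_prod_erase B q ha
        rw [Finset.sum_congr rfl h2, Finset.sum_const, hc, nsmul_eq_mul]
        push_cast
        ring
      have h3 : ∑ B ∈ s.powersetCard (m + 1), ∑ a ∈ B, q a * ∏ b ∈ B.erase a, q b =
          ∑ a ∈ s, ∑ B ∈ (s.powersetCard (m + 1)).filter (fun B => a ∈ B),
            q a * ∏ b ∈ B.erase a, q b := by
        apply Finset.sum_comm'
        intro B a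
        rw [Finset.mem_filter]
        constructor
        · rintro ⟨h4, h5⟩
          exact ⟨⟨h4, h5⟩, (Finset.mem_powersetCard.1 h4).1 h5⟩
        · rintro ⟨⟨h4, h5⟩, _⟩
          exact ⟨h4, h5⟩
      rw [h1, h3, Finset.sum_mul]
      apply Finset.sum_le_sum
      intro a ha
      rw [← Finset.mul_sum]
      apply mul_le_mul_of_nonneg_left _ (hq a ha)
      have hinj : ∀ B ∈ (s.powersetCard (m + 1)).filter (fun B => a ∈ B),
          ∀ B' ∈ (s.powersetCard (m + 1)).filter (fun B => a ∈ B),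
          B.erase a = B'.erase a → B = B' := by
        intro B hB B' hB' h
        rw [← Finset.insert_erase (Finset.mem_filter.1 hB).2, h,
          Finset.insert_erase (Finset.mem_filter.1 hB').2]
      rw [← Finset.sum_image (f := fun B => ∏ b ∈ B, q b) (g := fun B : Finset J => B.erase a)
        hinj]
      apply Finset.sum_le_sum_of_subset_of_nonneg
      · intro B hB
        obtain ⟨B', hB', rfl⟩ := Finset.mem_image.1 hB
        obtain ⟨h4, h5⟩ := Finset.mem_filter.1 hB'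
        obtain ⟨h6, h7⟩ := Finset.mem_powersetCard.1 h4
        rw [Finset.mem_powersetCard]
        refine ⟨(Finset.erase_subset _ _).trans h6, ?_⟩
        rw [Finset.card_erase_of_mem h5, h7]
        rfl
      · intro B hB _
        exact Finset.prod_nonneg fun b hb => hq b ((Finset.mem_powersetCard.1 hB).1 hb)
    calc ((m + 1).factorial : ℝ) * ∑ B ∈ s.powersetCard (m + 1), ∏ a ∈ B, q a =
        (m.factorial : ℝ) * (((m : ℝ) + 1) *
          ∑ B ∈ s.powersetCard (m + 1), ∏ a ∈ B, q a) := by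
          rw [Nat.factorial_succ]
          push_cast
          ring
      _ ≤ (m.factorial : ℝ) * ((∑ a ∈ s, q a) *
          ∑ B ∈ s.powersetCard m, ∏ a ∈ B, q a) :=
          mul_le_mul_of_nonneg_left key (Nat.cast_nonneg _)
      _ = (∑ a ∈ s, q a) * ((m.factorial : ℝ) *
          ∑ B ∈ s.powersetCard m, ∏ a ∈ B, q a) := by ring
      _ ≤ (∑ a ∈ s, q a) * (∑ a ∈ s, q a) ^ m := mul_le_mul_of_nonneg_left ih hS
      _ = (∑ a ∈ s, q a) ^ (m + 1) := by ring

/-- `m ^ m / e ^ m ≤ m!` -/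
theorem fact_lower (m : ℕ) : (m : ℝ) ^ m ≤ Real.exp 1 ^ m * m.factorial := by
  have h := Real.pow_div_factorial_le_exp (m : ℝ) (Nat.cast_nonneg m) m
  rw [div_le_iff₀ (by positivity)] at h
  calc (m : ℝ) ^ m ≤ Real.exp m * m.factorial := h
    _ = Real.exp 1 ^ m * m.factorial := by
      rw [← Real.exp_nat_mul, mul_one]

variable {W : Type*} [Fintype W] [DecidableEq W] {α : W → Type*} [∀ w, Fintype (α w)]
  [∀ w, DecidableEq (α w)]

/-- probability of an intersection of events with disjoint coordinate sets -/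
theorem Pr_biInter {q : ∀ w, α w → ℝ} (hq : IsProb q) {J : Type*} (B : Finset J)
    (S : J → Finset W) (X : J → Set (∀ w, α w)) (hX : ∀ a ∈ B, Dep (S a) fun ω => ω ∈ X a)
    (hd : ∀ a ∈ B, ∀ b ∈ B, a ≠ b → Disjoint (S a) (S b)) :
    Pr q {ω | ∀ a ∈ B, ω ∈ X a} = ∏ a ∈ B, Pr q (X a) := by
  classical
  have h1 := Ex_prod hq B S hd (fun a => (X a).indicator fun _ => (1 : ℝ)) (by
    intro i hi ω η hw
    have h := hX i hi ω η hw
    simp only [eq_iff_iff] at h
    by_cases h1 : ω ∈ X i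
    · show (X i).indicator (fun _ => (1 : ℝ)) ω = (X i).indicator (fun _ => (1 : ℝ)) η
      rw [Set.indicator_of_mem h1, Set.indicator_of_mem (h.1 h1)]
    · show (X i).indicator (fun _ => (1 : ℝ)) ω = (X i).indicator (fun _ => (1 : ℝ)) η
      rw [Set.indicator_of_notMem h1, Set.indicator_of_notMem (fun h2 => h1 (h.2 h2))])
  have h2 : ∀ a ∈ B, Ex q ((X a).indicator fun _ => (1 : ℝ)) = Pr q (X a) := fun a _ =>
    (Pr_eq_Ex q (X a)).symm
  rw [Finset.prod_congr rfl h2] at h1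
  rw [← h1, Pr_eq_Ex]
  unfold Ex
  apply Finset.sum_congr rfl
  intro ω _
  congr 1
  by_cases h : ∀ a ∈ B, ω ∈ X a
  · rw [Set.indicator_of_mem (show ω ∈ {ω | ∀ a ∈ B, ω ∈ X a} from h)]
    symm
    apply Finset.prod_eq_one
    intro a ha
    rw [Set.indicator_of_mem (h a ha)]
  · rw [Set.indicator_of_notMem (show ω ∉ {ω | ∀ a ∈ B, ω ∈ X a} from h)]
    push Not at h
    obtain ⟨a, ha, h⟩ := h
    symm
    apply Finset.prod_eq_zero ha
    rw [Set.indicator_of_notMem h]

/-- **[GEN]** -/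
theorem Pr_items {q : ∀ w, α w → ℝ} (hq : IsProb q) {J : Type*} [Fintype J] [DecidableEq J]
    (S : J → Finset W) (X : J → Set (∀ w, α w)) (hX : ∀ a, Dep (S a) fun ω => ω ∈ X a)
    (r : J → ℝ) (hr : ∀ a, Pr q (X a) ≤ r a) (m : ℕ) :
    Pr q {ω | ∃ B : Finset J, B.card = m ∧
      (∀ a ∈ B, ∀ b ∈ B, a ≠ b → Disjoint (S a) (S b)) ∧ ∀ a ∈ B, ω ∈ X a} ≤
      (∑ a, r a) ^ m / m.factorial := by
  classical
  have hr0 : ∀ a, 0 ≤ r a := fun a => (Pr_nonneg hq _).trans (hr a)
  have h1 : Pr q {ω | ∃ B : Finset J, B.card = m ∧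
      (∀ a ∈ B, ∀ b ∈ B, a ≠ b → Disjoint (S a) (S b)) ∧ ∀ a ∈ B, ω ∈ X a} ≤
      ∑ B ∈ ((univ : Finset J).powersetCard m).filter
        (fun B => ∀ a ∈ B, ∀ b ∈ B, a ≠ b → Disjoint (S a) (S b)),
        Pr q {ω | ∀ a ∈ B, ω ∈ X a} := by
    refine le_trans (Pr_mono hq ?_) (Pr_exists_le hq _ _)
    rintro ω ⟨B, h2, h3, h4⟩
    refine ⟨B, ?_, h4⟩
    rw [Finset.mem_filter, Finset.mem_powersetCard]
    exact ⟨⟨Finset.subset_univ _, h2⟩, h3⟩
  refine h1.trans ?_
  rw [le_div_iff₀ (by positivity), mul_comm]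
  refine le_trans ?_ (esymm_le univ r (fun a _ => hr0 a) m)
  apply mul_le_mul_of_nonneg_left _ (Nat.cast_nonneg _)
  calc ∑ B ∈ ((univ : Finset J).powersetCard m).filter
        (fun B => ∀ a ∈ B, ∀ b ∈ B, a ≠ b → Disjoint (S a) (S b)),
        Pr q {ω | ∀ a ∈ B, ω ∈ X a} ≤
      ∑ B ∈ ((univ : Finset J).powersetCard m).filter
        (fun B => ∀ a ∈ B, ∀ b ∈ B, a ≠ b → Disjoint (S a) (S b)), ∏ a ∈ B, r a := by
        apply Finset.sum_le_sum
        intro B hB
        rw [Pr_biInter hq B S X (fun a _ => hX a) (Finset.mem_filter.1 hB).2]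
        exact Finset.prod_le_prod (fun a _ => Pr_nonneg hq _) fun a _ => hr a
    _ ≤ ∑ B ∈ (univ : Finset J).powersetCard m, ∏ a ∈ B, r a := by
        apply Finset.sum_le_sum_of_subset_of_nonneg (Finset.filter_subset _ _)
        intro B _ _
        exact Finset.prod_nonneg fun a _ => hr0 a

/-- [GEN] with the bound `(e μ / m) ^ m` -/
theorem Pr_items' {q : ∀ w, α w → ℝ} (hq : IsProb q) {J : Type*} [Fintype J] [DecidableEq J]
    (S : J → Finset W) (X : J → Set (∀ w, α w)) (hX : ∀ a, Dep (S a) fun ω => ω ∈ X a)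
    (r : J → ℝ) (hr : ∀ a, Pr q (X a) ≤ r a) {m : ℕ} (hm : 1 ≤ m) :
    Pr q {ω | ∃ B : Finset J, B.card = m ∧
      (∀ a ∈ B, ∀ b ∈ B, a ≠ b → Disjoint (S a) (S b)) ∧ ∀ a ∈ B, ω ∈ X a} ≤
      (Real.exp 1 * (∑ a, r a) / m) ^ m := by
  have hr0 : ∀ a, 0 ≤ r a := fun a => (Pr_nonneg hq _).trans (hr a)
  have hm0 : (0 : ℝ) < m := by exact_mod_cast hm
  refine (Pr_items hq S X hX r hr m).trans ?_
  rw [div_pow, mul_pow, div_le_div_iff₀ (by positivity) (by positivity)]
  have h1 := fact_lower m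
  have h2 : 0 ≤ (∑ a, r a) ^ m := pow_nonneg (Finset.sum_nonneg fun a _ => hr0 a) m
  calc (∑ a, r a) ^ m * (m : ℝ) ^ m ≤ (∑ a, r a) ^ m * (Real.exp 1 ^ m * m.factorial) :=
        mul_le_mul_of_nonneg_left h1 h2
    _ = Real.exp 1 ^ m * (∑ a, r a) ^ m * m.factorial := by ring

/-! ## currying -/

section curry

variable {ι : Type*} [Fintype ι] [DecidableEq ι] {K : ι → Type*} [∀ c, Fintype (K c)]
  [∀ c, DecidableEq (K c)] {β : ι → Type*} [∀ c, Fintype (β c)] [∀ c, DecidableEq (β c)]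

/-- the class level weights: on the coordinate `c` the product weight on `K c → β c` -/
def cwt (q : ∀ c, K c → β c → ℝ) : ∀ c, (K c → β c) → ℝ := fun c f =>
  wt (W := K c) (α := fun _ => β c) (q c) f

theorem cwt_prob {q : ∀ c, K c → β c → ℝ}
    (hq : ∀ c, IsProb (W := K c) (α := fun _ => β c) (q c)) :
    IsProb (W := ι) (α := fun c => K c → β c) (cwt q) :=
  ⟨fun c f => wt_nonneg (hq c) f, fun c => sum_wt (hq c)⟩

/-- a function of the class `c` alone -/
theorem Ex_class {q : ∀ c, K c → β c → ℝ}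
    (hq : ∀ c, IsProb (W := K c) (α := fun _ => β c) (q c)) (c : ι) (g : (K c → β c) → ℝ) :
    Ex (W := ι) (α := fun c => K c → β c) (cwt q) (fun ω => g (ω c)) =
      Ex (W := K c) (α := fun _ => β c) (q c) g := by
  have h := cwt_prob hq
  have h1 : Ex (W := ι) (α := fun c => K c → β c) (cwt q) (fun ω => g (ω c)) =
      Ex (W := ι) (α := fun c => K c → β c) (cwt q)
        (fun ω => ∑ a, g a * (if ω c = a then 1 else 0)) := by
    congr 1
    funext ω
    simp
  rw [h1, Ex_sum]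
  have h2 : ∀ a ∈ (univ : Finset (K c → β c)),
      Ex (W := ι) (α := fun c => K c → β c) (cwt q) (fun ω => g a * (if ω c = a then 1 else 0)) =
      g a * cwt q c a := by
    intro a _
    rw [Ex_const_mul, Ex_coord h c a]
  rw [Finset.sum_congr rfl h2]
  unfold Ex cwt
  apply Finset.sum_congr rfl
  intro a _
  ring

/-- the probability of an event of the class `c` alone -/
theorem Pr_class {q : ∀ c, K c → β c → ℝ}
    (hq : ∀ c, IsProb (W := K c) (α := fun _ => β c) (q c)) (c : ι) (X : Set (K c → β c)) :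
    Pr (W := ι) (α := fun c => K c → β c) (cwt q) {ω | ω c ∈ X} =
      Pr (W := K c) (α := fun _ => β c) (q c) X := by
  classical
  rw [Pr_eq_Ex, Pr_eq_Ex, ← Ex_class hq c]
  unfold Ex
  apply Finset.sum_congr rfl
  intro ω _
  congr 1

/-- an event of the class `c` alone depends on the coordinate `c` -/
theorem dep_class (c : ι) (X : Set (K c → β c)) :
    Dep (W := ι) (α := fun c => K c → β c) {c} (fun ω => ω ∈ {ω | ω c ∈ X}) := by
  intro ω η h
  have := h c (Finset.mem_singleton_self c)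
  show (ω c ∈ X) = (η c ∈ X)
  rw [this]

/-- the flat product space `(Σ c, K c) → ..` -/
def flat (q : ∀ c, K c → β c → ℝ) : ∀ x : (Σ c, K c), β x.1 → ℝ := fun x b => q x.1 x.2 b

theorem flat_prob {q : ∀ c, K c → β c → ℝ}
    (hq : ∀ c, IsProb (W := K c) (α := fun _ => β c) (q c)) :
    IsProb (W := Σ c, K c) (α := fun x => β x.1) (flat q) :=
  ⟨fun x b => (hq x.1).nonneg x.2 b, fun x => (hq x.1).sum_one x.2⟩

/-- the weights agree after currying -/
theorem wt_flat (q : ∀ c, K c → β c → ℝ) (ω : ∀ x : (Σ c, K c), β x.1) :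
    wt (W := Σ c, K c) (α := fun x => β x.1) (flat q) ω =
      wt (W := ι) (α := fun c => K c → β c) (cwt q) (fun c w => ω ⟨c, w⟩) := by
  unfold wt flat cwt wt
  rw [Fintype.prod_sigma]

/-- expectations agree after currying -/
theorem Ex_flat (q : ∀ c, K c → β c → ℝ) (g : (∀ c, K c → β c) → ℝ) :
    Ex (W := Σ c, K c) (α := fun x => β x.1) (flat q) (fun ω => g fun c w => ω ⟨c, w⟩) =
      Ex (W := ι) (α := fun c => K c → β c) (cwt q) g := by
  unfold Ex
  rw [← (Equiv.piCurry (fun (c : ι) (_ : K c) => β c)).sum_comp]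
  apply Finset.sum_congr rfl
  intro ω _
  rw [wt_flat]
  rfl

/-- probabilities agree after currying -/
theorem Pr_flat (q : ∀ c, K c → β c → ℝ) (X : Set (∀ c, K c → β c)) :
    Pr (W := Σ c, K c) (α := fun x => β x.1) (flat q) {ω | (fun c w => ω ⟨c, w⟩) ∈ X} =
      Pr (W := ι) (α := fun c => K c → β c) (cwt q) X := by
  classical
  rw [Pr_eq_Ex, Pr_eq_Ex, ← Ex_flat]
  unfold Ex
  apply Finset.sum_congr rfl
  intro ω _
  congr 1

end curry

end Pool.Agent.LLLA
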