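import Mathlib

/-!
# C4M : the moment part of the words (PAPER_C4_WORDS, section 3): definitions

`V` finite set of vertices, `Λ` finite set of labels, `M = card Λ`, labelings `h : V → Λ`,
all labelings are equally likely (`mean`).
-/

namespace Pool.Agent.C4M

open Finset

/-- average over all labelings `V → Λ` -/
noncomputable def mean {V Λ : Type} [Fintype V] [DecidableEq V] [Fintype Λ]
    (f : (V → Λ) → ℝ) : ℝ :=
  (∑ h : V → Λ, f h) / (Fintype.card Λ : ℝ) ^ Fintype.card V

/-- centred indicator `M [ℓ = l] - 1` -/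
noncomputable def mark {Λ : Type} [Fintype Λ] [DecidableEq Λ] (l ℓ : Λ) : ℝ :=
  (if ℓ = l then (Fintype.card Λ : ℝ) else 0) - 1

/-- kinds of indices: no mark, a zeta mark, a Phi mark -/
inductive Kind where
  | none | zeta | phi
  deriving DecidableEq

/-- symmetric, irreflexive, C4-free neighbourhoods -/
structure IsNbd {V : Type} [DecidableEq V] (N : V → Finset V) : Prop where
  symm : ∀ u v, v ∈ N u → u ∈ N v
  irr : ∀ u, u ∉ N u
  c4 : ∀ u v, u ≠ v → (N u ∩ N v).card ≤ 1

/-! ## generic forests of indices with one common root `x` -/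

/-- centre of the index `j`: the vertex of its parent, or the root -/
def ctr {V J : Type} (x : V) (par : J → Option J) (v : J → V) (j : J) : V :=
  ((par j).map v).getD x

/-- non-fresh indices (with respect to the order `rk`) -/
def NF {V J : Type} [Fintype J] [DecidableEq V] (rk : J → ℕ) (x : V) (v : J → V) : Finset J :=
  univ.filter fun j => v j = x ∨ ∃ i, rk i < rk j ∧ v i = v j

/-- fresh indices with a child whose vertex is `x` or has been revealed before the index -/
def BB {V J : Type} [Fintype J] [DecidableEq J] [DecidableEq V] (rk : J → ℕ)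
    (par : J → Option J) (x : V) (v : J → V) : Finset J :=
  univ.filter fun j => j ∉ NF rk x v ∧
    ∃ j', par j' = some j ∧ (v j' = x ∨ ∃ i, rk i < rk j ∧ v i = v j')

/-- the constant of `REV` -/
def KREV (m : ℕ) : ℝ := ((m : ℝ) + 2) ^ (3 * m)

/-! ## blocks -/

/-- number of indices of kind `k` at the vertex `u` -/
def cnt {V J : Type} [Fintype J] [DecidableEq V] (kind : J → Kind) (v : J → V) (k : Kind)
    (u : V) : ℕ :=
  (univ.filter fun j => v j = u ∧ kind j = k).card

/-- bound for the average over the label of one vertex with `m` zeta marks, `q` Phi marks -/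
noncomputable def blk (M B : ℝ) (m q : ℕ) : ℝ :=
  if m + q = 1 then 0 else if m = 0 then (B * M) ^ q else 2 ^ m * M ^ (m - 1) * (B * M) ^ q

/-- the functions on labels belonging to the kinds -/
structure FnOk {Λ J : Type} [Fintype Λ] [DecidableEq Λ] (kind : J → Kind) (B : ℝ)
    (φ : J → Λ → ℝ) : Prop where
  none : ∀ j, kind j = Kind.none → ∀ ℓ, φ j ℓ = 1
  zeta : ∀ j, kind j = Kind.zeta → ∃ l, ∀ ℓ, φ j ℓ = mark l ℓ
  phi0 : ∀ j, kind j = Kind.phi → ∑ ℓ, φ j ℓ = 0
  phi : ∀ j, kind j = Kind.phi → ∀ ℓ, |φ j ℓ| ≤ B * (Fintype.card Λ : ℝ)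

/-! ## shapes: one copy -/

/-- a shape with indices `Fin n` (order of revealing inside one copy = order of `Fin n`) -/
structure Shape (n : ℕ) where
  par : Fin n → Option (Fin n)
  kind : Fin n → Kind
  st : Fin n → ℕ

/-- parents come first, the stage is monotone -/
structure Shape.Ok {n : ℕ} (S : Shape n) : Prop where
  par_lt : ∀ t u, S.par t = some u → u < t
  st_mono : ∀ t u, u ≤ t → S.st u ≤ S.st t

/-- the shape has exactly one Phi mark `z`, its parent `y` is unmarked, stage 2 is `{y, z}` -/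
structure Shape.Phi {n : ℕ} (S : Shape n) (y z : Fin n) : Prop where
  kz : S.kind z = Kind.phi
  uniq : ∀ t, S.kind t = Kind.phi → t = z
  ky : S.kind y = Kind.none
  pz : S.par z = some y
  st_iff : ∀ t, S.st t = 2 ↔ t = y ∨ t = z
  le2 : ∀ t, S.st t ≤ 2

/-- either no Phi mark and stages ≤ 1, or exactly one Phi pair -/
def Shape.PhiOk {n : ℕ} (S : Shape n) : Prop :=
  (∀ t, S.kind t ≠ Kind.phi ∧ S.st t ≤ 1) ∨ ∃ y z, S.Phi y z

/-- the stage 1 is a tree with unmarked root `a` (the P-vertex) in depth first order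
and contains a zeta mark -/
structure Shape.Bon {n : ℕ} (S : Shape n) (a : Fin n) : Prop where
  kind_a : S.kind a = Kind.none
  st_a : S.st a = 1
  par1 : ∀ t, S.st t = 1 → t ≠ a → ∃ u, S.par t = some u ∧ S.st u = 1
  df : ∀ t u w, S.st t = 1 → S.st u = 1 → S.par t = some u → u < w → w < t →
    S.par w = some u
  zeta1 : ∃ t, S.st t = 1 ∧ S.kind t = Kind.zeta

/-- number of zeta marks -/
def Shape.nz {n : ℕ} (S : Shape n) : ℕ := (univ.filter fun t => S.kind t = Kind.zeta).card

/-- number of Phi marks -/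
def Shape.nf {n : ℕ} (S : Shape n) : ℕ := (univ.filter fun t => S.kind t = Kind.phi).card

/-- validity of a map (one copy): local injectivity -/
structure Valid {V J : Type} [DecidableEq V] (x : V) (par : J → Option J)
    (nb : J → V → Finset V) (v : J → V) : Prop where
  mem : ∀ j, v j ∈ nb j (ctr x par v j)
  grand : ∀ j u, par j = some u → v j ≠ ctr x par v u
  sib : ∀ j j', j ≠ j' → par j = par j' → v j ≠ v j'

/-- a tree polynomial -/
structure Poly (n : ℕ) (V Λ : Type) where
  coef : (Fin n → V) → ℝ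
  fn : Fin n → Λ → ℝ

/-- value of a tree polynomial at the labeling `h` -/
noncomputable def Poly.eval {n : ℕ} {V Λ : Type} [Fintype V] [DecidableEq V]
    (p : Poly n V Λ) (h : V → Λ) : ℝ :=
  ∑ v : Fin n → V, p.coef v * ∏ t, p.fn t (h (v t))

/-- admissible tree polynomials for the shape `S` with root `x` -/
structure Poly.Adm {n : ℕ} {V Λ : Type} [Fintype V] [DecidableEq V] [Fintype Λ] [DecidableEq Λ]
    (S : Shape n) (x : V) (nb : Fin n → V → Finset V) (s C0 B : ℝ) (p : Poly n V Λ) : Prop where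
  coef_le : ∀ v, Valid x S.par nb v → |p.coef v| ≤ C0 / s ^ n
  coef_zero : ∀ v, ¬ Valid x S.par nb v → p.coef v = 0
  fn : FnOk S.kind B p.fn

/-! ## several copies: indices `Fin P × Fin n`, order = (stage, copy, index) -/

/-- parents, copy by copy -/
def Shape.jpar {n : ℕ} (S : Shape n) (P : ℕ) (j : Fin P × Fin n) : Option (Fin P × Fin n) :=
  (S.par j.2).map fun u => (j.1, u)

/-- kinds -/
def Shape.jkind {n : ℕ} (S : Shape n) (P : ℕ) (j : Fin P × Fin n) : Kind := S.kind j.2

/-- the order of revealing -/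
def Shape.jrk {n : ℕ} (S : Shape n) (P : ℕ) (j : Fin P × Fin n) : ℕ :=
  S.st j.2 * (P * n) + j.1 * n + j.2

/-- all copies are valid (root `x`) -/
def JValid {n P : ℕ} {V : Type} [DecidableEq V] (S : Shape n) (x : V)
    (nb : Fin n → V → Finset V) (v : Fin P × Fin n → V) : Prop :=
  ∀ c, Valid x S.par nb fun t => v (c, t)

/-- common data of the estimates -/
structure Env {n : ℕ} {V Λ : Type} [Fintype V] [DecidableEq V] [Fintype Λ]
    (N : V → Finset V) (nb : Fin n → V → Finset V) (cap : Fin n → ℝ) (s : ℝ) : Prop where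
  nbd : IsNbd N
  sub : ∀ t u, nb t u ⊆ N u
  card_le : ∀ t u, ((nb t u).card : ℝ) ≤ cap t
  s_le : ∀ t, s ≤ cap t
  one_le : 1 ≤ (Fintype.card Λ : ℝ)
  le_s : (Fintype.card Λ : ℝ) ≤ s

end Pool.Agent.C4M
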