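import Pool.Agent.C4M.Llla
import Pool.Agent.C4M.Defs

/-!
# Probability tools on finite product spaces

Fubini with respect to a set of coordinates, independence of functions of disjoint coordinates,
Markov, Chernoff bounds, number of independent events.
-/

set_option linter.unusedSectionVars false

namespace Pool.Agent.LLLA

open Finset

variable {W : Type*} [Fintype W] [DecidableEq W] {α : W → Type*} [∀ w, Fintype (α w)]
  [∀ w, DecidableEq (α w)]

/-! ## elementary facts -/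

theorem Ex_add (q : ∀ w, α w → ℝ) (f g : (∀ w, α w) → ℝ) :
    Ex q (fun ω => f ω + g ω) = Ex q f + Ex q g := by
  unfold Ex
  rw [← Finset.sum_add_distrib]
  apply Finset.sum_congr rfl
  intro ω _
  ring

theorem Ex_sub (q : ∀ w, α w → ℝ) (f g : (∀ w, α w) → ℝ) :
    Ex q (fun ω => f ω - g ω) = Ex q f - Ex q g := by
  unfold Ex
  rw [← Finset.sum_sub_distrib]
  apply Finset.sum_congr rfl
  intro ω _
  ring

theorem Ex_const {q : ∀ w, α w → ℝ} (hq : IsProb q) (c : ℝ) : Ex q (fun _ => c) = c := by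
  unfold Ex
  rw [← Finset.sum_mul, sum_wt hq, one_mul]

theorem Ex_nonneg {q : ∀ w, α w → ℝ} (hq : IsProb q) {f : (∀ w, α w) → ℝ}
    (h : ∀ ω, 0 ≤ f ω) : 0 ≤ Ex q f :=
  Finset.sum_nonneg fun ω _ => mul_nonneg (wt_nonneg hq ω) (h ω)

/-- expectation of the indicator, in `if` form -/
theorem Ex_ite (q : ∀ w, α w → ℝ) (P : (∀ w, α w) → Prop) [DecidablePred P] :
    Ex q (fun ω => if P ω then 1 else 0) = Pr q {ω | P ω} := by
  classical
  rw [Pr_eq_Ex]
  unfold Ex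
  apply Finset.sum_congr rfl
  intro ω _
  show wt q ω * (if P ω then (1 : ℝ) else 0) = _
  by_cases h : P ω
  · rw [if_pos h, Set.indicator_of_mem (show ω ∈ {ω | P ω} from h)]
  · rw [if_neg h, Set.indicator_of_notMem (show ω ∉ {ω | P ω} from h)]

theorem Pr_le_one {q : ∀ w, α w → ℝ} (hq : IsProb q) (X : Set (∀ w, α w)) : Pr q X ≤ 1 := by
  rw [← Pr_univ hq]
  exact Pr_mono hq (Set.subset_univ X)

theorem Pr_compl {q : ∀ w, α w → ℝ} (hq : IsProb q) (X : Set (∀ w, α w)) :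
    Pr q X + Pr q Xᶜ = 1 := by
  have h := Pr_inter_add_diff q Set.univ X
  rw [Pr_univ hq, Set.univ_inter] at h
  rw [← h]
  congr 2
  ext ω
  simp

/-- union bound over a finite set -/
theorem Pr_biUnion_le {q : ∀ w, α w → ℝ} (hq : IsProb q) {ι : Type*} (s : Finset ι)
    (X : ι → Set (∀ w, α w)) : Pr q (⋃ i ∈ s, X i) ≤ ∑ i ∈ s, Pr q (X i) := by
  classical
  induction s using Finset.induction_on with
  | empty => simp [Pr]
  | insert a s ha ih =>
    rw [Finset.sum_insert ha, Finset.set_biUnion_insert]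
    exact (Pr_union_le hq _ _).trans (by linarith)

theorem Pr_exists_le {q : ∀ w, α w → ℝ} (hq : IsProb q) {ι : Type*} (s : Finset ι)
    (X : ι → Set (∀ w, α w)) : Pr q {ω | ∃ i ∈ s, ω ∈ X i} ≤ ∑ i ∈ s, Pr q (X i) := by
  refine le_trans (Pr_mono hq ?_) (Pr_biUnion_le hq s X)
  intro ω hω
  obtain ⟨i, hi, h⟩ := hω
  simp only [Set.mem_iUnion]
  exact ⟨i, hi, h⟩

/-- the avoided event exists if the sum of the probabilities is less than one -/
theorem exists_avoid {q : ∀ w, α w → ℝ} (hq : IsProb q) {ι : Type*} (s : Finset ι)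
    (X : ι → Set (∀ w, α w)) (h : ∑ i ∈ s, Pr q (X i) < 1) : ∃ ω, ∀ i ∈ s, ω ∉ X i := by
  by_contra hcon
  push Not at hcon
  have h1 : Pr q (⋃ i ∈ s, X i) = 1 := by
    rw [← Pr_univ hq]
    congr 1
    ext ω
    simp only [Set.mem_iUnion, Set.mem_univ, iff_true]
    obtain ⟨i, hi, hω⟩ := hcon ω
    exact ⟨i, hi, hω⟩
  have h2 := Pr_biUnion_le hq s X
  linarith

/-- Markov's inequality -/
theorem markov {q : ∀ w, α w → ℝ} (hq : IsProb q) {f : (∀ w, α w) → ℝ} (hf : ∀ ω, 0 ≤ f ω)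
    {a : ℝ} (ha : 0 < a) : Pr q {ω | a ≤ f ω} ≤ Ex q f / a := by
  classical
  rw [Pr_eq_Ex, le_div_iff₀ ha, mul_comm, ← Ex_const_mul]
  apply Ex_mono hq
  intro ω
  simp only [Set.indicator_apply, Set.mem_ofPred_eq]
  split_ifs with h
  · linarith
  · simpa using hf ω

/-! ## Fubini -/

/-- `f` depends on the coordinates in `A` only -/
def Dep (A : Finset W) {β : Type*} (f : (∀ w, α w) → β) : Prop :=
  ∀ ω η, (∀ w ∈ A, ω w = η w) → f ω = f η

theorem Dep.mono {A B : Finset W} {β : Type*} {f : (∀ w, α w) → β} (h : Dep A f)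
    (hAB : A ⊆ B) : Dep B f :=
  fun ω η hw => h ω η fun w hwA => hw w (hAB hwA)

/-- Fubini: first the coordinates in `R` -/
theorem Ex_fub {q : ∀ w, α w → ℝ} (hq : IsProb q) (R : Finset W) (f : (∀ w, α w) → ℝ) :
    Ex q f = Ex q fun ω => Ex q fun η => f (mix R ω η) := by
  have h1 : Ex q f = ∑ x : (∀ w, α w) × (∀ w, α w), (wt q x.1 * wt q x.2) * f x.1 := by
    unfold Ex
    rw [Fintype.sum_prod_type]
    apply Finset.sum_congr rfl
    intro ω _
    have : ∑ η : ∀ w, α w, (wt q ω * wt q η) * f ω = (wt q ω * f ω) * ∑ η : ∀ w, α w, wt q η := by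
      rw [Finset.mul_sum]
      apply Finset.sum_congr rfl
      intro η _
      ring
    rw [this, sum_wt hq, mul_one]
  have h2 : (Ex q fun ω => Ex q fun η => f (mix R ω η)) =
      ∑ x : (∀ w, α w) × (∀ w, α w), (wt q x.1 * wt q x.2) * f (mix R x.1 x.2) := by
    unfold Ex
    rw [Fintype.sum_prod_type]
    apply Finset.sum_congr rfl
    intro ω _
    rw [Finset.mul_sum]
    apply Finset.sum_congr rfl
    intro η _
    ring
  rw [h1, h2, ← (swapE R).sum_comp]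
  apply Finset.sum_congr rfl
  intro x _
  show (wt q (mix R x.1 x.2) * wt q (mix R x.2 x.1)) * f (mix R x.1 x.2) = _
  rw [wt_mix]

theorem Pr_fub {q : ∀ w, α w → ℝ} (hq : IsProb q) (R : Finset W) (X : Set (∀ w, α w)) :
    Pr q X = Ex q fun ω => Pr q {η | mix R ω η ∈ X} := by
  classical
  rw [Pr_eq_Ex, Ex_fub hq R]
  congr 1
  funext ω
  rw [Pr_eq_Ex]
  unfold Ex
  apply Finset.sum_congr rfl
  intro η _
  show wt q η * X.indicator (fun _ => (1 : ℝ)) (mix R ω η) = _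
  by_cases h : mix R ω η ∈ X
  · rw [Set.indicator_of_mem h, Set.indicator_of_mem (show η ∈ {η | mix R ω η ∈ X} from h)]
  · rw [Set.indicator_of_notMem h,
      Set.indicator_of_notMem (show η ∉ {η | mix R ω η ∈ X} from h)]

/-- conditioning: a bound for the conditional probability for all values of the coordinates
in `R` is a bound for the probability -/
theorem Pr_le_of_cond {q : ∀ w, α w → ℝ} (hq : IsProb q) (R : Finset W)
    (X : Set (∀ w, α w)) {b : ℝ} (h : ∀ ω, Pr q {η | mix R ω η ∈ X} ≤ b) : Pr q X ≤ b := by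
  rw [Pr_fub hq R]
  calc (Ex q fun ω => Pr q {η | mix R ω η ∈ X}) ≤ Ex q fun _ => b := Ex_mono hq h
    _ = b := Ex_const hq b

theorem Ex_le_of_cond {q : ∀ w, α w → ℝ} (hq : IsProb q) (R : Finset W)
    (f : (∀ w, α w) → ℝ) {b : ℝ} (h : ∀ ω, Ex q (fun η => f (mix R ω η)) ≤ b) :
    Ex q f ≤ b := by
  rw [Ex_fub hq R]
  calc (Ex q fun ω => Ex q fun η => f (mix R ω η)) ≤ Ex q fun _ => b := Ex_mono hq h
    _ = b := Ex_const hq b

/-! ## independence -/

theorem Ex_mul_dep {q : ∀ w, α w → ℝ} (hq : IsProb q) {A B : Finset W} (hAB : Disjoint A B)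
    {f g : (∀ w, α w) → ℝ} (hf : Dep A f) (hg : Dep B g) :
    Ex q (fun ω => f ω * g ω) = Ex q f * Ex q g := by
  apply Ex_mul hq A
  · intro ω η
    apply hf
    intro w hw
    simp [mix, hw]
  · intro ω η
    apply hg
    intro w hw
    have : w ∉ A := fun h => (Finset.disjoint_left.1 hAB) h hw
    simp [mix, this]

theorem dep_prod {ι : Type*} (s : Finset ι) (A : ι → Finset W) (f : ι → (∀ w, α w) → ℝ)
    (hf : ∀ i ∈ s, Dep (A i) (f i)) : Dep (s.biUnion A) (fun ω => ∏ i ∈ s, f i ω) := by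
  intro ω η h
  apply Finset.prod_congr rfl
  intro i hi
  apply hf i hi
  intro w hw
  exact h w (Finset.mem_biUnion.2 ⟨i, hi, hw⟩)

/-- independence of functions of pairwise disjoint sets of coordinates -/
theorem Ex_prod {q : ∀ w, α w → ℝ} (hq : IsProb q) {ι : Type*} (s : Finset ι)
    (A : ι → Finset W) (hA : ∀ i ∈ s, ∀ j ∈ s, i ≠ j → Disjoint (A i) (A j))
    (f : ι → (∀ w, α w) → ℝ) (hf : ∀ i ∈ s, Dep (A i) (f i)) :
    Ex q (fun ω => ∏ i ∈ s, f i ω) = ∏ i ∈ s, Ex q (f i) := by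
  classical
  induction s using Finset.induction_on with
  | empty => simp [Ex_const hq]
  | insert a s ha ih =>
    rw [Finset.prod_insert ha]
    have h1 : (fun ω => ∏ i ∈ insert a s, f i ω) = fun ω => f a ω * ∏ i ∈ s, f i ω := by
      funext ω
      rw [Finset.prod_insert ha]
    rw [h1, Ex_mul_dep hq (A := A a) (B := s.biUnion A), ih]
    · intro i hi j hj hij
      exact hA i (Finset.mem_insert_of_mem hi) j (Finset.mem_insert_of_mem hj) hij
    · intro i hi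
      exact hf i (Finset.mem_insert_of_mem hi)
    · rw [Finset.disjoint_biUnion_right]
      intro i hi
      apply hA a (Finset.mem_insert_self _ _) i (Finset.mem_insert_of_mem hi)
      rintro rfl
      exact ha hi
    · exact hf a (Finset.mem_insert_self _ _)
    · exact dep_prod s A f fun i hi => hf i (Finset.mem_insert_of_mem hi)

/-- independent events -/
theorem Pr_inter_dep {q : ∀ w, α w → ℝ} (hq : IsProb q) {A B : Finset W}
    (hAB : Disjoint A B) {X Y : Set (∀ w, α w)} (hX : Dep A (fun ω => ω ∈ X))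
    (hY : Dep B (fun ω => ω ∈ Y)) : Pr q (X ∩ Y) = Pr q X * Pr q Y := by
  classical
  rw [Pr_eq_Ex, Pr_eq_Ex, Pr_eq_Ex, ← Ex_mul_dep hq hAB]
  · congr 1
    funext ω
    simp only [Set.indicator_apply, Set.mem_inter_iff]
    by_cases h1 : ω ∈ X <;> by_cases h2 : ω ∈ Y <;> simp [h1, h2]
  · intro ω η h
    have := hX ω η h
    simp only [Set.indicator_apply]
    simp only [eq_iff_iff] at this
    by_cases h1 : ω ∈ X
    · rw [if_pos h1, if_pos (this.1 h1)]
    · rw [if_neg h1, if_neg (fun h2 => h1 (this.2 h2))]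
  · intro ω η h
    have := hY ω η h
    simp only [Set.indicator_apply]
    simp only [eq_iff_iff] at this
    by_cases h1 : ω ∈ Y
    · rw [if_pos h1, if_pos (this.1 h1)]
    · rw [if_neg h1, if_neg (fun h2 => h1 (this.2 h2))]

/-! ## Chernoff bounds -/

/-- `exp (λ x) ≤ 1 + (exp λ - 1) x` for `0 ≤ x ≤ 1` -/
theorem exp_le_lin (lam x : ℝ) (h0 : 0 ≤ x) (h1 : x ≤ 1) :
    Real.exp (lam * x) ≤ 1 + (Real.exp lam - 1) * x := by
  have h := convexOn_exp.2 (Set.mem_univ (0 : ℝ)) (Set.mem_univ lam) (sub_nonneg.2 h1) h0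
    (by ring)
  simp only [smul_eq_mul, mul_zero, zero_add, Real.exp_zero, mul_one] at h
  rw [mul_comm x lam] at h
  linarith

/-- data of a sum of independent `[0,1]`-valued functions -/
structure IndSum (q : ∀ w, α w → ℝ) {ι : Type*} (s : Finset ι) (A : ι → Finset W)
    (f : ι → (∀ w, α w) → ℝ) : Prop where
  prob : IsProb q
  disj : ∀ i ∈ s, ∀ j ∈ s, i ≠ j → Disjoint (A i) (A j)
  dep : ∀ i ∈ s, Dep (A i) (f i)
  nonneg : ∀ i ∈ s, ∀ ω, 0 ≤ f i ω
  le_one : ∀ i ∈ s, ∀ ω, f i ω ≤ 1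

/-- exponential moments -/
theorem IndSum.exp_moment {q : ∀ w, α w → ℝ} {ι : Type*} {s : Finset ι} {A : ι → Finset W}
    {f : ι → (∀ w, α w) → ℝ} (h : IndSum q s A f) (lam : ℝ) :
    Ex q (fun ω => Real.exp (lam * ∑ i ∈ s, f i ω)) ≤
      Real.exp ((Real.exp lam - 1) * ∑ i ∈ s, Ex q (f i)) := by
  have h1 : (fun ω => Real.exp (lam * ∑ i ∈ s, f i ω)) =
      fun ω => ∏ i ∈ s, Real.exp (lam * f i ω) := by
    funext ω
    rw [Finset.mul_sum, Real.exp_sum]
  rw [h1, Ex_prod h.prob s A h.disj (fun i ω => Real.exp (lam * f i ω))]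
  · rw [Finset.mul_sum, Real.exp_sum]
    apply Finset.prod_le_prod
    · intro i _
      exact Ex_nonneg h.prob fun ω => (Real.exp_pos _).le
    · intro i hi
      calc Ex q (fun ω => Real.exp (lam * f i ω)) ≤
          Ex q (fun ω => 1 + (Real.exp lam - 1) * f i ω) := by
            apply Ex_mono h.prob
            intro ω
            exact exp_le_lin lam _ (h.nonneg i hi ω) (h.le_one i hi ω)
        _ = 1 + (Real.exp lam - 1) * Ex q (f i) := by
            rw [Ex_add, Ex_const h.prob, Ex_const_mul]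
        _ ≤ Real.exp ((Real.exp lam - 1) * Ex q (f i)) := by
            have := Real.add_one_le_exp ((Real.exp lam - 1) * Ex q (f i))
            linarith
  · intro i hi ω η hw
    simp only
    rw [h.dep i hi ω η hw]

/-- general upper tail, `λ ≥ 0` -/
theorem IndSum.upper {q : ∀ w, α w → ℝ} {ι : Type*} {s : Finset ι} {A : ι → Finset W}
    {f : ι → (∀ w, α w) → ℝ} (h : IndSum q s A f) {lam μ a : ℝ} (hl : 0 ≤ lam)
    (hμ : ∑ i ∈ s, Ex q (f i) ≤ μ) :
    Pr q {ω | a ≤ ∑ i ∈ s, f i ω} ≤ Real.exp ((Real.exp lam - 1) * μ - lam * a) := by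
  have h1 : Pr q {ω | a ≤ ∑ i ∈ s, f i ω} ≤
      Pr q {ω | Real.exp (lam * a) ≤ Real.exp (lam * ∑ i ∈ s, f i ω)} := by
    apply Pr_mono h.prob
    intro ω hω
    exact Real.exp_le_exp.2 (mul_le_mul_of_nonneg_left hω hl)
  refine h1.trans ((markov h.prob (fun ω => (Real.exp_pos _).le) (Real.exp_pos _)).trans ?_)
  rw [Real.exp_sub]
  apply div_le_div_of_nonneg_right _ (Real.exp_pos _).le
  refine (h.exp_moment lam).trans (Real.exp_le_exp.2 ?_)
  apply mul_le_mul_of_nonneg_left hμ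
  have := Real.one_le_exp hl
  linarith

/-- general lower tail, `λ ≥ 0` -/
theorem IndSum.lower {q : ∀ w, α w → ℝ} {ι : Type*} {s : Finset ι} {A : ι → Finset W}
    {f : ι → (∀ w, α w) → ℝ} (h : IndSum q s A f) {lam μ a : ℝ} (hl : 0 ≤ lam)
    (hμ : μ ≤ ∑ i ∈ s, Ex q (f i)) :
    Pr q {ω | ∑ i ∈ s, f i ω ≤ a} ≤ Real.exp ((Real.exp (-lam) - 1) * μ + lam * a) := by
  have h1 : Pr q {ω | ∑ i ∈ s, f i ω ≤ a} ≤
      Pr q {ω | Real.exp (-lam * a) ≤ Real.exp (-lam * ∑ i ∈ s, f i ω)} := by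
    apply Pr_mono h.prob
    intro ω hω
    apply Real.exp_le_exp.2
    have h2 : ∑ i ∈ s, f i ω ≤ a := hω
    have := mul_le_mul_of_nonneg_left h2 hl
    linarith
  refine h1.trans ((markov h.prob (fun ω => (Real.exp_pos _).le) (Real.exp_pos _)).trans ?_)
  have h3 : Real.exp ((Real.exp (-lam) - 1) * μ + lam * a) =
      Real.exp ((Real.exp (-lam) - 1) * μ) / Real.exp (-lam * a) := by
    rw [← Real.exp_sub]
    congr 1
    ring
  rw [h3]
  apply div_le_div_of_nonneg_right _ (Real.exp_pos _).le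
  refine (h.exp_moment (-lam)).trans (Real.exp_le_exp.2 ?_)
  have h4 : Real.exp (-lam) ≤ 1 := Real.exp_le_one_iff.2 (by linarith)
  exact mul_le_mul_of_nonpos_left hμ (by linarith)

theorem exp_le_quad {x : ℝ} (h : |x| ≤ 1) : Real.exp x ≤ 1 + x + x ^ 2 := by
  have := (abs_le.1 (Real.abs_exp_sub_one_sub_id_le h)).2
  linarith

/-- Chernoff, upper tail: `P (S ≥ E S + t) ≤ exp (-t^2 / (4 μ))` if `E S ≤ μ`, `t ≤ 2 μ` -/
theorem IndSum.chern_up {q : ∀ w, α w → ℝ} {ι : Type*} {s : Finset ι} {A : ι → Finset W}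
    {f : ι → (∀ w, α w) → ℝ} (h : IndSum q s A f) {μ t : ℝ} (hμ0 : 0 < μ)
    (hμ : ∑ i ∈ s, Ex q (f i) ≤ μ) (ht : 0 ≤ t) (ht2 : t ≤ 2 * μ) :
    Pr q {ω | ∑ i ∈ s, Ex q (f i) + t ≤ ∑ i ∈ s, f i ω} ≤ Real.exp (-(t ^ 2 / (4 * μ))) := by
  set m := ∑ i ∈ s, Ex q (f i) with hm
  have hl0 : 0 ≤ t / (2 * μ) := by positivity
  have hl1 : t / (2 * μ) ≤ 1 := by rw [div_le_one (by positivity)]; exact ht2
  have hm0 : 0 ≤ m := Finset.sum_nonneg fun i hi => Ex_nonneg h.prob (h.nonneg i hi)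
  refine (h.upper (lam := t / (2 * μ)) (μ := m) hl0 le_rfl).trans (Real.exp_le_exp.2 ?_)
  have h1 := exp_le_quad (x := t / (2 * μ)) (by rw [abs_of_nonneg hl0]; exact hl1)
  have h2 : (Real.exp (t / (2 * μ)) - 1) * m ≤
      (t / (2 * μ) + (t / (2 * μ)) ^ 2) * m :=
    mul_le_mul_of_nonneg_right (by linarith) hm0
  have h3 : (t / (2 * μ)) ^ 2 * m ≤ (t / (2 * μ)) ^ 2 * μ :=
    mul_le_mul_of_nonneg_left hμ (sq_nonneg _)
  have h4 : (t / (2 * μ)) ^ 2 * μ - t / (2 * μ) * t = -(t ^ 2 / (4 * μ)) := by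
    field_simp
    ring
  calc (Real.exp (t / (2 * μ)) - 1) * m - t / (2 * μ) * (m + t) ≤
      (t / (2 * μ) + (t / (2 * μ)) ^ 2) * m - t / (2 * μ) * (m + t) := by linarith
    _ = (t / (2 * μ)) ^ 2 * m - t / (2 * μ) * t := by ring
    _ ≤ (t / (2 * μ)) ^ 2 * μ - t / (2 * μ) * t := by linarith
    _ = _ := h4

/-- Chernoff, lower tail -/
theorem IndSum.chern_lo {q : ∀ w, α w → ℝ} {ι : Type*} {s : Finset ι} {A : ι → Finset W}
    {f : ι → (∀ w, α w) → ℝ} (h : IndSum q s A f) {μ t : ℝ} (hμ0 : 0 < μ)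
    (hμ : ∑ i ∈ s, Ex q (f i) ≤ μ) (ht : 0 ≤ t) (ht2 : t ≤ 2 * μ) :
    Pr q {ω | ∑ i ∈ s, f i ω ≤ ∑ i ∈ s, Ex q (f i) - t} ≤ Real.exp (-(t ^ 2 / (4 * μ))) := by
  set m := ∑ i ∈ s, Ex q (f i) with hm
  have hl0 : 0 ≤ t / (2 * μ) := by positivity
  have hl1 : t / (2 * μ) ≤ 1 := by rw [div_le_one (by positivity)]; exact ht2
  have hm0 : 0 ≤ m := Finset.sum_nonneg fun i hi => Ex_nonneg h.prob (h.nonneg i hi)
  refine (h.lower (lam := t / (2 * μ)) (μ := m) hl0 le_rfl).trans (Real.exp_le_exp.2 ?_)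
  have h1 := exp_le_quad (x := -(t / (2 * μ))) (by rw [abs_neg, abs_of_nonneg hl0]; exact hl1)
  have h2 : (Real.exp (-(t / (2 * μ))) - 1) * m ≤
      (-(t / (2 * μ)) + (t / (2 * μ)) ^ 2) * m := by
    apply mul_le_mul_of_nonneg_right _ hm0
    rw [neg_sq] at h1
    linarith
  have h3 : (t / (2 * μ)) ^ 2 * m ≤ (t / (2 * μ)) ^ 2 * μ :=
    mul_le_mul_of_nonneg_left hμ (sq_nonneg _)
  have h4 : (t / (2 * μ)) ^ 2 * μ - t / (2 * μ) * t = -(t ^ 2 / (4 * μ)) := by
    field_simp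
    ring
  calc (Real.exp (-(t / (2 * μ))) - 1) * m + t / (2 * μ) * (m - t) ≤
      (-(t / (2 * μ)) + (t / (2 * μ)) ^ 2) * m + t / (2 * μ) * (m - t) := by linarith
    _ = (t / (2 * μ)) ^ 2 * m - t / (2 * μ) * t := by ring
    _ ≤ (t / (2 * μ)) ^ 2 * μ - t / (2 * μ) * t := by linarith
    _ = _ := h4

/-- Chernoff, both tails -/
theorem IndSum.chern {q : ∀ w, α w → ℝ} {ι : Type*} {s : Finset ι} {A : ι → Finset W}
    {f : ι → (∀ w, α w) → ℝ} (h : IndSum q s A f) {μ t : ℝ} (hμ0 : 0 < μ)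
    (hμ : ∑ i ∈ s, Ex q (f i) ≤ μ) (ht : 0 ≤ t) (ht2 : t ≤ 2 * μ) :
    Pr q {ω | t ≤ |∑ i ∈ s, f i ω - ∑ i ∈ s, Ex q (f i)|} ≤
      2 * Real.exp (-(t ^ 2 / (4 * μ))) := by
  have h1 := h.chern_up hμ0 hμ ht ht2
  have h2 := h.chern_lo hμ0 hμ ht ht2
  refine (Pr_mono h.prob ?_).trans ((Pr_union_le h.prob _ _).trans (by
    linarith : Pr q {ω | ∑ i ∈ s, Ex q (f i) + t ≤ ∑ i ∈ s, f i ω} +
      Pr q {ω | ∑ i ∈ s, f i ω ≤ ∑ i ∈ s, Ex q (f i) - t} ≤ _))
  intro ω hω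
  rcases le_abs.1 (show t ≤ |∑ i ∈ s, f i ω - ∑ i ∈ s, Ex q (f i)| from hω) with h3 | h3
  · left
    show ∑ i ∈ s, Ex q (f i) + t ≤ ∑ i ∈ s, f i ω
    linarith
  · right
    show ∑ i ∈ s, f i ω ≤ ∑ i ∈ s, Ex q (f i) - t
    linarith

/-- Chernoff far from the mean -/
theorem IndSum.chern_far {q : ∀ w, α w → ℝ} {ι : Type*} {s : Finset ι} {A : ι → Finset W}
    {f : ι → (∀ w, α w) → ℝ} (h : IndSum q s A f) {a : ℝ}
    (ha : 7 * ∑ i ∈ s, Ex q (f i) ≤ a) :
    Pr q {ω | a ≤ ∑ i ∈ s, f i ω} ≤ Real.exp (-a) := by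
  set m := ∑ i ∈ s, Ex q (f i) with hm
  have hm0 : 0 ≤ m := Finset.sum_nonneg fun i hi => Ex_nonneg h.prob (h.nonneg i hi)
  refine (h.upper (lam := 2) (μ := m) (by norm_num) le_rfl).trans (Real.exp_le_exp.2 ?_)
  have h1 : Real.exp 2 ≤ 8 := by
    have h2 := Real.exp_one_lt_d9
    have h3 : Real.exp 2 = Real.exp 1 * Real.exp 1 := by
      rw [← Real.exp_add]; norm_num
    rw [h3]
    have h4 := Real.exp_pos 1
    nlinarith
  nlinarith

/-- number of independent events: `P (#{i : A_i} ≥ m) ≤ (e μ / m) ^ m` -/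
theorem IndSum.chern_big {q : ∀ w, α w → ℝ} {ι : Type*} {s : Finset ι} {A : ι → Finset W}
    {f : ι → (∀ w, α w) → ℝ} (h : IndSum q s A f) {μ : ℝ} (hμ0 : 0 < μ)
    (hμ : ∑ i ∈ s, Ex q (f i) ≤ μ) {m : ℕ} (hm : 1 ≤ m) :
    Pr q {ω | (m : ℝ) ≤ ∑ i ∈ s, f i ω} ≤ (Real.exp 1 * μ / m) ^ m := by
  have hm0 : (0 : ℝ) < m := by exact_mod_cast hm
  by_cases hc : μ ≤ m
  · have hlog : 0 ≤ Real.log (m / μ) := Real.log_nonneg ((one_le_div hμ0).2 hc)
    refine (h.upper (lam := Real.log (m / μ)) hlog hμ).trans ?_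
    rw [Real.exp_log (by positivity)]
    have h1 : ((m : ℝ) / μ - 1) * μ = m - μ := by field_simp
    rw [h1]
    have h2 : (Real.exp 1 * μ / m) ^ m = Real.exp (m * (1 - Real.log (m / μ))) := by
      rw [Real.exp_nat_mul, Real.exp_sub, Real.exp_log (by positivity)]
      congr 1
      field_simp
    rw [h2]
    apply Real.exp_le_exp.2
    nlinarith
  · push Not at hc
    refine (Pr_le_one h.prob _).trans ?_
    apply one_le_pow₀
    rw [one_le_div hm0]
    have h1 : 1 ≤ Real.exp 1 := Real.one_le_exp (by norm_num)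
    nlinarith

/-! ## plain local lemma -/

/-- symmetric local lemma with fixed sets of coordinates -/
theorem plain_lll {VV : Type*} [Fintype VV] [DecidableEq VV] {q : ∀ w, α w → ℝ}
    (hq : IsProb q) (A : VV → Set (∀ w, α w)) (S : VV → Finset W)
    (hS : ∀ v, Dep (S v) fun ω => ω ∈ A v) (p d : ℝ) (hp : 0 ≤ p) (hpd : 4 * p * d ≤ 1)
    (hp4 : p ≤ 1 / 4) (hP : ∀ v, Pr q (A v) ≤ p)
    (hd : ∀ v, ((univ.filter fun v' => (S v ∩ S v').Nonempty).card : ℝ) ≤ d) :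
    ∃ ω, ∀ v, ω ∉ A v := by
  classical
  apply stop_lll hq A (fun v _ => S v)
  · intro v
    refine ⟨fun _ _ _ => rfl, fun ω η h => ?_⟩
    have := hS v η ω (fun w hw => h w hw)
    simpa using this
  · intro v
    exact (hP v).trans hp4
  · intro v ρ _
    have h1 : ∀ v', Pr q {ω | ω ∈ A v' ∧ ∃ w, w ∈ S v ∧ w ∈ S v' ∧ ω w ≠ ρ w} ≤
        if (S v ∩ S v').Nonempty then p else 0 := by
      intro v'
      split_ifs with hne
      · exact (Pr_mono hq fun ω hω => hω.1).trans (hP v')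
      · have : {ω | ω ∈ A v' ∧ ∃ w, w ∈ S v ∧ w ∈ S v' ∧ ω w ≠ ρ w} = ∅ := by
          ext ω
          simp only [Set.mem_ofPred_eq, Set.mem_empty_iff_false, iff_false, not_and]
          rintro _ ⟨w, h1, h2, _⟩
          exact hne ⟨w, Finset.mem_inter.2 ⟨h1, h2⟩⟩
        rw [this]
        simp [Pr]
    calc ∑ v', Pr q {ω | ω ∈ A v' ∧ ∃ w, w ∈ S v ∧ w ∈ S v' ∧ ω w ≠ ρ w} ≤
        ∑ v', (if (S v ∩ S v').Nonempty then p else 0) := Finset.sum_le_sum fun v' _ => h1 v'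
      _ = ((univ.filter fun v' => (S v ∩ S v').Nonempty).card : ℝ) * p := by
          rw [← Finset.sum_filter, Finset.sum_const, nsmul_eq_mul]
      _ ≤ d * p := mul_le_mul_of_nonneg_right (hd v) hp
      _ ≤ 1 / 4 := by linarith

/-! ## number of independent events -/

/-- the number of the events which occur -/
noncomputable def numEv {ι : Type*} (s : Finset ι) (X : ι → Set (∀ w, α w))
    (ω : ∀ w, α w) : ℕ := by
  classical
  exact (s.filter fun i => ω ∈ X i).card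

theorem numEv_eq {ι : Type*} (s : Finset ι) (X : ι → Set (∀ w, α w)) (ω : ∀ w, α w) :
    (numEv s X ω : ℝ) = ∑ i ∈ s, (X i).indicator (fun _ => (1 : ℝ)) ω := by
  classical
  unfold numEv
  rw [Finset.card_filter]
  push_cast
  apply Finset.sum_congr rfl
  intro i _
  by_cases h : ω ∈ X i
  · rw [if_pos h, Set.indicator_of_mem h]
  · rw [if_neg h, Set.indicator_of_notMem h]

theorem indSum_events {q : ∀ w, α w → ℝ} (hq : IsProb q) {ι : Type*} (s : Finset ι)
    (A : ι → Finset W) (hA : ∀ i ∈ s, ∀ j ∈ s, i ≠ j → Disjoint (A i) (A j))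
    (X : ι → Set (∀ w, α w)) (hX : ∀ i ∈ s, Dep (A i) fun ω => ω ∈ X i) :
    IndSum q s A fun i => (X i).indicator fun _ => (1 : ℝ) := by
  classical
  refine ⟨hq, hA, ?_, ?_, ?_⟩
  · intro i hi ω η hw
    have h := hX i hi ω η hw
    simp only [eq_iff_iff] at h
    simp only [Set.indicator_apply]
    by_cases h1 : ω ∈ X i
    · rw [if_pos h1, if_pos (h.1 h1)]
    · rw [if_neg h1, if_neg (fun h2 => h1 (h.2 h2))]
  · intro i _ ω
    exact Set.indicator_nonneg (fun _ _ => zero_le_one) ω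
  · intro i _ ω
    simp only [Set.indicator_apply]
    split_ifs <;> norm_num

/-- at least `m` of independent events: `P ≤ (e μ / m) ^ m` -/
theorem Pr_numEv_le {q : ∀ w, α w → ℝ} (hq : IsProb q) {ι : Type*} (s : Finset ι)
    (A : ι → Finset W) (hA : ∀ i ∈ s, ∀ j ∈ s, i ≠ j → Disjoint (A i) (A j))
    (X : ι → Set (∀ w, α w)) (hX : ∀ i ∈ s, Dep (A i) fun ω => ω ∈ X i) {μ : ℝ} (hμ0 : 0 < μ)
    (hμ : ∑ i ∈ s, Pr q (X i) ≤ μ) {m : ℕ} (hm : 1 ≤ m) :
    Pr q {ω | m ≤ numEv s X ω} ≤ (Real.exp 1 * μ / m) ^ m := by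
  have h := (indSum_events hq s A hA X hX).chern_big hμ0 (by
    refine le_trans (le_of_eq ?_) hμ
    apply Finset.sum_congr rfl
    intro i _
    rw [Pr_eq_Ex]) hm
  refine le_trans (Pr_mono hq ?_) h
  intro ω hω
  show (m : ℝ) ≤ _
  rw [← numEv_eq]
  exact_mod_cast hω

/-! ## uniform labels: transfer from `C4M.mean` -/

/-- the uniform weights on labelings -/
noncomputable def unif (V Λ : Type*) [Fintype Λ] : V → Λ → ℝ := fun _ _ =>
  1 / (Fintype.card Λ : ℝ)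

theorem unif_prob {V Λ : Type*} [Fintype Λ] [Nonempty Λ] :
    IsProb (α := fun _ : V => Λ) (unif V Λ) := by
  refine ⟨fun _ _ => by unfold unif; positivity, fun _ => ?_⟩
  unfold unif
  rw [Finset.sum_const, Finset.card_univ, nsmul_eq_mul]
  have : (Fintype.card Λ : ℝ) ≠ 0 := by
    exact_mod_cast Fintype.card_ne_zero
  field_simp

theorem mean_eq_Ex {V Λ : Type} [Fintype V] [DecidableEq V] [Fintype Λ] [DecidableEq Λ]
    (f : (V → Λ) → ℝ) : C4M.mean f = Ex (α := fun _ : V => Λ) (unif V Λ) f := by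
  unfold C4M.mean Ex wt unif
  rw [Finset.sum_div]
  apply Finset.sum_congr rfl
  intro h _
  rw [Finset.prod_const, Finset.card_univ, one_div, inv_pow]
  rw [div_eq_mul_inv, mul_comm]

theorem Ex_unif_coord {V Λ : Type*} [Fintype V] [DecidableEq V] [Fintype Λ] [DecidableEq Λ]
    [Nonempty Λ] (u : V) (J : Finset Λ) :
    Pr (α := fun _ : V => Λ) (unif V Λ) {h | h u ∈ J} = J.card / (Fintype.card Λ : ℝ) := by
  classical
  have h1 : Pr (α := fun _ : V => Λ) (unif V Λ) {h | h u ∈ J} =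
      Ex (α := fun _ : V => Λ) (unif V Λ) (fun h => ∑ l ∈ J, if h u = l then (1 : ℝ) else 0) := by
    rw [Pr_eq_Ex]
    congr 1
    funext h
    rw [Finset.sum_ite_eq]
    simp only [Set.indicator_apply, Set.mem_ofPred_eq]
  rw [h1, Ex_sum]
  have h2 : ∀ l ∈ J, Ex (α := fun _ : V => Λ) (unif V Λ)
      (fun h => if h u = l then (1 : ℝ) else 0) = 1 / (Fintype.card Λ : ℝ) := by
    intro l _
    rw [Ex_coord (α := fun _ : V => Λ) unif_prob u l]
    rfl
  rw [Finset.sum_congr rfl h2, Finset.sum_const, nsmul_eq_mul]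
  ring

end Pool.Agent.LLLA
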