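import Pool.Agent.C4M.Stmts

/-!
# C4M : the order of revealing `jrk` = (stage, copy, index), and copies
-/

namespace Pool.Agent.C4M

open Finset

theorem jlow_lt {n P : ℕ} (j : Fin P × Fin n) : (j.1 : ℕ) * n + j.2 < P * n := by
  have h1 := j.1.2
  have h2 := j.2.2
  calc (j.1 : ℕ) * n + j.2 < (j.1 : ℕ) * n + n := by omega
    _ = ((j.1 : ℕ) + 1) * n := by ring
    _ ≤ P * n := Nat.mul_le_mul_right _ h1

theorem jrk_lt_of_st_lt {n P : ℕ} (S : Shape n) {i j : Fin P × Fin n}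
    (h : S.st i.2 < S.st j.2) : S.jrk P i < S.jrk P j := by
  unfold Shape.jrk
  have h1 := jlow_lt i
  have h2 : (S.st i.2 + 1) * (P * n) ≤ S.st j.2 * (P * n) := Nat.mul_le_mul_right _ h
  have h3 : (S.st i.2 + 1) * (P * n) = S.st i.2 * (P * n) + P * n := by ring
  omega

theorem jrk_lt_of_copy_lt {n P : ℕ} (S : Shape n) {i j : Fin P × Fin n}
    (h0 : S.st i.2 = S.st j.2) (h : i.1 < j.1) : S.jrk P i < S.jrk P j := by
  unfold Shape.jrk
  rw [h0]
  have h1 := i.2.2
  have h2 : ((i.1 : ℕ) + 1) * n ≤ j.1 * n := Nat.mul_le_mul_right _ h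
  have h3 : ((i.1 : ℕ) + 1) * n = (i.1 : ℕ) * n + n := by ring
  omega

theorem jrk_lt_of_ind_lt {n P : ℕ} (S : Shape n) {i j : Fin P × Fin n}
    (h0 : S.st i.2 = S.st j.2) (h1 : i.1 = j.1) (h : i.2 < j.2) : S.jrk P i < S.jrk P j := by
  unfold Shape.jrk
  rw [h0, h1]
  have : (i.2 : ℕ) < j.2 := h
  omega

/-- the order of revealing is lexicographic -/
theorem jrk_lt_iff {n P : ℕ} (S : Shape n) (i j : Fin P × Fin n) :
    S.jrk P i < S.jrk P j ↔ S.st i.2 < S.st j.2 ∨
      (S.st i.2 = S.st j.2 ∧ (i.1 < j.1 ∨ (i.1 = j.1 ∧ i.2 < j.2))) := by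
  constructor
  · intro h
    rcases lt_trichotomy (S.st i.2) (S.st j.2) with h1 | h1 | h1
    · exact Or.inl h1
    · right
      refine ⟨h1, ?_⟩
      rcases lt_trichotomy i.1 j.1 with h2 | h2 | h2
      · exact Or.inl h2
      · right
        refine ⟨h2, ?_⟩
        rcases lt_trichotomy i.2 j.2 with h3 | h3 | h3
        · exact h3
        · have : i = j := Prod.ext h2 h3
          rw [this] at h
          exact absurd h (lt_irrefl _)
        · exact absurd (jrk_lt_of_ind_lt S h1.symm h2.symm h3) (by omega)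
      · exact absurd (jrk_lt_of_copy_lt S h1.symm h2) (by omega)
    · exact absurd (jrk_lt_of_st_lt S h1) (by omega)
  · rintro (h | ⟨h1, h2 | ⟨h2, h3⟩⟩)
    · exact jrk_lt_of_st_lt S h
    · exact jrk_lt_of_copy_lt S h1 h2
    · exact jrk_lt_of_ind_lt S h1 h2 h3

theorem jrk_inj {n P : ℕ} (S : Shape n) : Function.Injective (S.jrk P) := by
  intro i j h
  by_contra hne
  rcases lt_trichotomy (S.st i.2) (S.st j.2) with h1 | h1 | h1
  · have := jrk_lt_of_st_lt S h1; omega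
  · rcases lt_trichotomy i.1 j.1 with h2 | h2 | h2
    · have := jrk_lt_of_copy_lt S h1 h2; omega
    · rcases lt_trichotomy i.2 j.2 with h3 | h3 | h3
      · have := jrk_lt_of_ind_lt S h1 h2 h3; omega
      · exact hne (Prod.ext h2 h3)
      · have := jrk_lt_of_ind_lt S h1.symm h2.symm h3; omega
    · have := jrk_lt_of_copy_lt S h1.symm h2; omega
  · have := jrk_lt_of_st_lt S h1; omega

theorem jpar_eq_some {n P : ℕ} {S : Shape n} {j i : Fin P × Fin n} :
    S.jpar P j = some i ↔ i.1 = j.1 ∧ S.par j.2 = some i.2 := by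
  unfold Shape.jpar
  rcases i with ⟨c, u⟩
  rcases j with ⟨d, t⟩
  simp only [Option.map_eq_some_iff, Prod.mk.injEq]
  constructor
  · rintro ⟨w, hw, h1, h2⟩
    subst h1 h2
    exact ⟨rfl, hw⟩
  · rintro ⟨h1, h2⟩
    exact ⟨u, h2, h1.symm, rfl⟩

theorem jpar_lt {n P : ℕ} {S : Shape n} (hok : S.Ok) {j i : Fin P × Fin n}
    (h : S.jpar P j = some i) : S.jrk P i < S.jrk P j := by
  rw [jpar_eq_some] at h
  have h1 := hok.par_lt _ _ h.2
  have h2 := hok.st_mono _ _ h1.le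
  rcases h2.lt_or_eq with h3 | h3
  · exact jrk_lt_of_st_lt S h3
  · exact jrk_lt_of_ind_lt S h3 h.1 h1

theorem jctr {n P : ℕ} {V : Type} (S : Shape n) (x : V) (v : Fin P × Fin n → V)
    (j : Fin P × Fin n) :
    ctr x (S.jpar P) v j = ctr x S.par (fun t => v (j.1, t)) j.2 := by
  unfold ctr Shape.jpar
  rw [Option.map_map]
  rfl

end Pool.Agent.C4M
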