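import Pool.Agent.C4M.Mkv

/-!
# C4M : POW, the expansion of the moment
-/

namespace Pool.Agent.C4M

open Finset

theorem mean_mono {V Λ : Type} [Fintype V] [DecidableEq V] [Fintype Λ]
    {f g : (V → Λ) → ℝ} (h : ∀ x, f x ≤ g x) : mean f ≤ mean g := by
  unfold mean
  apply div_le_div_of_nonneg_right (Finset.sum_le_sum fun x _ => h x)
  positivity

theorem pow_expand {V Λ : Type} [Fintype V] [DecidableEq V] {n q N : ℕ}
    (f : Fin q → Poly n V Λ) (h : V → Λ) :
    (∑ i, (f i).eval h) ^ N = ∑ v : Fin N × Fin n → V, ∑ i : Fin N → Fin q,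
      (∏ c, (f (i c)).coef fun t => v (c, t)) *
        ∏ j : Fin N × Fin n, (f (i j.1)).fn j.2 (h (v j)) := by
  rw [Fintype.sum_pow, Finset.sum_comm]
  apply Finset.sum_congr rfl
  intro i _
  unfold Poly.eval
  rw [Finset.prod_univ_sum, Fintype.piFinset_univ]
  rw [← (Equiv.curry (Fin N) (Fin n) V).sum_comp]
  apply Finset.sum_congr rfl
  intro v _
  rw [Finset.prod_mul_distrib, Fintype.prod_prod_type]
  rfl

theorem pow : POWStmt := by
  classical
  intro V Λ _ _ _ _ n p q S x nb s C0 B hs hC0 hq hM f hf W hW A hA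
  have hq0 : (0 : ℝ) < q := by exact_mod_cast hq
  have hC : 0 ≤ C0 / s ^ n := by positivity
  have h1 : mean (fun h : V → Λ => ((∑ i, (f i).eval h) / q) ^ (2 * p)) =
      (1 / (q : ℝ) ^ (2 * p)) * ∑ v : Fin (2 * p) × Fin n → V, ∑ i : Fin (2 * p) → Fin q,
        (∏ c, (f (i c)).coef fun t => v (c, t)) *
          mean (fun h : V → Λ =>
            ∏ j : Fin (2 * p) × Fin n, (f (i j.1)).fn j.2 (h (v j))) := by
    have e : (fun h : V → Λ => ((∑ i, (f i).eval h) / q) ^ (2 * p)) =
        fun h => (1 / (q : ℝ) ^ (2 * p)) * ∑ v : Fin (2 * p) × Fin n → V,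
          ∑ i : Fin (2 * p) → Fin q,
          (∏ c, (f (i c)).coef fun t => v (c, t)) *
            ∏ j : Fin (2 * p) × Fin n, (f (i j.1)).fn j.2 (h (v j)) := by
      funext h
      rw [div_pow, pow_expand]
      ring
    rw [e, mean_const_mul, mean_sum]
    congr 1
    apply Finset.sum_congr rfl
    intro v _
    rw [mean_sum]
    apply Finset.sum_congr rfl
    intro i _
    rw [mean_const_mul]
  rw [h1]
  have h2 : ∀ v : Fin (2 * p) × Fin n → V,
      ∑ i : Fin (2 * p) → Fin q, (∏ c, (f (i c)).coef fun t => v (c, t)) *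
          mean (fun h : V → Λ =>
            ∏ j : Fin (2 * p) × Fin n, (f (i j.1)).fn j.2 (h (v j))) ≤
      if JValid S x nb v then (C0 / s ^ n) ^ (2 * p) * W v else 0 := by
    intro v
    split_ifs with hv
    · have h3 : ∀ i : Fin (2 * p) → Fin q, (∏ c, (f (i c)).coef fun t => v (c, t)) *
          mean (fun h : V → Λ =>
            ∏ j : Fin (2 * p) × Fin n, (f (i j.1)).fn j.2 (h (v j))) ≤
          (C0 / s ^ n) ^ (2 * p) * |mean (fun h : V → Λ =>
            ∏ j : Fin (2 * p) × Fin n, (f (i j.1)).fn j.2 (h (v j)))| := by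
        intro i
        refine (le_abs_self _).trans ?_
        rw [abs_mul]
        apply mul_le_mul_of_nonneg_right _ (abs_nonneg _)
        rw [Finset.abs_prod]
        calc ∏ c : Fin (2 * p), |(f (i c)).coef fun t => v (c, t)| ≤
            ∏ c : Fin (2 * p), (C0 / s ^ n) := by
              apply Finset.prod_le_prod (fun _ _ => abs_nonneg _)
              intro c _
              exact (hf (i c)).coef_le _ (hv c)
          _ = (C0 / s ^ n) ^ (2 * p) := by
              rw [Finset.prod_const, Finset.card_univ, Fintype.card_fin]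
      calc _ ≤ ∑ i : Fin (2 * p) → Fin q, (C0 / s ^ n) ^ (2 * p) *
            |mean (fun h : V → Λ =>
              ∏ j : Fin (2 * p) × Fin n, (f (i j.1)).fn j.2 (h (v j)))| :=
            Finset.sum_le_sum fun i _ => h3 i
        _ ≤ (C0 / s ^ n) ^ (2 * p) * W v := by
            rw [← Finset.mul_sum]
            exact mul_le_mul_of_nonneg_left (hW v hv) (pow_nonneg hC _)
    · apply le_of_eq
      apply Finset.sum_eq_zero
      intro i _
      unfold JValid at hv
      push Not at hv
      obtain ⟨c, hc⟩ := hv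
      have : ∏ c, (f (i c)).coef (fun t => v (c, t)) = 0 :=
        Finset.prod_eq_zero (Finset.mem_univ c) ((hf (i c)).coef_zero _ hc)
      rw [this, zero_mul]
  have h4 : ∑ v : Fin (2 * p) × Fin n → V, (if JValid S x nb v then
      (C0 / s ^ n) ^ (2 * p) * W v else 0) ≤ (C0 / s ^ n) ^ (2 * p) * A := by
    rw [← Finset.sum_filter, ← Finset.mul_sum]
    apply mul_le_mul_of_nonneg_left _ (pow_nonneg hC _)
    apply hA
    intro v hv
    simpa using hv
  calc _ ≤ (1 / (q : ℝ) ^ (2 * p)) * ((C0 / s ^ n) ^ (2 * p) * A) := by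
        apply mul_le_mul_of_nonneg_left _ (by positivity)
        exact (Finset.sum_le_sum fun v _ => h2 v).trans h4
    _ = _ := by ring

end Pool.Agent.C4M
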