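import Pool.Agent.C4M.Ptw
import Pool.Agent.C4M.Pow
import Pool.Agent.C4M.Jrk

/-!
# C4M : MOM, BON, WIN
-/

namespace Pool.Agent.C4M

open Finset

/-- REV for `P` copies -/
theorem rev_copies (rev : REVStmt) {V : Type} [Fintype V] [DecidableEq V] {n P : ℕ}
    (S : Shape n) (hok : S.Ok) (x : V) {N : V → Finset V} (hN : IsNbd N)
    (nb : Fin n → V → Finset V) (hnb : ∀ t u, nb t u ⊆ N u)
    (cap : Fin n → ℝ) (s : ℝ) (hs : 1 ≤ s) (hcap : ∀ t, s ≤ cap t)
    (hcard : ∀ t u, ((nb t u).card : ℝ) ≤ cap t)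
    (X : Finset (Fin P × Fin n → V)) (hX : ∀ v ∈ X, JValid S x nb v) :
    ∑ v ∈ X, s ^ ((NF (S.jrk P) x v).card + (BB (S.jrk P) (S.jpar P) x v).card) ≤
      KREV (P * n) * (∏ t, cap t) ^ P := by
  have h := rev V (Fin P × Fin n) N hN (S.jrk P) (jrk_inj S) (S.jpar P)
    (fun j i hji => jpar_lt hok hji) x (fun j u => nb j.2 u) (fun j u => hnb j.2 u)
    (fun j => cap j.2) s hs (fun j => hcap j.2) (fun j u => hcard j.2 u)
  have e : ∏ j : Fin P × Fin n, cap j.2 = (∏ t, cap t) ^ P := by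
    rw [Fintype.prod_prod_type]
    simp
  rw [e, Fintype.card_prod, Fintype.card_fin, Fintype.card_fin] at h
  refine le_trans ?_ h
  apply Finset.sum_le_sum_of_subset_of_nonneg
  · intro v hv
    have hv' := hX v hv
    rw [Finset.mem_filter]
    refine ⟨Finset.mem_univ _, ?_, ?_⟩
    · intro j
      rw [jctr]
      exact (hv' j.1).mem j.2
    · intro j u hju
      rw [jctr]
      rw [jpar_eq_some] at hju
      have := (hv' j.1).grand j.2 u.2 hju.2
      rw [hju.1]
      exact this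
  · intro v _ _
    positivity

theorem KREV_nonneg (m : ℕ) : 0 ≤ KREV m := by
  unfold KREV; positivity

theorem nz_le {n : ℕ} (S : Shape n) : S.nz ≤ n := by
  unfold Shape.nz
  exact (Finset.card_le_univ _).trans (by simp)

theorem nf_le {n : ℕ} (S : Shape n) : S.nf ≤ n := by
  unfold Shape.nf
  exact (Finset.card_le_univ _).trans (by simp)

/-- assembly: from a pointwise bound to the moment -/
theorem asm (rev : REVStmt) {V Λ : Type} [Fintype V] [DecidableEq V] [Fintype Λ]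
    [DecidableEq Λ] {n p q : ℕ} (S : Shape n) (hok : S.Ok) (x : V)
    {N : V → Finset V} {nb : Fin n → V → Finset V} {cap : Fin n → ℝ} {s C0 B : ℝ}
    (hE : Env (Λ := Λ) N nb cap s) (hC0 : 0 ≤ C0) (hq : 1 ≤ q)
    (f : Fin q → Poly n V Λ) (hf : ∀ i, (f i).Adm S x nb s C0 B) (G : ℝ) (hG : 0 ≤ G)
    (hW : ∀ v, JValid S x nb v → ∑ i : Fin (2 * p) → Fin q,
      |mean (fun h : V → Λ => ∏ j : Fin (2 * p) × Fin n, (f (i j.1)).fn j.2 (h (v j)))| ≤
        G * s ^ ((NF (S.jrk (2 * p)) x v).card +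
          (BB (S.jrk (2 * p)) (S.jpar (2 * p)) x v).card)) :
    mean (fun h : V → Λ => ((∑ i, (f i).eval h) / q) ^ (2 * p)) ≤
      KREV (2 * p * n) * (C0 * ∏ t, cap t / s) ^ (2 * p) * G / (q : ℝ) ^ (2 * p) := by
  have hs1 : 1 ≤ s := hE.one_le.trans hE.le_s
  have hs0 : 0 < s := by linarith
  have hM : 1 ≤ Fintype.card Λ := by exact_mod_cast hE.one_le
  have h := pow V Λ n p q S x nb s C0 B hs0 hC0 hq hM f hf
    (fun v => G * s ^ ((NF (S.jrk (2 * p)) x v).card +
          (BB (S.jrk (2 * p)) (S.jpar (2 * p)) x v).card)) hW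
    (G * (KREV (2 * p * n) * (∏ t, cap t) ^ (2 * p))) (by
      intro X hX
      rw [← Finset.mul_sum]
      exact mul_le_mul_of_nonneg_left (rev_copies rev S hok x hE.nbd nb hE.sub cap s hs1
        hE.s_le hE.card_le X hX) hG)
  refine h.trans (le_of_eq ?_)
  have hsn : s ^ n ≠ 0 := (pow_pos hs0 n).ne'
  have e : ∏ t, cap t / s = (∏ t, cap t) / s ^ n := by
    rw [Finset.prod_div_distrib, Finset.prod_const, Finset.card_univ, Fintype.card_fin]
  rw [e]
  rw [div_pow C0, mul_pow, div_pow (∏ t, cap t)]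
  ring

theorem asm1 (rev : REVStmt) {V Λ : Type} [Fintype V] [DecidableEq V] [Fintype Λ]
    [DecidableEq Λ] {n p : ℕ} (S : Shape n) (hok : S.Ok) (x : V)
    {N : V → Finset V} {nb : Fin n → V → Finset V} {cap : Fin n → ℝ} {s C0 B : ℝ}
    (hE : Env (Λ := Λ) N nb cap s) (hC0 : 0 ≤ C0)
    (f : Poly n V Λ) (hf : f.Adm S x nb s C0 B) (G : ℝ) (hG : 0 ≤ G)
    (hW : ∀ v, JValid S x nb v →
      |mean (fun h : V → Λ => ∏ j : Fin (2 * p) × Fin n, f.fn j.2 (h (v j)))| ≤
        G * s ^ ((NF (S.jrk (2 * p)) x v).card +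
          (BB (S.jrk (2 * p)) (S.jpar (2 * p)) x v).card)) :
    mean (fun h : V → Λ => f.eval h ^ (2 * p)) ≤
      KREV (2 * p * n) * (C0 * ∏ t, cap t / s) ^ (2 * p) * G := by
  have h := asm (q := 1) (p := p) rev S hok x hE hC0 le_rfl (fun _ => f) (fun _ => hf) G hG
    (by
      intro v hv
      rw [Fintype.sum_unique]
      exact hW v hv)
  simpa using h

theorem mom (rev : REVStmt) (exb : EXBStmt) (num : NUMStmt) : MOMStmt := by
  intro n p B hB
  refine ⟨KREV (2 * p * n) * (2 ^ (2 * p * n) * (max 1 B) ^ (2 * p * n)), ?_, ?_⟩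
  · have := KREV_nonneg (2 * p * n)
    positivity
  intro V Λ _ _ _ _ S hok hphi x N nb cap s C0 hE hC0 f hf
  have hs1 : 1 ≤ s := hE.one_le.trans hE.le_s
  have hs0 : 0 < s := by linarith
  have hM : 1 ≤ Fintype.card Λ := by exact_mod_cast hE.one_le
  have hM0 : (0 : ℝ) < Fintype.card Λ := by linarith [hE.one_le]
  have h := asm1 (p := p) rev S hok x hE hC0 f hf
    (2 ^ (2 * p * S.nz) * B ^ (2 * p * S.nf) *
      ((Fintype.card Λ : ℝ) / s) ^ (p * (S.nz + 2 * S.nf))) (by positivity) (by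
      intro v hv
      have h1 := exb V Λ (Fin (2 * p) × Fin n) hM B hB (S.jkind (2 * p))
        (fun j => f.fn j.2) ⟨fun j hj => hf.fn.none j.2 hj, fun j hj => hf.fn.zeta j.2 hj,
          fun j hj => hf.fn.phi0 j.2 hj, fun j hj => hf.fn.phi j.2 hj⟩ v
      have h2 := ptw num V n p S hok hphi N hE.nbd x nb hE.sub v hv
        (Fintype.card Λ : ℝ) s B hE.one_le hE.le_s hB
      refine (h1.trans h2).trans (le_of_eq (by ring)))
  refine h.trans ?_
  have hK := KREV_nonneg (2 * p * n)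
  have hcap : 0 ≤ ∏ t, cap t / s :=
    Finset.prod_nonneg fun t _ => div_nonneg (hs0.le.trans (hE.s_le t)) hs0.le
  have h3 : (2 : ℝ) ^ (2 * p * S.nz) * B ^ (2 * p * S.nf) ≤
      2 ^ (2 * p * n) * (max 1 B) ^ (2 * p * n) := by
    apply mul_le_mul
    · exact pow_le_pow_right₀ (by norm_num) (Nat.mul_le_mul_left _ (nz_le S))
    · calc B ^ (2 * p * S.nf) ≤ (max 1 B) ^ (2 * p * S.nf) :=
            pow_le_pow_left₀ hB (le_max_right _ _) _
        _ ≤ (max 1 B) ^ (2 * p * n) :=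
            pow_le_pow_right₀ (le_max_left _ _) (Nat.mul_le_mul_left _ (nf_le S))
    · positivity
    · positivity
  calc KREV (2 * p * n) * (C0 * ∏ t, cap t / s) ^ (2 * p) *
        (2 ^ (2 * p * S.nz) * B ^ (2 * p * S.nf) *
          ((Fintype.card Λ : ℝ) / s) ^ (p * (S.nz + 2 * S.nf))) =
        (KREV (2 * p * n) * (C0 * ∏ t, cap t / s) ^ (2 * p) *
          ((Fintype.card Λ : ℝ) / s) ^ (p * (S.nz + 2 * S.nf))) *
        (2 ^ (2 * p * S.nz) * B ^ (2 * p * S.nf)) := by ring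
    _ ≤ (KREV (2 * p * n) * (C0 * ∏ t, cap t / s) ^ (2 * p) *
          ((Fintype.card Λ : ℝ) / s) ^ (p * (S.nz + 2 * S.nf))) *
        (2 ^ (2 * p * n) * (max 1 B) ^ (2 * p * n)) := by
        apply mul_le_mul_of_nonneg_left h3
        positivity
    _ = _ := by ring

theorem bon (rev : REVStmt) (exb : EXBStmt) (numb : NUMBStmt) (old' : OLDStmt) : BONStmt := by
  intro n p B hB
  refine ⟨KREV (2 * p * n) * (2 ^ (2 * p * n) * (max 1 B) ^ (2 * p * n)), ?_, ?_⟩
  · have := KREV_nonneg (2 * p * n)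
    positivity
  intro V Λ _ _ _ _ S hok hphi a ha x N nb cap s C0 hE hC0 f hf
  have hs1 : 1 ≤ s := hE.one_le.trans hE.le_s
  have hs0 : 0 < s := by linarith
  have hM : 1 ≤ Fintype.card Λ := by exact_mod_cast hE.one_le
  have hM0 : (0 : ℝ) < Fintype.card Λ := by linarith [hE.one_le]
  have h := asm1 (p := p) rev S hok x hE hC0 f hf
    (2 ^ (2 * p * S.nz) * B ^ (2 * p * S.nf) *
      ((Fintype.card Λ : ℝ) / s) ^ (p * (S.nz + 2 * S.nf)) / s ^ p) (by positivity) (by
      intro v hv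
      have h1 := exb V Λ (Fin (2 * p) × Fin n) hM B hB (S.jkind (2 * p))
        (fun j => f.fn j.2) ⟨fun j hj => hf.fn.none j.2 hj, fun j hj => hf.fn.zeta j.2 hj,
          fun j hj => hf.fn.phi0 j.2 hj, fun j hj => hf.fn.phi j.2 hj⟩ v
      have h2 := ptb numb old' V n p S hok hphi a ha N hE.nbd x nb hE.sub v hv
        (Fintype.card Λ : ℝ) s B hE.one_le hE.le_s hB
      refine (h1.trans h2).trans (le_of_eq (by ring)))
  refine h.trans ?_
  have hK := KREV_nonneg (2 * p * n)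
  have hcap : 0 ≤ ∏ t, cap t / s :=
    Finset.prod_nonneg fun t _ => div_nonneg (hs0.le.trans (hE.s_le t)) hs0.le
  have h3 : (2 : ℝ) ^ (2 * p * S.nz) * B ^ (2 * p * S.nf) ≤
      2 ^ (2 * p * n) * (max 1 B) ^ (2 * p * n) := by
    apply mul_le_mul
    · exact pow_le_pow_right₀ (by norm_num) (Nat.mul_le_mul_left _ (nz_le S))
    · calc B ^ (2 * p * S.nf) ≤ (max 1 B) ^ (2 * p * S.nf) :=
            pow_le_pow_left₀ hB (le_max_right _ _) _
        _ ≤ (max 1 B) ^ (2 * p * n) :=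
            pow_le_pow_right₀ (le_max_left _ _) (Nat.mul_le_mul_left _ (nf_le S))
    · positivity
    · positivity
  calc KREV (2 * p * n) * (C0 * ∏ t, cap t / s) ^ (2 * p) *
        (2 ^ (2 * p * S.nz) * B ^ (2 * p * S.nf) *
          ((Fintype.card Λ : ℝ) / s) ^ (p * (S.nz + 2 * S.nf)) / s ^ p) =
        (KREV (2 * p * n) * (C0 * ∏ t, cap t / s) ^ (2 * p) *
          ((Fintype.card Λ : ℝ) / s) ^ (p * (S.nz + 2 * S.nf)) / s ^ p) *
        (2 ^ (2 * p * S.nz) * B ^ (2 * p * S.nf)) := by ring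
    _ ≤ (KREV (2 * p * n) * (C0 * ∏ t, cap t / s) ^ (2 * p) *
          ((Fintype.card Λ : ℝ) / s) ^ (p * (S.nz + 2 * S.nf)) / s ^ p) *
        (2 ^ (2 * p * n) * (max 1 B) ^ (2 * p * n)) := by
        apply mul_le_mul_of_nonneg_left h3
        positivity
    _ = _ := by ring

theorem win (rev : REVStmt) (exw : EXWStmt) (numb : NUMBStmt) (old' : OLDStmt) : WINStmt := by
  intro n p
  refine ⟨KREV (2 * p * n) * 2 ^ (2 * p * 2), ?_, ?_⟩
  · have := KREV_nonneg (2 * p * n)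
    positivity
  intro V Λ _ _ _ _ S hok hphi a ha t1 t2 ht hkz x N nb hne cap s C0 hE hC0 q hq hqM f hf hl
  have hs1 : 1 ≤ s := hE.one_le.trans hE.le_s
  have hs0 : 0 < s := by linarith
  have hM0 : (0 : ℝ) < Fintype.card Λ := by linarith [hE.one_le]
  have hq0 : (0 : ℝ) < q := by exact_mod_cast hq
  have hnz : S.nz = 2 := by
    unfold Shape.nz
    have : (univ.filter fun t => S.kind t = Kind.zeta) = {t1, t2} := by
      ext t
      simp [hkz]
    rw [this, Finset.card_pair ht]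
  have hnf : S.nf = 0 := by
    unfold Shape.nf
    rw [Finset.card_eq_zero, Finset.filter_eq_empty_iff]
    intro t _
    exact (hphi t).1
  have h := asm (p := p) rev S hok x hE hC0 hq f hf
    ((q : ℝ) ^ p * (2 ^ (2 * p * 2) *
      ((Fintype.card Λ : ℝ) / s) ^ (2 * p) / s ^ p)) (by positivity) (by
      intro v hv
      have h1 := exw V Λ n p q hq hqM S.kind t1 t2 ht hkz (fun t => (hphi t).1) v
        (fun c => hne _ (hv c)) (fun i t => (f i).fn t)
        (fun i t hkt ℓ => (hf i).fn.none t hkt ℓ) hl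
      have h2 := ptb numb old' V n p S hok (Or.inl hphi) a ha N hE.nbd x nb hE.sub v hv
        (Fintype.card Λ : ℝ) s 0 hE.one_le hE.le_s le_rfl
      rw [hnz, hnf] at h2
      have h3 : (q : ℝ) ^ p * ∏ u, blk (Fintype.card Λ : ℝ) 0
          (cnt (fun j : Fin (2 * p) × Fin n => S.kind j.2) v Kind.zeta u)
          (cnt (fun j : Fin (2 * p) × Fin n => S.kind j.2) v Kind.phi u) ≤
          (q : ℝ) ^ p * (2 ^ (2 * p * 2) * 0 ^ (2 * p * 0) *
            s ^ ((NF (S.jrk (2 * p)) x v).card +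
              (BB (S.jrk (2 * p)) (S.jpar (2 * p)) x v).card) *
            ((Fintype.card Λ : ℝ) / s) ^ (p * (2 + 2 * 0)) / s ^ p) :=
        mul_le_mul_of_nonneg_left h2 (by positivity)
      refine (h1.trans h3).trans (le_of_eq ?_)
      have e : p * (2 + 2 * 0) = 2 * p := by ring
      rw [e, mul_zero, pow_zero]
      ring)
  refine h.trans (le_of_eq ?_)
  have e : (q : ℝ) ^ (2 * p) = (q : ℝ) ^ p * (q : ℝ) ^ p := by rw [← pow_add]; congr 1; ring
  rw [e]
  have hqp : (q : ℝ) ^ p ≠ 0 := (pow_pos hq0 p).ne'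
  field_simp

end Pool.Agent.C4M
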