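import Pool.Agent.C4M.Stmts

/-!
# C4M : BLK
-/

namespace Pool.Agent.C4M

open Finset

theorem sum_cnt {V J : Type} [Fintype V] [DecidableEq V] [Fintype J] (kind : J → Kind)
    (v : J → V) (k : Kind) :
    ∑ u, cnt kind v k u = (univ.filter fun j => kind j = k).card := by
  unfold cnt
  have h := Finset.card_eq_sum_card_fiberwise (f := v) (s := univ.filter fun j => kind j = k)
    (t := (univ : Finset V)) (fun _ _ => by simp)
  rw [h]
  apply Finset.sum_congr rfl
  intro u _
  congr 1
  ext j
  simp [and_comm]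

theorem card_jkind {n : ℕ} (S : Shape n) (P : ℕ) (k : Kind) :
    (univ.filter fun j : Fin P × Fin n => S.jkind P j = k).card =
      P * (univ.filter fun t => S.kind t = k).card := by
  have h : (univ.filter fun j : Fin P × Fin n => S.jkind P j = k) =
      (univ : Finset (Fin P)) ×ˢ (univ.filter fun t => S.kind t = k) := by
    ext ⟨c, t⟩
    simp [Shape.jkind]
  rw [h, Finset.card_product]
  simp

theorem blk_eq (M B : ℝ) (m q : ℕ) (h : m + q ≠ 1) :
    blk M B m q = 2 ^ m * M ^ (m - 1) * (B * M) ^ q := by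
  unfold blk
  rw [if_neg h]
  split_ifs with h0
  · subst h0; simp
  · rfl

theorem blkT : BLKStmt := by
  intro V _ _ n P S v hns
  have hz : ∑ u, cnt (S.jkind P) v Kind.zeta u = P * S.nz := by
    rw [sum_cnt, card_jkind]; rfl
  have hf : ∑ u, cnt (S.jkind P) v Kind.phi u = P * S.nf := by
    rw [sum_cnt, card_jkind]; rfl
  have hu1 : (u1 S v).card = ∑ u, if 1 ≤ cnt (S.jkind P) v Kind.zeta u then 1 else 0 := by
    unfold u1; rw [Finset.card_filter]
  have hu0 : (u0 S v).card = ∑ u, if cnt (S.jkind P) v Kind.zeta u = 0 ∧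
      1 ≤ cnt (S.jkind P) v Kind.phi u then 1 else 0 := by
    unfold u0; rw [Finset.card_filter]
  have hub : (ub S v).card = ∑ u, if cnt (S.jkind P) v Kind.zeta u = 1 then 1 else 0 := by
    unfold ub; rw [Finset.card_filter]
  refine ⟨?_, ?_, ?_⟩
  · intro M B hM hB
    have h1 : ∏ u, blk M B (cnt (S.jkind P) v Kind.zeta u)
        (cnt (S.jkind P) v Kind.phi u) =
        ∏ u, (2 ^ (cnt (S.jkind P) v Kind.zeta u) *
          M ^ (cnt (S.jkind P) v Kind.zeta u - 1) *
          (B * M) ^ (cnt (S.jkind P) v Kind.phi u)) := by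
      apply Finset.prod_congr rfl
      intro u _
      exact blk_eq M B _ _ (hns u)
    rw [h1, Finset.prod_mul_distrib, Finset.prod_mul_distrib, Finset.prod_pow_eq_pow_sum,
      Finset.prod_pow_eq_pow_sum, Finset.prod_pow_eq_pow_sum, hz, hf]
    have h2 : ∑ u, (cnt (S.jkind P) v Kind.zeta u - 1) = P * S.nz - (u1 S v).card := by
      have h3 : ∑ u, (cnt (S.jkind P) v Kind.zeta u - 1) + (u1 S v).card = P * S.nz := by
        rw [hu1, ← hz, ← Finset.sum_add_distrib]
        apply Finset.sum_congr rfl
        intro u _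
        split_ifs with h
        · omega
        · omega
      omega
    rw [h2]
  · rw [hu1, hub, ← hz, Finset.mul_sum, ← Finset.sum_add_distrib]
    apply Finset.sum_le_sum
    intro u _
    split_ifs <;> omega
  · rw [hu0, hub, ← hf, Finset.mul_sum, ← Finset.sum_add_distrib]
    apply Finset.sum_le_sum
    intro u _
    have := hns u
    split_ifs <;> omega

end Pool.Agent.C4M
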