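import Pool.Agent.C4M.Blk

/-!
# C4M : module EXW (window version of the block expectation)
-/

namespace Pool.Agent.C4M

open Finset

/-- a set of functions whose values outside `U` are determined by the earlier values -/
theorem card_le_of_determined {P q : ℕ} (A : Finset (Fin P → Fin q)) (U : Finset (Fin P))
    (h : ∀ i ∈ A, ∀ i' ∈ A, ∀ c, c ∉ U → (∀ c' < c, i c' = i' c') → i c = i' c) :
    A.card ≤ q ^ U.card := by
  classical
  have hinj : Set.InjOn (fun (i : Fin P → Fin q) (c : {c // c ∈ U}) => i c.1)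
      (A : Set (Fin P → Fin q)) := by
    intro i hi i' hi' he
    rw [mem_coe] at hi hi'
    have key : ∀ m : ℕ, ∀ c : Fin P, (c : ℕ) < m → i c = i' c := by
      intro m
      induction m with
      | zero => intro c hc; exact absurd hc (Nat.not_lt_zero _)
      | succ m ih =>
        intro c hc
        by_cases hcU : c ∈ U
        · exact congrFun he ⟨c, hcU⟩
        · apply h i hi i' hi' c hcU
          intro c' hc'
          apply ih
          have h1 : (c' : ℕ) < c := hc'
          omega
    funext c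
    exact key (P + 1) c (by have := c.2; omega)
  have h1 := card_le_card_of_injOn (t := (univ : Finset ({c // c ∈ U} → Fin q)))
    (fun (i : Fin P → Fin q) (c : {c // c ∈ U}) => i c.1) (fun _ _ => mem_univ _) hinj
  calc A.card ≤ (univ : Finset ({c // c ∈ U} → Fin q)).card := h1
    _ = q ^ U.card := by simp

/-- the average of a product of marks at one vertex -/
theorem block_le {Λ J : Type} [Fintype Λ] [DecidableEq Λ] [DecidableEq J]
    (hM : 1 ≤ Fintype.card Λ) (A : Finset J) (l : J → Λ) :
    |(∑ ℓ, ∏ j ∈ A, mark (l j) ℓ) / (Fintype.card Λ : ℝ)| ≤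
      ∑ S ∈ A.powerset, (Fintype.card Λ : ℝ) ^ (S.card - 1) *
        (if ∀ j ∈ S, ∀ j' ∈ S, l j = l j' then (1 : ℝ) else 0) := by
  set M : ℝ := (Fintype.card Λ : ℝ) with hMdef
  have hM1 : (1 : ℝ) ≤ M := by rw [hMdef]; exact_mod_cast hM
  have hM0 : (0 : ℝ) < M := by linarith
  rw [abs_div, abs_of_pos hM0, div_le_iff₀ hM0]
  have h1 : |∑ ℓ, ∏ j ∈ A, mark (l j) ℓ| ≤
      ∑ ℓ, ∏ j ∈ A, ((if ℓ = l j then M else 0) + 1) := by
    refine (abs_sum_le_sum_abs _ _).trans (sum_le_sum fun ℓ _ => ?_)
    rw [abs_prod]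
    refine prod_le_prod (fun j _ => abs_nonneg _) fun j _ => ?_
    unfold mark
    split_ifs
    · rw [abs_of_nonneg (by linarith)]; linarith
    · norm_num
  refine h1.trans ?_
  have h2 : ∀ ℓ : Λ, ∏ j ∈ A, ((if ℓ = l j then M else 0) + 1) =
      ∑ S ∈ A.powerset, ∏ j ∈ S, (if ℓ = l j then M else 0) := fun ℓ => prod_add_one _
  rw [sum_congr rfl fun ℓ _ => h2 ℓ, sum_comm, sum_mul]
  refine sum_le_sum fun S _ => ?_
  split_ifs with he
  · rcases S.eq_empty_or_nonempty with rfl | ⟨j0, hj0⟩
    · simp [hMdef]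
    · have h3 : ∀ ℓ : Λ, ∏ j ∈ S, (if ℓ = l j then M else 0) =
          if ℓ = l j0 then M ^ S.card else 0 := by
        intro ℓ
        split_ifs with hl
        · rw [prod_congr rfl (g := fun _ => M), prod_const]
          intro j hj
          rw [if_pos (hl.trans (he j0 hj0 j hj))]
        · apply prod_eq_zero hj0
          rw [if_neg hl]
      rw [sum_congr rfl fun ℓ _ => h3 ℓ]
      rw [sum_ite_eq' univ (l j0) fun _ => M ^ S.card, if_pos (mem_univ _)]
      have h4 : S.card = (S.card - 1) + 1 := by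
        have := card_pos.2 ⟨j0, hj0⟩; omega
      rw [mul_one]
      calc M ^ S.card = M ^ ((S.card - 1) + 1) := by rw [← h4]
        _ ≤ M ^ (S.card - 1) * M := by rw [pow_succ]
  · push Not at he
    obtain ⟨j, hj, j', hj', hne⟩ := he
    rw [mul_zero, zero_mul]
    apply le_of_eq
    apply sum_eq_zero
    intro ℓ _
    by_cases hl : ℓ = l j
    · apply prod_eq_zero hj'
      rw [if_neg (fun h => hne (hl.symm.trans h))]
    · apply prod_eq_zero hj
      rw [if_neg hl]

/-- numbers -/
theorem exw_num {M q : ℝ} (hq : 1 ≤ q) (hqM : q ≤ M) {D T U p : ℕ} (h1 : 2 * U + D ≤ 4 * p)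
    (h2 : 2 * p ≤ T) (h3 : D ≤ T) : M ^ D * q ^ U ≤ q ^ p * M ^ T := by
  have hM : 1 ≤ M := hq.trans hqM
  have hM0 : 0 ≤ M := by linarith
  have hq0 : 0 ≤ q := by linarith
  by_cases hU : U ≤ p
  · calc M ^ D * q ^ U ≤ M ^ T * q ^ p := by
          apply mul_le_mul
          · exact pow_le_pow_right₀ hM h3
          · exact pow_le_pow_right₀ hq hU
          · positivity
          · positivity
      _ = q ^ p * M ^ T := mul_comm _ _
  · obtain ⟨e, he⟩ : ∃ e, U = p + e := ⟨U - p, by omega⟩
    subst he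
    calc M ^ D * q ^ (p + e) = q ^ p * (q ^ e * M ^ D) := by rw [pow_add]; ring
      _ ≤ q ^ p * (M ^ e * M ^ D) := by
          apply mul_le_mul_of_nonneg_left _ (by positivity)
          apply mul_le_mul_of_nonneg_right _ (by positivity)
          exact pow_le_pow_left₀ hq0 hqM e
      _ = q ^ p * M ^ (e + D) := by rw [pow_add]
      _ ≤ q ^ p * M ^ T := by
          apply mul_le_mul_of_nonneg_left _ (by positivity)
          exact pow_le_pow_right₀ hM (by omega)

/-- undetermined copies -/
theorem exw_undet {V Λ : Type} [Fintype V] [DecidableEq V] [DecidableEq Λ] {n P q : ℕ}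
    (kind : Fin n → Kind) (t1 t2 : Fin n) (ht : t1 ≠ t2)
    (hz : ∀ t, kind t = Kind.zeta ↔ t = t1 ∨ t = t2)
    (v : Fin P × Fin n → V) (hv : ∀ c, v (c, t1) ≠ v (c, t2)) (lab : Fin n → Fin q → Λ)
    (hinj : ∀ t, kind t = Kind.zeta → Function.Injective (lab t))
    (S : V → Finset (Fin P × Fin n))
    (hS : ∀ u, ∀ j ∈ S u, v j = u ∧ kind j.2 = Kind.zeta) :
    ∃ U : ℕ, 2 * U + ∑ u, ((S u).card - 1) ≤ 2 * P ∧
      (univ.filter fun i : Fin P → Fin q => ∀ u, ∀ j ∈ S u, ∀ j' ∈ S u,
        lab j.2 (i j.1) = lab j'.2 (i j'.1)).card ≤ q ^ U := by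
  classical
  set Z : Finset (Fin P × Fin n) := univ.filter fun j => kind j.2 = Kind.zeta with hZ
  set DM : Finset (Fin P × Fin n) := Z.filter fun j => j ∈ S (v j) ∧
    ∃ j' ∈ S (v j), j'.1 < j.1 with hDM
  set Und : Finset (Fin P) := univ.filter fun c => (c, t1) ∉ DM ∧ (c, t2) ∉ DM with hUnd
  have hZcard : Z.card = 2 * P := by
    have h1 : Z = (univ : Finset (Fin P)) ×ˢ ({t1, t2} : Finset (Fin n)) := by
      ext ⟨c, t⟩
      simp only [hZ, mem_filter, mem_univ, true_and, mem_product, mem_insert, mem_singleton]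
      exact hz t
    rw [h1, card_product, card_pair ht]
    simp [mul_comm]
  have hmz : ∀ c t, t = t1 ∨ t = t2 → ((c, t) : Fin P × Fin n) ∈ Z := by
    intro c t h
    rw [hZ, mem_filter]
    exact ⟨mem_univ _, (hz t).2 h⟩
  -- distinct marks at one vertex are in distinct copies
  have hcopy : ∀ u, ∀ j ∈ S u, ∀ j' ∈ S u, j.1 = j'.1 → j = j' := by
    rintro u ⟨c, t⟩ hj ⟨c', t'⟩ hj' (he : c = c')
    subst he
    obtain ⟨h1, h2⟩ := hS u _ hj
    obtain ⟨h3, h4⟩ := hS u _ hj'
    have h5 := (hz t).1 h2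
    have h6 := (hz t').1 h4
    rcases h5 with h5 | h5 <;> rcases h6 with h6 | h6
    · rw [h5, h6]
    · rw [h5] at h1; rw [h6] at h3
      exact absurd (h1.trans h3.symm) (hv c)
    · rw [h5] at h1; rw [h6] at h3
      exact absurd (h3.trans h1.symm) (hv c)
    · rw [h5, h6]
  refine ⟨Und.card, ?_, ?_⟩
  · -- counting
    have hD : ∑ u, ((S u).card - 1) ≤ DM.card := by
      rw [card_eq_sum_card_fiberwise (f := v) (s := DM) (t := (univ : Finset V))
        (fun _ _ => by simp)]
      refine sum_le_sum fun u _ => ?_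
      have h1 : S u ⊆ (DM.filter fun j => v j = u) ∪ (S u \ DM) := by
        intro j hj
        rw [mem_union, mem_filter, mem_sdiff]
        by_cases hjD : j ∈ DM
        · exact Or.inl ⟨hjD, (hS u j hj).1⟩
        · exact Or.inr ⟨hj, hjD⟩
      have h2 : (S u \ DM).card ≤ 1 := by
        rw [card_le_one]
        intro j hj j' hj'
        rw [mem_sdiff] at hj hj'
        apply hcopy u j hj.1 j' hj'.1
        have hjz : j ∈ Z := by rw [hZ, mem_filter]; exact ⟨mem_univ _, (hS u j hj.1).2⟩
        have hjz' : j' ∈ Z := by rw [hZ, mem_filter]; exact ⟨mem_univ _, (hS u j' hj'.1).2⟩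
        rcases lt_trichotomy j.1 j'.1 with h | h | h
        · exfalso
          apply hj'.2
          rw [hDM, mem_filter]
          rw [(hS u j' hj'.1).1]
          exact ⟨hjz', hj'.1, j, hj.1, h⟩
        · exact h
        · exfalso
          apply hj.2
          rw [hDM, mem_filter]
          rw [(hS u j hj.1).1]
          exact ⟨hjz, hj.1, j', hj'.1, h⟩
      have h3 := card_le_card h1
      have h4 := card_union_le (DM.filter fun j => v j = u) (S u \ DM)
      omega
    have hU : 2 * Und.card + DM.card ≤ Z.card := by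
      have h1 : Und ×ˢ ({t1, t2} : Finset (Fin n)) ⊆ Z \ DM := by
        rintro ⟨c, t⟩ hct
        rw [mem_product, mem_insert, mem_singleton] at hct
        obtain ⟨hc, ht'⟩ := hct
        rw [mem_sdiff]
        refine ⟨hmz c t ht', ?_⟩
        have hc' := (mem_filter.1 hc).2
        rcases ht' with h | h
        · have h' : t = t1 := h
          rw [h']; exact hc'.1
        · have h' : t = t2 := h
          rw [h']; exact hc'.2
      have hDZ : DM ⊆ Z := filter_subset _ _
      have h2 := card_le_card h1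
      rw [card_product, card_pair ht, card_sdiff_of_subset hDZ] at h2
      have h3 : DM.card ≤ Z.card := card_le_card hDZ
      omega
    omega
  · -- determined copies
    apply card_le_of_determined
    intro i hi i' hi' c hc hprev
    rw [mem_filter] at hi hi'
    have h1 : ∃ t, (c, t) ∈ DM := by
      by_contra hno
      push Not at hno
      apply hc
      rw [hUnd, mem_filter]
      exact ⟨mem_univ _, hno t1, hno t2⟩
    obtain ⟨t, htD⟩ := h1
    rw [hDM, mem_filter] at htD
    obtain ⟨htZ, hjS, j', hj', hlt⟩ := htD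
    have hkt : kind t = Kind.zeta := (mem_filter.1 htZ).2
    have e1 := hi.2 (v (c, t)) (c, t) hjS j' hj'
    have e2 := hi'.2 (v (c, t)) (c, t) hjS j' hj'
    have e3 : i j'.1 = i' j'.1 := hprev j'.1 hlt
    rw [e3] at e1
    exact hinj t hkt (e1.trans e2.symm)

theorem sum_mark {Λ : Type} [Fintype Λ] [DecidableEq Λ] (l : Λ) : ∑ ℓ, mark l ℓ = 0 := by
  unfold mark
  rw [sum_sub_distrib, sum_ite_eq' univ l fun _ => (Fintype.card Λ : ℝ), if_pos (mem_univ _)]
  simp

theorem exw_blk_nonneg {M B : ℝ} (hM : 0 ≤ M) (hB : 0 ≤ B) (m q : ℕ) : 0 ≤ blk M B m q := by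
  unfold blk
  split_ifs
  · exact le_rfl
  · positivity
  · positivity

theorem exw (expT : EXPStmt) : EXWStmt := by
  intro V Λ _ _ _ _ n p q hq hqM kind t1 t2 ht hz hphi v hv φ hnone hzeta
  classical
  have hΛ : 1 ≤ Fintype.card Λ := le_trans hq hqM
  have : Nonempty Λ := Fintype.card_pos_iff.1 hΛ
  set M : ℝ := (Fintype.card Λ : ℝ) with hMdef
  have hM1 : (1 : ℝ) ≤ M := by rw [hMdef]; exact_mod_cast hΛ
  have hM0 : (0 : ℝ) ≤ M := by linarith
  have hlab0 : ∀ t, ∃ l : Fin q → Λ, kind t = Kind.zeta →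
      Function.Injective l ∧ ∀ i ℓ, φ i t ℓ = mark (l i) ℓ := by
    intro t
    by_cases h : kind t = Kind.zeta
    · obtain ⟨l, hl⟩ := hzeta t h
      exact ⟨l, fun _ => hl⟩
    · exact ⟨fun _ => Classical.arbitrary Λ, fun h' => absurd h' h⟩
  choose lab hlab using hlab0
  -- the marks at a vertex
  set Z : V → Finset (Fin (2 * p) × Fin n) :=
    fun u => univ.filter fun j => v j = u ∧ kind j.2 = Kind.zeta with hZ
  have hcz : ∀ u, cnt (fun j : Fin (2 * p) × Fin n => kind j.2) v Kind.zeta u = (Z u).card :=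
    fun u => rfl
  have hcf : ∀ u, cnt (fun j : Fin (2 * p) × Fin n => kind j.2) v Kind.phi u = 0 := by
    intro u
    unfold cnt
    rw [card_eq_zero, filter_eq_empty_iff]
    intro j _ h
    exact hphi j.2 h.2
  have hmean : ∀ i : Fin (2 * p) → Fin q,
      mean (fun h : V → Λ => ∏ j : Fin (2 * p) × Fin n, φ (i j.1) j.2 (h (v j))) =
        ∏ u, (∑ ℓ, ∏ j ∈ Z u, mark (lab j.2 (i j.1)) ℓ) / M := by
    intro i
    rw [expT V Λ (Fin (2 * p) × Fin n) hΛ (fun j ℓ => φ (i j.1) j.2 ℓ) v]
    refine prod_congr rfl fun u _ => ?_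
    congr 1
    refine sum_congr rfl fun ℓ _ => ?_
    have h1 : ∏ j ∈ Z u, mark (lab j.2 (i j.1)) ℓ = ∏ j ∈ Z u, φ (i j.1) j.2 ℓ := by
      refine prod_congr rfl fun j hj => ?_
      rw [hZ, mem_filter] at hj
      exact ((hlab j.2 hj.2.2).2 _ _).symm
    rw [h1]
    symm
    apply prod_subset
    · intro j hj
      rw [hZ, mem_filter] at hj
      rw [mem_filter]
      exact ⟨mem_univ _, hj.2.1⟩
    · intro j hj hjn
      rw [mem_filter] at hj
      have hk : kind j.2 = Kind.none := by
        rcases hkk : kind j.2 with _ | _ | _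
        · rfl
        · exfalso
          apply hjn
          rw [hZ, mem_filter]
          exact ⟨mem_univ _, hj.2, hkk⟩
        · exact absurd hkk (hphi j.2)
      exact hnone _ _ hk _
  by_cases h1 : ∃ u, (Z u).card = 1
  · obtain ⟨u, hu⟩ := h1
    obtain ⟨j, hj⟩ := card_eq_one.1 hu
    have h0 : ∀ i : Fin (2 * p) → Fin q,
        mean (fun h : V → Λ => ∏ j : Fin (2 * p) × Fin n, φ (i j.1) j.2 (h (v j))) = 0 := by
      intro i
      rw [hmean i]
      apply prod_eq_zero (mem_univ u)
      rw [hj]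
      simp only [prod_singleton]
      rw [sum_mark, zero_div]
    rw [sum_eq_zero fun i _ => by rw [h0 i, abs_zero]]
    apply mul_nonneg (by positivity)
    exact prod_nonneg fun u _ => exw_blk_nonneg hM0 le_rfl _ _
  · push Not at h1
    have hblk : ∀ u, blk M 0 (cnt (fun j : Fin (2 * p) × Fin n => kind j.2) v Kind.zeta u)
        (cnt (fun j : Fin (2 * p) × Fin n => kind j.2) v Kind.phi u) =
        2 ^ (Z u).card * M ^ ((Z u).card - 1) := by
      intro u
      rw [hcf u, hcz u, blk_eq _ _ _ _ (by rw [add_zero]; exact h1 u), pow_zero, mul_one]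
    rw [prod_congr rfl fun u _ => hblk u]
    -- sizes
    have hsum : ∑ u, (Z u).card = 2 * (2 * p) := by
      have e1 := sum_cnt (fun j : Fin (2 * p) × Fin n => kind j.2) v Kind.zeta
      have e2 := card_jkind (⟨fun _ => none, kind, fun _ => 0⟩ : Shape n) (2 * p) Kind.zeta
      have e3 : (univ.filter fun t => kind t = Kind.zeta) = ({t1, t2} : Finset (Fin n)) := by
        ext t
        rw [mem_filter, mem_insert, mem_singleton]
        simp only [mem_univ, true_and]
        exact hz t
      calc ∑ u, (Z u).card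
          = ∑ u, cnt (fun j : Fin (2 * p) × Fin n => kind j.2) v Kind.zeta u := rfl
        _ = (univ.filter fun j : Fin (2 * p) × Fin n => kind j.2 = Kind.zeta).card := e1
        _ = 2 * p * (univ.filter fun t => kind t = Kind.zeta).card := e2
        _ = 2 * (2 * p) := by rw [e3, card_pair ht]; ring
    have hT : 2 * p ≤ ∑ u, ((Z u).card - 1) := by
      have e4 : ∑ u, (Z u).card ≤ ∑ u, 2 * ((Z u).card - 1) := by
        refine sum_le_sum fun u _ => ?_
        have := h1 u
        omega
      rw [← mul_sum, hsum] at e4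
      omega
    calc ∑ i : Fin (2 * p) → Fin q,
          |mean (fun h : V → Λ => ∏ j : Fin (2 * p) × Fin n, φ (i j.1) j.2 (h (v j)))|
        ≤ ∑ i : Fin (2 * p) → Fin q, ∑ S ∈ Fintype.piFinset fun u => (Z u).powerset,
            ∏ u, (M ^ ((S u).card - 1) * (if ∀ j ∈ S u, ∀ j' ∈ S u,
              lab j.2 (i j.1) = lab j'.2 (i j'.1) then (1 : ℝ) else 0)) := by
          refine sum_le_sum fun i _ => ?_
          rw [hmean i, abs_prod]
          rw [← prod_univ_sum (fun u => (Z u).powerset) (fun u S =>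
            (M ^ (S.card - 1) * (if ∀ j ∈ S, ∀ j' ∈ S,
              lab j.2 (i j.1) = lab j'.2 (i j'.1) then (1 : ℝ) else 0)))]
          refine prod_le_prod (fun u _ => abs_nonneg _) fun u _ => ?_
          refine (block_le hΛ (Z u) fun j => lab j.2 (i j.1)).trans (le_of_eq ?_)
          refine sum_congr rfl fun S _ => ?_
          congr
      _ = ∑ S ∈ Fintype.piFinset fun u => (Z u).powerset, ∑ i : Fin (2 * p) → Fin q,
            ∏ u, (M ^ ((S u).card - 1) * (if ∀ j ∈ S u, ∀ j' ∈ S u,
              lab j.2 (i j.1) = lab j'.2 (i j'.1) then (1 : ℝ) else 0)) := sum_comm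
      _ ≤ ∑ S ∈ Fintype.piFinset fun u => (Z u).powerset,
            ((q : ℝ) ^ p * M ^ (∑ u, ((Z u).card - 1))) := by
          refine sum_le_sum fun S hS => ?_
          rw [Fintype.mem_piFinset] at hS
          have hS' : ∀ u, ∀ j ∈ S u, v j = u ∧ kind j.2 = Kind.zeta := by
            intro u j hj
            have := (mem_powerset.1 (hS u)) hj
            rw [hZ, mem_filter] at this
            exact this.2
          obtain ⟨U, hU1, hU2⟩ := exw_undet kind t1 t2 ht hz v hv lab
            (fun t ht' => (hlab t ht').1) S hS'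
          have e5 : ∀ i : Fin (2 * p) → Fin q, ∏ u, (M ^ ((S u).card - 1) *
              (if ∀ j ∈ S u, ∀ j' ∈ S u, lab j.2 (i j.1) = lab j'.2 (i j'.1)
                then (1 : ℝ) else 0)) =
              M ^ (∑ u, ((S u).card - 1)) * (if ∀ u, ∀ j ∈ S u, ∀ j' ∈ S u,
                lab j.2 (i j.1) = lab j'.2 (i j'.1) then (1 : ℝ) else 0) := by
            intro i
            rw [prod_mul_distrib, prod_pow_eq_pow_sum, prod_ite_zero]
            simp
          rw [sum_congr rfl fun i _ => e5 i, ← mul_sum, sum_boole]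
          have e6 : ((univ.filter fun i : Fin (2 * p) → Fin q => ∀ u, ∀ j ∈ S u, ∀ j' ∈ S u,
              lab j.2 (i j.1) = lab j'.2 (i j'.1)).card : ℝ) ≤ (q : ℝ) ^ U := by
            exact_mod_cast hU2
          refine (mul_le_mul_of_nonneg_left e6 (by positivity)).trans ?_
          have hq1 : (1 : ℝ) ≤ q := by exact_mod_cast hq
          have hqM' : (q : ℝ) ≤ M := by rw [hMdef]; exact_mod_cast hqM
          apply exw_num hq1 hqM' (by omega) hT
          refine sum_le_sum fun u _ => ?_
          have := card_le_card (mem_powerset.1 (hS u))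
          omega
      _ = (q : ℝ) ^ p * ∏ u, (2 ^ (Z u).card * M ^ ((Z u).card - 1)) := by
          rw [sum_const, Fintype.card_piFinset, nsmul_eq_mul, prod_mul_distrib,
            prod_pow_eq_pow_sum univ (fun u => (Z u).card - 1) M]
          simp only [card_powerset]
          push_cast
          ring

end Pool.Agent.C4M
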