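import Pool.Agent.C4M.Blk
import Pool.Agent.C4M.Jrk

/-!
# C4M : NUM and NUMB
-/

namespace Pool.Agent.C4M

open Finset

theorem mem_NF {V J : Type} [Fintype J] [DecidableEq V] {rk : J → ℕ} {x : V} {v : J → V}
    {j : J} : j ∈ NF rk x v ↔ v j = x ∨ ∃ i, rk i < rk j ∧ v i = v j := by
  unfold NF; simp

theorem mem_BB {V J : Type} [Fintype J] [DecidableEq J] [DecidableEq V] {rk : J → ℕ}
    {par : J → Option J} {x : V} {v : J → V} {j : J} : j ∈ BB rk par x v ↔ j ∉ NF rk x v ∧
    ∃ j', par j' = some j ∧ (v j' = x ∨ ∃ i, rk i < rk j ∧ v i = v j') := by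
  unfold BB; simp

/-- `v` is injective on fresh indices -/
theorem fresh_inj {V J : Type} [Fintype J] [DecidableEq V] {rk : J → ℕ}
    (hrk : Function.Injective rk) {x : V} {v : J → V} {i j : J} (hi : i ∉ NF rk x v)
    (hj : j ∉ NF rk x v) (h : v i = v j) : i = j := by
  by_contra hne
  rcases lt_trichotomy (rk i) (rk j) with h1 | h1 | h1
  · exact hj (mem_NF.2 (Or.inr ⟨i, h1, h⟩))
  · exact hne (hrk h1)
  · exact hi (mem_NF.2 (Or.inr ⟨j, h1, h.symm⟩))

theorem one_le_cnt {V J : Type} [Fintype J] [DecidableEq V] {kind : J → Kind} {v : J → V}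
    {k : Kind} {j : J} (h : kind j = k) : 1 ≤ cnt kind v k (v j) := by
  unfold cnt
  rw [Nat.one_le_iff_ne_zero, ← Nat.pos_iff_ne_zero, Finset.card_pos]
  exact ⟨j, by simp [h]⟩

/-- zeta marks are in stages ≤ 1 -/
theorem zeta_st {n : ℕ} {S : Shape n} (hphi : S.PhiOk) {t : Fin n}
    (h : S.kind t = Kind.zeta) : S.st t ≤ 1 := by
  rcases hphi with h1 | ⟨y, z, h1⟩
  · exact (h1 t).2
  · have h2 := h1.le2 t
    rcases Nat.lt_or_ge (S.st t) 2 with h3 | h3
    · omega
    · have h4 : S.st t = 2 := by omega
      rcases (h1.st_iff t).1 h4 with h5 | h5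
      · rw [h5, h1.ky] at h; cases h
      · rw [h5, h1.kz] at h; cases h

/-- fresh zeta marks -/
theorem fresh_zeta {V : Type} [Fintype V] [DecidableEq V] {n P : ℕ} (S : Shape n) (x : V)
    (v : Fin P × Fin n → V) :
    P * S.nz ≤ ((NF (S.jrk P) x v).filter fun j => S.jkind P j = Kind.zeta).card +
      (u1 S v).card := by
  have h0 : P * S.nz = (univ.filter fun j : Fin P × Fin n => S.jkind P j = Kind.zeta).card := by
    rw [card_jkind]; rfl
  have h1 : ((univ.filter fun j : Fin P × Fin n => S.jkind P j = Kind.zeta).filter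
      fun j => j ∉ NF (S.jrk P) x v).card ≤ (u1 S v).card := by
    apply Finset.card_le_card_of_injOn v
    · intro j hj
      simp only [Finset.coe_filter, Finset.mem_univ, true_and, Finset.mem_filter,
        Set.mem_ofPred_eq] at hj
      simp only [u1, Finset.coe_filter, Finset.mem_univ, true_and, Set.mem_ofPred_eq]
      exact one_le_cnt hj.1
    · intro i hi j hj h
      simp only [Finset.coe_filter, Finset.mem_univ, true_and, Finset.mem_filter,
        Set.mem_ofPred_eq] at hi hj
      exact fresh_inj (jrk_inj S) hi.2 hj.2 h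
  have h2 := Finset.card_filter_add_card_filter_not
    (s := univ.filter fun j : Fin P × Fin n => S.jkind P j = Kind.zeta)
    (fun j => j ∈ NF (S.jrk P) x v)
  have h3 : (univ.filter fun j : Fin P × Fin n => S.jkind P j = Kind.zeta).filter
      (fun j => j ∈ NF (S.jrk P) x v) =
      (NF (S.jrk P) x v).filter fun j => S.jkind P j = Kind.zeta := by
    ext j
    simp [and_comm]
  rw [h3] at h2
  omega

/-- fresh Phi marks -/
theorem fresh_phi {V : Type} [Fintype V] [DecidableEq V] {n P : ℕ} {S : Shape n}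
    (hphi : S.PhiOk) {y z : Fin n} (hyz : S.Phi y z) (x : V)
    (v : Fin P × Fin n → V) :
    P ≤ (univ.filter fun c : Fin P => (c, z) ∈ NF (S.jrk P) x v).card + (u0 S v).card := by
  have h1 : (univ.filter fun c : Fin P => ¬ (c, z) ∈ NF (S.jrk P) x v).card ≤
      (u0 S v).card := by
    apply Finset.card_le_card_of_injOn fun c => v (c, z)
    · intro c hc
      simp only [Finset.coe_filter, Finset.mem_univ, true_and, Set.mem_ofPred_eq] at hc
      simp only [u0, Finset.coe_filter, Finset.mem_univ, true_and, Set.mem_ofPred_eq]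
      refine ⟨?_, one_le_cnt (j := (c, z)) (by simp [Shape.jkind, hyz.kz])⟩
      by_contra hne
      have h2 : 0 < cnt (S.jkind P) v Kind.zeta (v (c, z)) := Nat.pos_of_ne_zero hne
      unfold cnt at h2
      rw [Finset.card_pos] at h2
      obtain ⟨i, hi⟩ := h2
      simp only [Finset.mem_filter, Finset.mem_univ, true_and] at hi
      apply hc
      rw [mem_NF]
      right
      refine ⟨i, ?_, hi.1⟩
      apply jrk_lt_of_st_lt
      have h3 := zeta_st hphi (t := i.2) hi.2
      have h4 : S.st z = 2 := (hyz.st_iff z).2 (Or.inr rfl)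
      show S.st i.2 < S.st z
      omega
    · intro c hc d hd h
      simp only [Finset.coe_filter, Finset.mem_univ, true_and, Set.mem_ofPred_eq] at hc hd
      have := fresh_inj (jrk_inj S) hc hd h
      exact (Prod.ext_iff.1 this).1
  have h2 := Finset.card_filter_add_card_filter_not (s := (univ : Finset (Fin P)))
    (fun c => (c, z) ∈ NF (S.jrk P) x v)
  rw [Finset.card_univ, Fintype.card_fin] at h2
  omega

theorem ne_par {V : Type} [DecidableEq V] {n P : ℕ} {S : Shape n} {N : V → Finset V}
    (hN : IsNbd N) {x : V} {nb : Fin n → V → Finset V} (hnb : ∀ t u, nb t u ⊆ N u)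
    {v : Fin P × Fin n → V} (hv : JValid S x nb v) (c : Fin P) {t u : Fin n}
    (h : S.par t = some u) : v (c, u) ≠ v (c, t) := by
  intro he
  have h1 := (hv c).mem t
  have h2 : ctr x S.par (fun t => v (c, t)) t = v (c, u) := by
    unfold ctr
    rw [h]; rfl
  rw [h2] at h1
  have h3 := hnb _ _ h1
  rw [he] at h3
  exact hN.irr _ h3

/-- the parent of a non-fresh Phi mark -/
theorem phi_parent {V : Type} [Fintype V] [DecidableEq V] {n P : ℕ} {S : Shape n}
    {y z : Fin n} (hyz : S.Phi y z) {N : V → Finset V} (hN : IsNbd N) {x : V}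
    {nb : Fin n → V → Finset V} (hnb : ∀ t u, nb t u ⊆ N u)
    {v : Fin P × Fin n → V} (hv : JValid S x nb v) (c : Fin P)
    (h : (c, z) ∈ NF (S.jrk P) x v) :
    (c, y) ∈ NF (S.jrk P) x v ∪ BB (S.jrk P) (S.jpar P) x v := by
  rw [Finset.mem_union]
  by_cases hy : (c, y) ∈ NF (S.jrk P) x v
  · exact Or.inl hy
  · right
    rw [mem_BB]
    refine ⟨hy, (c, z), jpar_eq_some.2 ⟨rfl, hyz.pz⟩, ?_⟩
    rcases mem_NF.1 h with h1 | ⟨i, h1, h2⟩
    · exact Or.inl h1
    · right
      refine ⟨i, ?_, h2⟩
      have hsz : S.st z = 2 := (hyz.st_iff z).2 (Or.inr rfl)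
      have hsy : S.st y = 2 := (hyz.st_iff y).2 (Or.inl rfl)
      rcases (jrk_lt_iff S _ _).1 h1 with h3 | ⟨h3, h4 | ⟨h4, h5⟩⟩
      · apply jrk_lt_of_st_lt
        show S.st i.2 < S.st y
        have h3' : S.st i.2 < S.st z := h3
        omega
      · apply jrk_lt_of_copy_lt
        · show S.st i.2 = S.st y
          have h3' : S.st i.2 = S.st z := h3
          omega
        · exact h4
      · exfalso
        have h3' : S.st i.2 = 2 := by
          have : S.st i.2 = S.st z := h3
          omega
        rcases (hyz.st_iff i.2).1 h3' with h6 | h6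
        · have : i = (c, y) := Prod.ext h4 h6
          rw [this] at h2
          exact ne_par hN hnb hv c hyz.pz h2
        · rw [h6] at h5
          exact lt_irrefl _ h5

/-- an old copy gives an additional element in stage 1 -/
theorem old_extra {V : Type} [Fintype V] [DecidableEq V] {n P : ℕ} {S : Shape n}
    {a : Fin n} (ha : S.Bon a) {N : V → Finset V} (hN : IsNbd N) {x : V}
    {nb : Fin n → V → Finset V} (hnb : ∀ t u, nb t u ⊆ N u) (hok : S.Ok)
    {v : Fin P × Fin n → V} (hv : JValid S x nb v) (c : Fin P) (h : c ∈ old S x v) :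
    ∃ t, S.st t = 1 ∧ (c, t) ∈ NF (S.jrk P) x v ∪ BB (S.jrk P) (S.jpar P) x v ∧
      ¬ ((c, t) ∈ NF (S.jrk P) x v ∧ S.kind t = Kind.zeta) := by
  classical
  unfold old at h
  simp only [Finset.mem_filter, Finset.mem_univ, true_and] at h
  -- the first such index
  let A : Finset (Fin n) := univ.filter fun t => S.st t = 1 ∧ (c, t) ∈ NF (S.jrk P) x v
  have hA : A.Nonempty := by
    obtain ⟨t, ht⟩ := h
    exact ⟨t, by simp [A, ht]⟩
  obtain ⟨t, htA, hmin⟩ := A.exists_min_image id hA
  have ht : S.st t = 1 ∧ (c, t) ∈ NF (S.jrk P) x v := by simpa [A] using htA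
  by_cases hta : t = a
  · refine ⟨t, ht.1, Finset.mem_union_left _ ht.2, ?_⟩
    rintro ⟨_, h2⟩
    rw [hta, ha.kind_a] at h2
    cases h2
  · obtain ⟨u, hu, hsu⟩ := ha.par1 t ht.1 hta
    have hut := hok.par_lt _ _ hu
    have huNF : (c, u) ∉ NF (S.jrk P) x v := by
      intro hcon
      have := hmin u (by simp [A, hsu, hcon])
      exact absurd hut (not_lt.2 this)
    refine ⟨u, hsu, Finset.mem_union_right _ ?_, fun hcon => huNF hcon.1⟩
    rw [mem_BB]
    refine ⟨huNF, (c, t), jpar_eq_some.2 ⟨rfl, hu⟩, ?_⟩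
    rcases mem_NF.1 ht.2 with h1 | ⟨i, h1, h2⟩
    · exact Or.inl h1
    · right
      refine ⟨i, ?_, h2⟩
      rcases (jrk_lt_iff S _ _).1 h1 with h3 | ⟨h3, h4 | ⟨h4, h5⟩⟩
      · apply jrk_lt_of_st_lt
        show S.st i.2 < S.st u
        have h3' : S.st i.2 < S.st t := h3
        omega
      · apply jrk_lt_of_copy_lt
        · show S.st i.2 = S.st u
          have h3' : S.st i.2 = S.st t := h3
          omega
        · exact h4
      · have h3' : S.st i.2 = 1 := by
          have : S.st i.2 = S.st t := h3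
          omega
        rcases lt_trichotomy i.2 u with h6 | h6 | h6
        · apply jrk_lt_of_ind_lt
          · show S.st i.2 = S.st u
            omega
          · exact h4
          · exact h6
        · exfalso
          have : i = (c, u) := Prod.ext h4 h6
          rw [this] at h2
          exact ne_par hN hnb hv c hu h2
        · exfalso
          have h7 := ha.df t u i.2 ht.1 hsu hu h6 h5
          have h8 : i = (c, i.2) := Prod.ext h4 rfl
          rw [h8] at h2
          exact (hv c).sib i.2 t (ne_of_lt h5) (by rw [h7, hu]) h2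

/-- the core of NUM and NUMB -/
theorem num_core {V : Type} [Fintype V] [DecidableEq V] {n P : ℕ} {S : Shape n}
    (hphi : S.PhiOk) {N : V → Finset V} (hN : IsNbd N) {x : V}
    {nb : Fin n → V → Finset V} (hnb : ∀ t u, nb t u ⊆ N u)
    {v : Fin P × Fin n → V} (hv : JValid S x nb v) (o : ℕ)
    (ho : o ≤ ((NF (S.jrk P) x v ∪ BB (S.jrk P) (S.jpar P) x v).filter fun j =>
      S.st j.2 = 1 ∧ ¬ (j ∈ NF (S.jrk P) x v ∧ S.jkind P j = Kind.zeta)).card) :
    P * S.nz + 2 * (P * S.nf) + o ≤ (NF (S.jrk P) x v).card +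
      (BB (S.jrk P) (S.jpar P) x v).card + (u1 S v).card + 2 * (u0 S v).card := by
  classical
  set NB := NF (S.jrk P) x v ∪ BB (S.jrk P) (S.jpar P) x v with hNB
  set A1 := (NF (S.jrk P) x v).filter fun j => S.jkind P j = Kind.zeta with hA1
  set A2 := NB.filter fun j => S.st j.2 = 2 with hA2
  set A3 := NB.filter fun j =>
      S.st j.2 = 1 ∧ ¬ (j ∈ NF (S.jrk P) x v ∧ S.jkind P j = Kind.zeta) with hA3
  have h1 : P * S.nz ≤ A1.card + (u1 S v).card := fresh_zeta S x v
  have h2 : 2 * (P * S.nf) ≤ A2.card + 2 * (u0 S v).card := by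
    rcases hphi with hno | ⟨y, z, hyz⟩
    · have : S.nf = 0 := by
        unfold Shape.nf
        rw [Finset.card_eq_zero, Finset.filter_eq_empty_iff]
        intro t _
        exact (hno t).1
      rw [this]; simp
    · have hnf : S.nf = 1 := by
        unfold Shape.nf
        rw [Finset.card_eq_one]
        refine ⟨z, ?_⟩
        ext t
        simp only [Finset.mem_filter, Finset.mem_univ, true_and, Finset.mem_singleton]
        exact ⟨fun h => hyz.uniq t h, fun h => by rw [h, hyz.kz]⟩
      have h3 := fresh_phi (Or.inr ⟨y, z, hyz⟩) hyz x v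
      have h4 : 2 * (univ.filter fun c : Fin P => (c, z) ∈ NF (S.jrk P) x v).card ≤
          A2.card := by
        have hyz' : y ≠ z := by
          intro h
          have := hyz.ky
          rw [h, hyz.kz] at this
          cases this
        have h5 : ((univ.filter fun c : Fin P => (c, z) ∈ NF (S.jrk P) x v) ×ˢ
            ({y, z} : Finset (Fin n))) ⊆ A2 := by
          rintro ⟨c, t⟩ hct
          simp only [Finset.mem_product, Finset.mem_filter, Finset.mem_univ, true_and,
            Finset.mem_insert, Finset.mem_singleton] at hct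
          obtain ⟨hc, ht⟩ := hct
          simp only [hA2, Finset.mem_filter]
          refine ⟨?_, (hyz.st_iff t).2 ht⟩
          rcases ht with rfl | rfl
          · exact phi_parent hyz hN hnb hv c hc
          · exact Finset.mem_union_left _ hc
        have h6 := Finset.card_le_card h5
        rw [Finset.card_product, Finset.card_pair hyz'] at h6
        omega
      rw [hnf]
      omega
  have hsub : A1 ∪ A2 ∪ A3 ⊆ NB := by
    apply Finset.union_subset (Finset.union_subset _ _)
    · exact Finset.filter_subset _ _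
    · intro j hj
      exact Finset.mem_union_left _ (Finset.mem_filter.1 hj).1
    · exact Finset.filter_subset _ _
  have hd12 : Disjoint A1 A2 := by
    rw [Finset.disjoint_left]
    intro j hj1 hj2
    have h3 := (Finset.mem_filter.1 hj1).2
    have h4 := (Finset.mem_filter.1 hj2).2
    have h5 : S.st j.2 ≤ 1 := zeta_st hphi h3
    omega
  have hd3 : Disjoint (A1 ∪ A2) A3 := by
    rw [Finset.disjoint_left]
    intro j hj1 hj2
    have h4 := (Finset.mem_filter.1 hj2).2
    rcases Finset.mem_union.1 hj1 with h5 | h5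
    · have h6 := Finset.mem_filter.1 h5
      exact h4.2 ⟨h6.1, h6.2⟩
    · have h6 := (Finset.mem_filter.1 h5).2
      omega
  have h7 : A1.card + A2.card + A3.card ≤ NB.card := by
    rw [← Finset.card_union_of_disjoint hd12, ← Finset.card_union_of_disjoint hd3]
    exact Finset.card_le_card hsub
  have h8 : NB.card ≤ (NF (S.jrk P) x v).card + (BB (S.jrk P) (S.jpar P) x v).card :=
    Finset.card_union_le _ _
  omega

theorem num : NUMStmt := by
  intro V _ _ n P S hok hphi N hN x nb hnb v hv
  have := num_core hphi hN hnb hv 0 (Nat.zero_le _)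
  omega

theorem numb : NUMBStmt := by
  classical
  intro V _ _ n P S hok hphi a ha N hN x nb hnb v hv
  apply num_core hphi hN hnb hv
  have h1 : old S x v ⊆ ((NF (S.jrk P) x v ∪ BB (S.jrk P) (S.jpar P) x v).filter fun j =>
      S.st j.2 = 1 ∧ ¬ (j ∈ NF (S.jrk P) x v ∧ S.jkind P j = Kind.zeta)).image
        Prod.fst := by
    intro c hc
    obtain ⟨t, h2, h3, h4⟩ := old_extra ha hN hnb hok hv c hc
    rw [Finset.mem_image]
    refine ⟨(c, t), ?_, rfl⟩
    rw [Finset.mem_filter]
    exact ⟨h3, h2, h4⟩
  exact (Finset.card_le_card h1).trans Finset.card_image_le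

end Pool.Agent.C4M
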