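import Pool.Agent.C4M.Jrk

/-!
# C4M : module OLD (new copies are matched by old copies)
-/

namespace Pool.Agent.C4M

open Finset

/-- zeta marks are in the stages `≤ 1` -/
theorem st_zeta_le {n : ℕ} {S : Shape n} (hphi : S.PhiOk) {t : Fin n}
    (h : S.kind t = Kind.zeta) : S.st t ≤ 1 := by
  rcases hphi with h0 | ⟨y, z, hp⟩
  · exact (h0 t).2
  · by_contra h1
    have h2 : S.st t = 2 := by have := hp.le2 t; omega
    rcases (hp.st_iff t).1 h2 with h3 | h3
    · rw [h3, hp.ky] at h
      exact absurd h (by decide)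
    · rw [h3, hp.kz] at h
      exact absurd h (by decide)

theorem oldT : OLDStmt := by
  intro V _ _ n P S hok hphi x v _
  classical
  set Z1 : Finset (Fin n) := univ.filter fun t => S.kind t = Kind.zeta ∧ S.st t = 1 with hZ1
  have hnz : S.nz1 = Z1.card := rfl
  set O := old S x v with hO
  -- the stage 1 zeta indices of the old and of the new copies
  have hold : (O ×ˢ Z1).card = O.card * Z1.card := card_product _ _
  have hnew : (Oᶜ ×ˢ Z1).card = Oᶜ.card * Z1.card := card_product _ _
  have hfresh : ∀ j ∈ Oᶜ ×ˢ Z1, ∀ i, S.jrk P i < S.jrk P j → v i ≠ v j := by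
    intro j hj i hi he
    rw [mem_product, mem_compl] at hj
    apply hj.1
    rw [hO, old, mem_filter]
    refine ⟨mem_univ _, j.2, ((mem_filter.1 hj.2).2).2, ?_⟩
    rw [NF, mem_filter]
    exact ⟨mem_univ _, Or.inr ⟨i, hi, he⟩⟩
  have hinj : Set.InjOn v ((Oᶜ ×ˢ Z1 : Finset (Fin P × Fin n)) : Set (Fin P × Fin n)) := by
    intro i hi j hj he
    rw [mem_coe] at hi hj
    by_contra hne
    rcases lt_trichotomy (S.jrk P i) (S.jrk P j) with h | h | h
    · exact hfresh j hj i h he
    · exact hne (jrk_inj S h)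
    · exact hfresh i hi j h he.symm
  have hsub : (Oᶜ ×ˢ Z1).image v ⊆ ub S v ∪ (O ×ˢ Z1).image v := by
    intro u hu
    obtain ⟨j, hj, rfl⟩ := mem_image.1 hu
    rw [mem_union]
    have hj' := hj
    rw [mem_product, mem_compl] at hj'
    have hjz := (mem_filter.1 hj'.2).2
    have hjm : j ∈ univ.filter fun i : Fin P × Fin n => v i = v j ∧ S.jkind P i = Kind.zeta := by
      rw [mem_filter]
      exact ⟨mem_univ _, rfl, hjz.1⟩
    by_cases h1 : cnt (S.jkind P) v Kind.zeta (v j) = 1
    · left
      rw [ub, mem_filter]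
      exact ⟨mem_univ _, h1⟩
    · right
      have h2 : 1 < (univ.filter fun i : Fin P × Fin n =>
          v i = v j ∧ S.jkind P i = Kind.zeta).card := by
        have h3 : 0 < (univ.filter fun i : Fin P × Fin n =>
          v i = v j ∧ S.jkind P i = Kind.zeta).card := card_pos.2 ⟨j, hjm⟩
        have h4 : (univ.filter fun i : Fin P × Fin n =>
          v i = v j ∧ S.jkind P i = Kind.zeta).card ≠ 1 := h1
        omega
      obtain ⟨i, hi, hij⟩ := exists_mem_ne h2 j
      rw [mem_filter] at hi
      obtain ⟨-, hvi, hki⟩ := hi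
      have hki' : S.kind i.2 = Kind.zeta := hki
      have hlt : S.jrk P j < S.jrk P i := by
        rcases lt_trichotomy (S.jrk P i) (S.jrk P j) with h | h | h
        · exact absurd hvi (hfresh j hj i h)
        · exact absurd (jrk_inj S h) hij
        · exact h
      have hst : S.st i.2 = 1 := by
        have h5 := st_zeta_le hphi hki'
        have h6 := (jrk_lt_iff S j i).1 hlt
        have h7 := hjz.2
        rcases h6 with h6 | ⟨h6, -⟩
        · omega
        · omega
      rw [mem_image]
      refine ⟨i, ?_, hvi⟩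
      rw [mem_product]
      constructor
      · rw [hO, old, mem_filter]
        refine ⟨mem_univ _, i.2, hst, ?_⟩
        rw [NF, mem_filter]
        exact ⟨mem_univ _, Or.inr ⟨j, hlt, hvi.symm⟩⟩
      · rw [hZ1, mem_filter]
        exact ⟨mem_univ _, hki', hst⟩
  have hle : (Oᶜ ×ˢ Z1).card ≤ (ub S v).card + (O ×ˢ Z1).card := by
    calc (Oᶜ ×ˢ Z1).card = ((Oᶜ ×ˢ Z1).image v).card := (card_image_of_injOn hinj).symm
      _ ≤ (ub S v ∪ (O ×ˢ Z1).image v).card := card_le_card hsub
      _ ≤ (ub S v).card + ((O ×ˢ Z1).image v).card := card_union_le _ _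
      _ ≤ (ub S v).card + (O ×ˢ Z1).card := Nat.add_le_add_left card_image_le _
  have hcomp : Oᶜ.card + O.card = P := by
    rw [card_compl, Fintype.card_fin]
    have : O.card ≤ P := by
      calc O.card ≤ (univ : Finset (Fin P)).card := card_le_card (subset_univ _)
        _ = P := by simp
    omega
  rw [hold, hnew] at hle
  rw [hnz]
  calc P * Z1.card = (Oᶜ.card + O.card) * Z1.card := by rw [hcomp]
    _ = Oᶜ.card * Z1.card + O.card * Z1.card := by ring
    _ ≤ (ub S v).card + O.card * Z1.card + O.card * Z1.card := Nat.add_le_add_right hle _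
    _ = 2 * (Z1.card * O.card) + (ub S v).card := by ring

end Pool.Agent.C4M
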