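import Pool.Agent.C4M.Asm
import Pool.Agent.C4M.Num
import Pool.Agent.C4M.Old
import Pool.Agent.Helper58_C4.Stm

/-!
# C4M : the moment theorems MOM, BON, WIN without hypotheses
-/

namespace Pool.Agent.C4M

theorem momT : MOMStmt := mom H58.revS H58.exbS num

theorem bonT : BONStmt := bon H58.revS H58.exbS numb oldT

theorem winT : WINStmt := win H58.revS H58.exwS numb oldT

end Pool.Agent.C4M
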