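import Mathlib

/-!
# Lopsided local lemma for stopping sets on finite product spaces, Mecke's formula

`Ω = ∀ w, α w` with the product of the weights `q w : α w → ℝ`.  A family of bad events `A v`,
each with a stopping set `R v ω` of variables that are read.  Two readings are neighbours only if
they DISAGREE on a variable which both have read.
-/

set_option linter.unusedSectionVars false

namespace Pool.Agent.LLLA

open Finset

variable {W : Type*} [Fintype W] [DecidableEq W] {α : W → Type*} [∀ w, Fintype (α w)]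
  [∀ w, DecidableEq (α w)]

/-- a probability on every coordinate -/
structure IsProb (q : ∀ w, α w → ℝ) : Prop where
  nonneg : ∀ w a, 0 ≤ q w a
  sum_one : ∀ w, ∑ a, q w a = 1

/-- product weight -/
def wt (q : ∀ w, α w → ℝ) (ω : ∀ w, α w) : ℝ := ∏ w, q w (ω w)

/-- expectation -/
def Ex (q : ∀ w, α w → ℝ) (f : (∀ w, α w) → ℝ) : ℝ := ∑ ω, wt q ω * f ω

/-- probability of a set -/
noncomputable def Pr (q : ∀ w, α w → ℝ) (X : Set (∀ w, α w)) : ℝ :=
  ∑ ω, X.indicator (wt q) ω

theorem wt_nonneg {q : ∀ w, α w → ℝ} (hq : IsProb q) (ω : ∀ w, α w) : 0 ≤ wt q ω :=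
  Finset.prod_nonneg fun w _ => hq.nonneg w _

theorem sum_wt {q : ∀ w, α w → ℝ} (hq : IsProb q) : ∑ ω, wt q ω = 1 := by
  unfold wt
  have h := Finset.prod_univ_sum (fun w => (univ : Finset (α w))) (fun w a => q w a)
  rw [Fintype.piFinset_univ] at h
  rw [← h]
  exact Finset.prod_eq_one fun w _ => hq.sum_one w

theorem Pr_nonneg {q : ∀ w, α w → ℝ} (hq : IsProb q) (X : Set (∀ w, α w)) : 0 ≤ Pr q X :=
  Finset.sum_nonneg fun ω _ => Set.indicator_nonneg (fun ω _ => wt_nonneg hq ω) ω

theorem Pr_univ {q : ∀ w, α w → ℝ} (hq : IsProb q) : Pr q Set.univ = 1 := by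
  unfold Pr
  simp [sum_wt hq]

theorem Pr_mono {q : ∀ w, α w → ℝ} (hq : IsProb q) {X Y : Set (∀ w, α w)} (h : X ⊆ Y) :
    Pr q X ≤ Pr q Y := by
  unfold Pr
  apply Finset.sum_le_sum
  intro ω _
  exact Set.indicator_le_indicator_of_subset h (fun ω => wt_nonneg hq ω) ω

theorem Pr_union_le {q : ∀ w, α w → ℝ} (hq : IsProb q) (X Y : Set (∀ w, α w)) :
    Pr q (X ∪ Y) ≤ Pr q X + Pr q Y := by
  classical
  unfold Pr
  rw [← Finset.sum_add_distrib]
  apply Finset.sum_le_sum
  intro ω _
  have := wt_nonneg hq ω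
  simp only [Set.indicator_apply, Set.mem_union]
  by_cases h1 : ω ∈ X <;> by_cases h2 : ω ∈ Y <;> simp [h1, h2, this]

theorem Pr_inter_add_diff (q : ∀ w, α w → ℝ) (X Y : Set (∀ w, α w)) :
    Pr q (X ∩ Y) + Pr q (X \ Y) = Pr q X := by
  classical
  unfold Pr
  rw [← Finset.sum_add_distrib]
  apply Finset.sum_congr rfl
  intro ω _
  simp only [Set.indicator_apply, Set.mem_inter_iff, Set.mem_sdiff]
  by_cases h1 : ω ∈ X <;> by_cases h2 : ω ∈ Y <;> simp [h1, h2]

/-! ## the swap -/

/-- `ω` on `R`, `η` elsewhere -/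
def mix (R : Finset W) (ω η : ∀ w, α w) : ∀ w, α w := fun w => if w ∈ R then ω w else η w

/-- the swap of the coordinates outside `R` -/
def swapE (R : Finset W) : ((∀ w, α w) × (∀ w, α w)) ≃ ((∀ w, α w) × (∀ w, α w)) where
  toFun x := (mix R x.1 x.2, mix R x.2 x.1)
  invFun x := (mix R x.1 x.2, mix R x.2 x.1)
  left_inv x := by
    ext w <;> simp only [mix] <;> split_ifs <;> rfl
  right_inv x := by
    ext w <;> simp only [mix] <;> split_ifs <;> rfl

theorem wt_mix (q : ∀ w, α w → ℝ) (R : Finset W) (ω η : ∀ w, α w) :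
    wt q (mix R ω η) * wt q (mix R η ω) = wt q ω * wt q η := by
  unfold wt
  rw [← Finset.prod_mul_distrib, ← Finset.prod_mul_distrib]
  apply Finset.prod_congr rfl
  intro w _
  simp only [mix]
  split_ifs
  · rfl
  · ring

/-- independence of functions of disjoint sets of coordinates -/
theorem Ex_mul {q : ∀ w, α w → ℝ} (hq : IsProb q) (R : Finset W)
    (f g : (∀ w, α w) → ℝ) (hf : ∀ ω η, f (mix R ω η) = f ω)
    (hg : ∀ ω η, g (mix R ω η) = g η) :
    Ex q (fun ω => f ω * g ω) = Ex q f * Ex q g := by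
  have h1 : Ex q f * Ex q g = ∑ x : (∀ w, α w) × (∀ w, α w),
      (wt q x.1 * wt q x.2) * (f x.1 * g x.2) := by
    unfold Ex
    rw [Finset.sum_mul_sum, Fintype.sum_prod_type]
    apply Finset.sum_congr rfl
    intro ω _
    apply Finset.sum_congr rfl
    intro η _
    ring
  have h2 : Ex q (fun ω => f ω * g ω) = ∑ x : (∀ w, α w) × (∀ w, α w),
      (wt q x.1 * wt q x.2) * (f x.1 * g x.1) := by
    unfold Ex
    rw [Fintype.sum_prod_type]
    apply Finset.sum_congr rfl
    intro ω _
    have : ∑ η : ∀ w, α w, (wt q ω * wt q η) * (f ω * g ω) =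
        (wt q ω * (f ω * g ω)) * ∑ η : ∀ w, α w, wt q η := by
      rw [Finset.mul_sum]
      apply Finset.sum_congr rfl
      intro η _
      ring
    rw [this, sum_wt hq, mul_one]
  rw [h1, h2, ← (swapE R).sum_comp]
  apply Finset.sum_congr rfl
  intro x _
  show (wt q (mix R x.1 x.2) * wt q (mix R x.2 x.1)) * (f (mix R x.1 x.2) * g (mix R x.1 x.2)) = _
  rw [wt_mix, hf, hg]

theorem Pr_eq_Ex (q : ∀ w, α w → ℝ) (X : Set (∀ w, α w)) :
    Pr q X = Ex q (X.indicator fun _ => 1) := by
  classical
  unfold Pr Ex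
  apply Finset.sum_congr rfl
  intro ω _
  simp only [Set.indicator_apply]
  split_ifs <;> simp

/-- overwriting: `P (ω = ρ on R, X) = P (ω = ρ on R) P (ω with ρ written on R is in X)` -/
theorem Pr_overwrite {q : ∀ w, α w → ℝ} (hq : IsProb q) (R : Finset W) (ρ : ∀ w, α w)
    (X : Set (∀ w, α w)) :
    Pr q ({ω | ∀ w ∈ R, ω w = ρ w} ∩ X) =
      Pr q {ω | ∀ w ∈ R, ω w = ρ w} * Pr q {ω | mix R ρ ω ∈ X} := by
  classical
  rw [Pr_eq_Ex, Pr_eq_Ex, Pr_eq_Ex, ← Ex_mul hq R]
  · congr 1
    funext ω
    simp only [Set.indicator_apply, Set.mem_inter_iff, Set.mem_ofPred_eq]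
    by_cases h : ∀ w ∈ R, ω w = ρ w
    · have : mix R ρ ω = ω := by
        funext w
        simp only [mix]
        split_ifs with hw
        · exact (h w hw).symm
        · rfl
      by_cases hX : ω ∈ X
      · have hX' : mix R ρ ω ∈ X := by rw [this]; exact hX
        rw [if_pos ⟨h, hX⟩, if_pos hX', if_pos h, one_mul]
      · have hX' : mix R ρ ω ∉ X := by rw [this]; exact hX
        rw [if_neg (fun hh => hX hh.2), if_neg hX', mul_zero]
    · rw [if_neg h, if_neg (fun hh => h hh.1), zero_mul]
  · intro ω η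
    simp only [Set.indicator_apply, Set.mem_ofPred_eq]
    have : (∀ w ∈ R, mix R ω η w = ρ w) ↔ ∀ w ∈ R, ω w = ρ w := by
      apply forall₂_congr
      intro w hw
      simp [mix, hw]
    simp only [this]
  · intro ω η
    simp only [Set.indicator_apply, Set.mem_ofPred_eq]
    have : mix R ρ (mix R ω η) = mix R ρ η := by
      funext w
      simp only [mix]
      split_ifs <;> rfl
    simp only [this]

/-! ## the lopsided local lemma -/

/-- avoiding all events of `S` -/
def avoid {J : Type*} (E : J → Set (∀ w, α w)) (S : Finset J) : Set (∀ w, α w) :=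
  {ω | ∀ i ∈ S, ω ∉ E i}

theorem avoid_insert {J : Type*} [DecidableEq J] (E : J → Set (∀ w, α w)) (S : Finset J)
    (j : J) : avoid E (insert j S) = avoid E S \ E j := by
  ext ω
  simp only [avoid, Set.mem_ofPred_eq, Finset.mem_insert, forall_eq_or_imp, Set.mem_sdiff]
  exact and_comm

theorem lopsided {J : Type*} [DecidableEq J] {q : ∀ w, α w → ℝ} (hq : IsProb q)
    (E : J → Set (∀ w, α w)) (U : Finset J) (adj : J → J → Prop) [DecidableRel adj]
    (hlop : ∀ j ∈ U, ∀ S ⊆ U, (∀ i ∈ S, ¬ adj j i) →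
      Pr q (E j ∩ avoid E S) ≤ Pr q (E j) * Pr q (avoid E S))
    (hP : ∀ j ∈ U, Pr q (E j) ≤ 1 / 4)
    (hs : ∀ j ∈ U, ∑ i ∈ U.filter (fun i => adj j i), Pr q (E i) ≤ 1 / 4) :
    0 < Pr q (avoid E U) := by
  -- the main claim
  have main : ∀ m : ℕ, ∀ S ⊆ U, S.card ≤ m → ∀ j ∈ U,
      Pr q (E j ∩ avoid E S) ≤ 2 * Pr q (E j) * Pr q (avoid E S) := by
    intro m
    induction m with
    | zero =>
      intro S hSU hS j hj
      have hS0 : S = ∅ := by
        rw [← Finset.card_eq_zero]; omega
      have h1 := hlop j hj S hSU (by simp [hS0])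
      have h2 : 0 ≤ Pr q (E j) * Pr q (avoid E S) :=
        mul_nonneg (Pr_nonneg hq _) (Pr_nonneg hq _)
      linarith
    | succ m ih =>
      intro S hSU hS j hj
      set S1 := S.filter fun i => adj j i with hS1
      set S2 := S.filter fun i => ¬ adj j i with hS2
      have h2 := hlop j hj S2 ((Finset.filter_subset _ _).trans hSU)
        (fun i hi => (Finset.mem_filter.1 hi).2)
      have hmono : Pr q (E j ∩ avoid E S) ≤ Pr q (E j ∩ avoid E S2) := by
        apply Pr_mono hq
        apply Set.inter_subset_inter_right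
        intro ω hω i hi
        exact hω i (Finset.filter_subset _ _ hi)
      by_cases hne : S1 = ∅
      · have hSS : S2 = S := by
          rw [hS2, Finset.filter_eq_self]
          intro i hi hadj
          have : i ∈ S1 := Finset.mem_filter.2 ⟨hi, hadj⟩
          rw [hne] at this
          exact absurd this (Finset.notMem_empty i)
        rw [hSS] at h2
        have h3 : 0 ≤ Pr q (E j) * Pr q (avoid E S) :=
          mul_nonneg (Pr_nonneg hq _) (Pr_nonneg hq _)
        linarith
      · have hcard : S2.card ≤ m := by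
          have h3 := Finset.card_filter_add_card_filter_not (s := S) (fun i => adj j i)
          have h4 : 0 < S1.card := Finset.card_pos.2 (Finset.nonempty_iff_ne_empty.2 hne)
          rw [← hS1, ← hS2] at h3
          omega
        -- `P (avoid S) ≥ P (avoid S2) / 2`
        have hsub : avoid E S2 ⊆ avoid E S ∪ ⋃ i ∈ S1, (E i ∩ avoid E S2) := by
          intro ω hω
          by_cases h : ω ∈ avoid E S
          · exact Or.inl h
          · right
            simp only [avoid, Set.mem_ofPred_eq, not_forall, not_not] at h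
            obtain ⟨i, hi, hiE⟩ := h
            simp only [Set.mem_iUnion]
            refine ⟨i, ?_, hiE, hω⟩
            rw [hS1, Finset.mem_filter]
            refine ⟨hi, ?_⟩
            by_contra hadj
            exact hω i (Finset.mem_filter.2 ⟨hi, hadj⟩) hiE
        have hbU : ∀ (A : Finset J), Pr q (⋃ i ∈ A, (E i ∩ avoid E S2)) ≤
            ∑ i ∈ A, Pr q (E i ∩ avoid E S2) := by
          intro A
          induction A using Finset.induction_on with
          | empty =>
            simp [Pr]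
          | insert a A ha ihA =>
            rw [Finset.sum_insert ha, Finset.set_biUnion_insert]
            exact (Pr_union_le hq _ _).trans (by linarith)
        have h5 : Pr q (avoid E S2) ≤ Pr q (avoid E S) +
            ∑ i ∈ S1, Pr q (E i ∩ avoid E S2) :=
          (Pr_mono hq hsub).trans ((Pr_union_le hq _ _).trans (by linarith [hbU S1]))
        have h6 : ∑ i ∈ S1, Pr q (E i ∩ avoid E S2) ≤
            (∑ i ∈ S1, Pr q (E i)) * (2 * Pr q (avoid E S2)) := by
          rw [Finset.sum_mul]
          apply Finset.sum_le_sum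
          intro i hi
          have h7 := ih S2 ((Finset.filter_subset _ _).trans hSU) hcard i
            (hSU (Finset.filter_subset _ _ hi))
          linarith
        have h8 : ∑ i ∈ S1, Pr q (E i) ≤ 1 / 4 := by
          refine le_trans ?_ (hs j hj)
          apply Finset.sum_le_sum_of_subset_of_nonneg
          · intro i hi
            rw [Finset.mem_filter] at hi ⊢
            exact ⟨hSU hi.1, hi.2⟩
          · intro i _ _
            exact Pr_nonneg hq _
        have h9 : 0 ≤ Pr q (avoid E S2) := Pr_nonneg hq _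
        have h10 : Pr q (avoid E S2) ≤ 2 * Pr q (avoid E S) := by
          have : (∑ i ∈ S1, Pr q (E i)) * (2 * Pr q (avoid E S2)) ≤
              1 / 4 * (2 * Pr q (avoid E S2)) :=
            mul_le_mul_of_nonneg_right h8 (by linarith)
          linarith
        have h11 : 0 ≤ Pr q (E j) := Pr_nonneg hq _
        calc Pr q (E j ∩ avoid E S) ≤ Pr q (E j) * Pr q (avoid E S2) := hmono.trans h2
          _ ≤ Pr q (E j) * (2 * Pr q (avoid E S)) := mul_le_mul_of_nonneg_left h10 h11
          _ = 2 * Pr q (E j) * Pr q (avoid E S) := by ring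
  -- positivity by induction over subsets
  have pos : ∀ S : Finset J, S ⊆ U → 0 < Pr q (avoid E S) := by
    intro S
    induction S using Finset.induction_on with
    | empty =>
      intro _
      have : avoid E (∅ : Finset J) = Set.univ := by
        ext ω; simp [avoid]
      rw [this, Pr_univ hq]
      norm_num
    | insert a S ha ih =>
      intro hSU
      have hS : S ⊆ U := (Finset.subset_insert _ _).trans hSU
      have haU : a ∈ U := hSU (Finset.mem_insert_self _ _)
      have h1 := ih hS
      have h2 := main S.card S hS le_rfl a haU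
      have h3 := Pr_inter_add_diff q (avoid E S) (E a)
      rw [avoid_insert]
      rw [Set.inter_comm] at h3
      have h4 := hP a haU
      have h5 : 2 * Pr q (E a) * Pr q (avoid E S) ≤ 1 / 2 * Pr q (avoid E S) :=
        mul_le_mul_of_nonneg_right (by linarith) h1.le
      linarith
  exact pos U subset_rfl

/-! ## stopping sets -/

/-- `R` is a stopping set for the event `A` -/
structure IsStop (R : (∀ w, α w) → Finset W) (A : Set (∀ w, α w)) : Prop where
  read : ∀ ω η, (∀ w ∈ R ω, η w = ω w) → R η = R ω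
  dec : ∀ ω η, (∀ w ∈ R ω, η w = ω w) → (η ∈ A ↔ ω ∈ A)

/-- **Lopsided local lemma for stopping sets.** -/
theorem stop_lll {VV : Type*} [Fintype VV] [DecidableEq VV] {q : ∀ w, α w → ℝ}
    (hq : IsProb q) (A : VV → Set (∀ w, α w)) (R : VV → (∀ w, α w) → Finset W)
    (hR : ∀ v, IsStop (R v) (A v)) (hP : ∀ v, Pr q (A v) ≤ 1 / 4)
    (hs : ∀ v, ∀ ρ ∈ A v,
      ∑ v', Pr q {ω | ω ∈ A v' ∧ ∃ w, w ∈ R v ρ ∧ w ∈ R v' ω ∧ ω w ≠ ρ w} ≤ 1 / 4) :
    ∃ ω, ∀ v, ω ∉ A v := by
  classical
  -- the atoms are indexed by representatives: pairs `(v, R, values)`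
  -- an atom of `v` is the set of all `ω` which agree with `ρ` on `R v ρ`
  let at' : VV → (∀ w, α w) → Set (∀ w, α w) := fun v ρ => {ω | ∀ w ∈ R v ρ, ω w = ρ w}
  have hself : ∀ v ρ, ρ ∈ at' v ρ := fun v ρ w _ => rfl
  have hRat : ∀ v ρ ω, ω ∈ at' v ρ → R v ω = R v ρ := fun v ρ ω h => (hR v).read ρ ω h
  have hat : ∀ v ρ ω, ω ∈ at' v ρ → at' v ω = at' v ρ := by
    intro v ρ ω h
    have h1 := hRat v ρ ω h
    ext η
    show (∀ w ∈ R v ω, η w = ω w) ↔ (∀ w ∈ R v ρ, η w = ρ w)
    rw [h1]
    apply forall₂_congr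
    intro w hw
    rw [h w hw]
  -- index set: pairs (v, atom as a finset)
  let fs : VV → (∀ w, α w) → Finset (∀ w, α w) := fun v ρ => univ.filter fun ω => ω ∈ at' v ρ
  have hfs : ∀ v ρ ω, ω ∈ fs v ρ ↔ ω ∈ at' v ρ := by
    intro v ρ ω
    simp [fs]
  have hfs2 : ∀ v ρ ω, ω ∈ at' v ρ → fs v ω = fs v ρ := by
    intro v ρ ω h
    ext η
    rw [hfs, hfs, hat v ρ ω h]
  have hfs3 : ∀ v ρ ω, fs v ω = fs v ρ → ω ∈ at' v ρ := by
    intro v ρ ω h
    rw [← hfs, ← h, hfs]
    exact hself v ω
  let U : Finset (VV × Finset (∀ w, α w)) :=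
    (univ : Finset (VV × (∀ w, α w))).filter (fun x => x.2 ∈ A x.1) |>.image
      fun x => (x.1, fs x.1 x.2)
  have hU : ∀ j, j ∈ U ↔ ∃ ρ, ρ ∈ A j.1 ∧ fs j.1 ρ = j.2 := by
    intro j
    simp only [U, Finset.mem_image, Finset.mem_filter, Finset.mem_univ, true_and, Prod.exists]
    constructor
    · rintro ⟨v, ρ, h1, h2⟩
      rw [← h2]
      exact ⟨ρ, h1, rfl⟩
    · rintro ⟨ρ, h1, h2⟩
      exact ⟨j.1, ρ, h1, by rw [h2]⟩
  let E : VV × Finset (∀ w, α w) → Set (∀ w, α w) := fun j => {ω | ω ∈ j.2}
  let adj : VV × Finset (∀ w, α w) → VV × Finset (∀ w, α w) → Prop := fun j i =>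
    ∃ ρ ∈ j.2, ∃ ω ∈ i.2, ∃ w, w ∈ R j.1 ρ ∧ w ∈ R i.1 ω ∧ ω w ≠ ρ w
  have hEat : ∀ v ρ, E (v, fs v ρ) = at' v ρ := by
    intro v ρ
    ext ω
    exact hfs v ρ ω
  have hres := lopsided hq E U adj (by
    intro j hj S hS hadj
    obtain ⟨ρ, hρA, hρ⟩ := (hU j).1 hj
    have hjE : E j = at' j.1 ρ := by
      have : j = (j.1, fs j.1 ρ) := by rw [hρ]
      rw [this]
      exact hEat _ _
    rw [hjE]
    show Pr q ({ω | ∀ w ∈ R j.1 ρ, ω w = ρ w} ∩ avoid E S) ≤ _
    rw [Pr_overwrite hq (R j.1 ρ) ρ]
    apply mul_le_mul_of_nonneg_left _ (Pr_nonneg hq _)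
    apply Pr_mono hq
    intro ω hω i hi hiE
    -- if `ω ∈ E i` then the overwritten one is in `E i`
    apply hω i hi
    obtain ⟨η, hηA, hη⟩ := (hU i).1 (hS hi)
    have hiE' : E i = at' i.1 η := by
      have : i = (i.1, fs i.1 η) := by rw [hη]
      rw [this]
      exact hEat _ _
    rw [hiE'] at hiE ⊢
    intro w hw
    simp only [mix]
    split_ifs with hwR
    · by_contra hne
      apply hadj i hi
      refine ⟨ρ, ?_, η, ?_, w, hwR, hw, ?_⟩
      · rw [← hρ, hfs]; exact hself _ _
      · rw [← hη, hfs]; exact hself _ _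
      · exact fun h => hne h.symm
    · exact hiE w hw) (by
    intro j hj
    obtain ⟨ρ, hρA, hρ⟩ := (hU j).1 hj
    refine le_trans (Pr_mono hq ?_) (hP j.1)
    intro ω hω
    have h1 : ω ∈ at' j.1 ρ := by
      rw [← hfs, hρ]; exact hω
    exact ((hR j.1).dec ρ ω h1).2 hρA) (by
    intro j hj
    obtain ⟨ρ, hρA, hρ⟩ := (hU j).1 hj
    refine le_trans ?_ (hs j.1 ρ hρA)
    -- the neighbours of `j` in the copy `v'` are disjoint parts of the event of `hs`
    have h1 : ∀ v', ∑ i ∈ (U.filter fun i => adj j i) with i.1 = v', Pr q (E i) ≤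
        Pr q {ω | ω ∈ A v' ∧ ∃ w, w ∈ R j.1 ρ ∧ w ∈ R v' ω ∧ ω w ≠ ρ w} := by
      intro v'
      unfold Pr
      rw [Finset.sum_comm]
      apply Finset.sum_le_sum
      intro ω _
      -- at most one `i` of the copy `v'` contains `ω`
      by_cases hω : ∃ i ∈ ((U.filter fun i => adj j i).filter fun i => i.1 = v'), ω ∈ E i
      · obtain ⟨i, hi, hiω⟩ := hω
        have hi' := Finset.mem_filter.1 hi
        have hi'' := Finset.mem_filter.1 hi'.1
        obtain ⟨η, hηA, hη⟩ := (hU i).1 hi''.1
        rw [Finset.sum_eq_single i]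
        · rw [Set.indicator_of_mem hiω]
          have hωη : ω ∈ at' i.1 η := by rw [← hfs, hη]; exact hiω
          rw [Set.indicator_of_mem]
          obtain ⟨ρ', hρ', ω', hω', w, hw1, hw2, hw3⟩ := hi''.2
          have hρ'' : ρ' ∈ at' j.1 ρ := by rw [← hfs, hρ]; exact hρ'
          have hω'' : ω' ∈ at' i.1 η := by rw [← hfs, hη]; exact hω'
          have e1 := hRat _ _ _ hρ''
          have e2 := hRat _ _ _ hω''
          have e3 := hRat _ _ _ hωη
          rw [e1] at hw1
          rw [e2] at hw2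
          refine ⟨?_, w, hw1, ?_, ?_⟩
          · rw [← hi'.2]
            exact ((hR i.1).dec η ω hωη).2 hηA
          · rw [← hi'.2, e3]; exact hw2
          · rw [hωη w hw2, ← hρ'' w hw1, ← hω'' w hw2]
            exact hw3
        · intro i2 hi2 hne
          rw [Set.indicator_of_notMem]
          intro hi2ω
          apply hne
          have hi2' := Finset.mem_filter.1 hi2
          have hi2'' := Finset.mem_filter.1 hi2'.1
          obtain ⟨η2, hη2A, hη2⟩ := (hU i2).1 hi2''.1
          have hv : i2.1 = i.1 := hi2'.2.trans hi'.2.symm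
          apply Prod.ext hv
          have a1 : ω ∈ at' i.1 η := by rw [← hfs, hη]; exact hiω
          have a2 : ω ∈ at' i2.1 η2 := by rw [← hfs, hη2]; exact hi2ω
          rw [← hη, ← hη2, ← hfs2 _ _ _ a1, ← hfs2 _ _ _ a2, hv]
        · intro hni
          exact absurd hi hni
      · have : ∀ i ∈ ((U.filter fun i => adj j i).filter fun i => i.1 = v'),
            (E i).indicator (wt q) ω = 0 := by
          intro i hi
          apply Set.indicator_of_notMem
          intro h
          exact hω ⟨i, hi, h⟩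
        rw [Finset.sum_eq_zero this]
        exact Set.indicator_nonneg (fun ω _ => wt_nonneg hq ω) ω
    calc ∑ i ∈ U.filter (fun i => adj j i), Pr q (E i) =
        ∑ v', ∑ i ∈ (U.filter fun i => adj j i) with i.1 = v', Pr q (E i) :=
          (Finset.sum_fiberwise _ _ _).symm
      _ ≤ _ := Finset.sum_le_sum fun v' _ => h1 v')
  -- conclusion
  have : (avoid E U).Nonempty := by
    by_contra h
    rw [Set.not_nonempty_iff_eq_empty] at h
    rw [h] at hres
    simp [Pr] at hres
  obtain ⟨ω, hω⟩ := this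
  refine ⟨ω, fun v hv => ?_⟩
  refine hω (v, fs v ω) ((hU _).2 ⟨ω, hv, rfl⟩) ?_
  rw [hEat]
  exact hself v ω

/-! ## Mecke's formula -/

theorem Ex_mono {q : ∀ w, α w → ℝ} (hq : IsProb q) {f g : (∀ w, α w) → ℝ}
    (h : ∀ ω, f ω ≤ g ω) : Ex q f ≤ Ex q g :=
  Finset.sum_le_sum fun ω _ => mul_le_mul_of_nonneg_left (h ω) (wt_nonneg hq ω)

theorem Ex_sum (q : ∀ w, α w → ℝ) {ι : Type*} (s : Finset ι) (f : ι → (∀ w, α w) → ℝ) :
    Ex q (fun ω => ∑ i ∈ s, f i ω) = ∑ i ∈ s, Ex q (f i) := by
  unfold Ex
  rw [Finset.sum_comm]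
  apply Finset.sum_congr rfl
  intro ω _
  rw [Finset.mul_sum]

theorem Ex_const_mul (q : ∀ w, α w → ℝ) (c : ℝ) (f : (∀ w, α w) → ℝ) :
    Ex q (fun ω => c * f ω) = c * Ex q f := by
  unfold Ex
  rw [Finset.mul_sum]
  apply Finset.sum_congr rfl
  intro ω _
  ring

theorem Ex_coord {q : ∀ w, α w → ℝ} (hq : IsProb q) (w : W) (a : α w) :
    Ex q (fun ω => if ω w = a then 1 else 0) = q w a := by
  have h1 : Ex q (fun ω => if ω w = a then 1 else 0) =
      ∑ ω : ∀ w, α w, ∏ w', (if h : w' = w then
        (if ω w' = h ▸ a then q w' (ω w') else 0) else q w' (ω w')) := by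
    unfold Ex wt
    apply Finset.sum_congr rfl
    intro ω _
    show (∏ w, q w (ω w)) * (if ω w = a then (1 : ℝ) else 0) = _
    by_cases h : ω w = a
    · rw [if_pos h, mul_one]
      apply Finset.prod_congr rfl
      intro w' _
      by_cases hw : w' = w
      · subst hw
        simp [h]
      · simp [hw]
    · rw [if_neg h, mul_zero]
      symm
      apply Finset.prod_eq_zero (Finset.mem_univ w)
      simp [h]
  rw [h1]
  have h2 := Finset.prod_univ_sum (fun w => (univ : Finset (α w)))
    (fun w' b => (if h : w' = w then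
        (if b = h ▸ a then q w' b else 0) else q w' b))
  rw [Fintype.piFinset_univ] at h2
  rw [← h2, Finset.prod_eq_single w]
  · simp
  · intro w' _ hw
    simp only [hw, dite_false]
    exact hq.sum_one w'
  · intro h
    exact absurd (Finset.mem_univ w) h

/-- a factor `[ω w = a]` in front of a function which does not look at `w` -/
theorem Ex_coord_mul {q : ∀ w, α w → ℝ} (hq : IsProb q) (w : W) (a : α w)
    (g : (∀ w, α w) → ℝ) (hg : ∀ ω η : ∀ w, α w, (∀ w', w' ≠ w → ω w' = η w') → g ω = g η) :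
    Ex q (fun ω => (if ω w = a then 1 else 0) * g ω) = q w a * Ex q g := by
  rw [Ex_mul hq {w}, Ex_coord hq]
  · intro ω η
    simp [mix]
  · intro ω η
    apply hg
    intro w' hw'
    simp [mix, hw']

/-- **Mecke's formula** for sets `ω : W → Bool` -/
theorem mecke {W : Type*} [Fintype W] [DecidableEq W] {q : W → Bool → ℝ}
    (hq : IsProb (α := fun _ => Bool) q) (F : W → (W → Bool) → ℝ) :
    Ex (α := fun _ => Bool) q (fun ω => ∑ w, if ω w = true then
      F w (Function.update ω w false) else 0) =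
      ∑ w, q w true * Ex (α := fun _ => Bool) q (fun ω => F w (Function.update ω w false)) := by
  rw [Ex_sum]
  apply Finset.sum_congr rfl
  intro w _
  rw [← Ex_coord_mul (α := fun _ => Bool) hq w true
    (fun ω => F w (Function.update ω w false))]
  · congr 1
    funext ω
    split_ifs <;> simp
  · intro ω η h
    congr 1
    funext w'
    by_cases hw : w' = w
    · subst hw; simp
    · simp [hw, h w' hw]

/-- Mecke's formula as an inequality: for `F ≥ 0` and `q w true ≤ 1/2` the removed walk may be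
replaced by `ω` itself on the event that `w` is absent -/
theorem mecke_le {W : Type*} [Fintype W] [DecidableEq W] {q : W → Bool → ℝ}
    (hq : IsProb (α := fun _ => Bool) q) (hh : ∀ w, q w true ≤ 1 / 2)
    (F : W → (W → Bool) → ℝ) (hF : ∀ w ω, 0 ≤ F w ω) :
    Ex (α := fun _ => Bool) q (fun ω => ∑ w, if ω w = true then
      F w (Function.update ω w false) else 0) ≤
      2 * Ex (α := fun _ => Bool) q (fun ω => ∑ w, q w true *
        (if ω w = false then F w ω else 0)) := by
  rw [mecke hq, Ex_sum, Finset.mul_sum]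
  apply Finset.sum_le_sum
  intro w _
  have h1 := Ex_coord_mul (α := fun _ => Bool) hq w false
    (fun ω => F w (Function.update ω w false)) (by
      intro ω η h
      show F w _ = F w _
      congr 1
      funext w'
      by_cases hw : w' = w
      · subst hw; simp
      · simp [hw, h w' hw])
  have h2 : (fun ω : W → Bool => (if ω w = false then (1 : ℝ) else 0) *
      F w (Function.update ω w false)) = fun ω => if ω w = false then F w ω else 0 := by
    funext ω
    split_ifs with h
    · rw [one_mul]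
      congr 1
      funext w'
      by_cases hw : w' = w
      · subst hw; simp [h]
      · simp [hw]
    · simp
  rw [h2] at h1
  have h3 : Ex (α := fun _ => Bool) q (fun ω => q w true *
      (if ω w = false then F w ω else 0)) =
      q w true * (q w false *
        Ex (α := fun _ => Bool) q (fun ω => F w (Function.update ω w false))) := by
    rw [Ex_const_mul, h1]
  rw [h3]
  have h4 : q w true + q w false = 1 := by
    have := hq.sum_one w
    simpa using this
  have h5 : 1 / 2 ≤ q w false := by linarith [hh w]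
  have h6 : 0 ≤ Ex (α := fun _ => Bool) q (fun ω => F w (Function.update ω w false)) := by
    unfold Ex
    exact Finset.sum_nonneg fun ω _ => mul_nonneg (wt_nonneg hq ω) (hF _ _)
  have h7 : 0 ≤ q w true := hq.nonneg w true
  have h8 : 0 ≤ q w true *
      Ex (α := fun _ => Bool) q (fun ω => F w (Function.update ω w false)) :=
    mul_nonneg h7 h6
  calc q w true * Ex (α := fun _ => Bool) q (fun ω => F w (Function.update ω w false)) ≤
      (2 * q w false) * (q w true *
        Ex (α := fun _ => Bool) q (fun ω => F w (Function.update ω w false))) :=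
        le_mul_of_one_le_left h8 (by linarith)
    _ = _ := by ring

end Pool.Agent.LLLA
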