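import Pool.Agent.C4M.Stmts

/-!
# C4M : Markov's inequality (MKV) and basic facts on `mean`
-/

namespace Pool.Agent.C4M

open Finset

theorem mean_sum {V Λ : Type} [Fintype V] [DecidableEq V] [Fintype Λ] {ι : Type}
    (s : Finset ι) (f : ι → (V → Λ) → ℝ) :
    mean (fun h => ∑ i ∈ s, f i h) = ∑ i ∈ s, mean (f i) := by
  unfold mean
  rw [Finset.sum_comm, Finset.sum_div]

theorem mean_const_mul {V Λ : Type} [Fintype V] [DecidableEq V] [Fintype Λ] (c : ℝ)
    (f : (V → Λ) → ℝ) : mean (fun h => c * f h) = c * mean f := by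
  unfold mean
  rw [← Finset.mul_sum, mul_div_assoc]

theorem mkv : MKVStmt := by
  intro V Λ _ _ _ _ hM F p lam A hlam hA X hX
  have hM0 : (0 : ℝ) < Fintype.card Λ := by
    exact_mod_cast hM
  have hpow : (0 : ℝ) < (Fintype.card Λ : ℝ) ^ Fintype.card V := pow_pos hM0 _
  have hl : (0 : ℝ) < lam ^ (2 * p) := pow_pos hlam _
  unfold mean at hA
  rw [div_le_iff₀ hpow] at hA
  have h1 : ∀ h ∈ X, lam ^ (2 * p) ≤ F h ^ (2 * p) := by
    intro h hh
    have := pow_le_pow_left₀ hlam.le (hX h hh) (2 * p)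
    calc lam ^ (2 * p) ≤ |F h| ^ (2 * p) := this
      _ = F h ^ (2 * p) := by rw [pow_mul, pow_mul, sq_abs]
  have h2 : (X.card : ℝ) * lam ^ (2 * p) ≤ ∑ h, F h ^ (2 * p) := by
    calc (X.card : ℝ) * lam ^ (2 * p) = ∑ h ∈ X, lam ^ (2 * p) := by
          rw [Finset.sum_const, nsmul_eq_mul]
      _ ≤ ∑ h ∈ X, F h ^ (2 * p) := Finset.sum_le_sum h1
      _ ≤ ∑ h, F h ^ (2 * p) := by
          apply Finset.sum_le_sum_of_subset_of_nonneg (Finset.subset_univ _)
          intro h _ _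
          rw [pow_mul]; positivity
  have h3 : (X.card : ℝ) * lam ^ (2 * p) ≤ A * (Fintype.card Λ : ℝ) ^ Fintype.card V :=
    h2.trans hA
  rw [← mul_div_assoc, le_div_iff₀ hl]
  linarith

end Pool.Agent.C4M
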