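import Pool.Agent.C4M.Blk

/-!
# C4M : PTW and PTB, the pointwise inequalities
-/

namespace Pool.Agent.C4M

open Finset

theorem lin {M s : ℝ} (hM : 1 ≤ M) (hs : M ≤ s) {α β γ δ : ℕ} (h1 : α + δ ≤ β)
    (h2 : γ + δ ≤ β) : M ^ α ≤ s ^ β * (M / s) ^ γ / s ^ δ := by
  have hs1 : 1 ≤ s := hM.trans hs
  have hs0 : 0 < s := by linarith
  have hM0 : 0 < M := by linarith
  rw [le_div_iff₀ (pow_pos hs0 _), div_pow, ← mul_div_assoc, le_div_iff₀ (pow_pos hs0 _)]
  rcases le_total α γ with h | h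
  · calc M ^ α * s ^ δ * s ^ γ = s ^ (γ + δ) * M ^ α := by rw [pow_add]; ring
      _ ≤ s ^ β * M ^ γ := by
        apply mul_le_mul (pow_le_pow_right₀ hs1 h2) (pow_le_pow_right₀ hM h)
          (pow_nonneg hM0.le _) (pow_nonneg hs0.le _)
  · obtain ⟨e, rfl⟩ := Nat.exists_eq_add_of_le h
    calc M ^ (γ + e) * s ^ δ * s ^ γ = (M ^ e * (s ^ (γ + δ))) * M ^ γ := by
          rw [pow_add, pow_add]; ring
      _ ≤ (s ^ e * s ^ (γ + δ)) * M ^ γ := by
        apply mul_le_mul_of_nonneg_right _ (pow_nonneg hM0.le _)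
        apply mul_le_mul_of_nonneg_right _ (pow_nonneg hs0.le _)
        exact pow_le_pow_left₀ hM0.le hs e
      _ = s ^ (γ + e + δ) * M ^ γ := by rw [← pow_add]; congr 2; omega
      _ ≤ s ^ β * M ^ γ := by
        apply mul_le_mul_of_nonneg_right _ (pow_nonneg hM0.le _)
        exact pow_le_pow_right₀ hs1 h1

theorem blk_nonneg {M B : ℝ} (hM : 0 ≤ M) (hB : 0 ≤ B) (m q : ℕ) : 0 ≤ blk M B m q := by
  unfold blk
  split_ifs <;> positivity

/-- the common part of PTW and PTB -/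
theorem ptw_core {V : Type} [Fintype V] [DecidableEq V] {n p : ℕ} (S : Shape n)
    (v : Fin (2 * p) × Fin n → V) (hns : NoSingle S v)
    (M s B : ℝ) (hM : 1 ≤ M) (hMs : M ≤ s) (hB : 0 ≤ B) (β δ : ℕ)
    (h1 : 2 * p * S.nz + 2 * (2 * p * S.nf) + δ ≤
      β + (u1 S v).card + 2 * (u0 S v).card + (ub S v).card)
    (h2 : 2 * (2 * p * S.nz) + 4 * (2 * p * S.nf) + 2 * δ ≤
      2 * β + 2 * (u1 S v).card + 4 * (u0 S v).card + (ub S v).card) :
    ∏ u, blk M B (cnt (S.jkind (2 * p)) v Kind.zeta u) (cnt (S.jkind (2 * p)) v Kind.phi u) ≤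
      2 ^ (2 * p * S.nz) * B ^ (2 * p * S.nf) * s ^ β *
      (M / s) ^ (p * (S.nz + 2 * S.nf)) / s ^ δ := by
  obtain ⟨hb1, hb2, hb3⟩ := blkT V n (2 * p) S v hns
  refine (hb1 M B hM hB).trans ?_
  have hs0 : 0 < s := by linarith
  have hM0 : 0 < M := by linarith
  rw [mul_pow B M]
  have hu1 : (u1 S v).card ≤ 2 * p * S.nz := by
    have hz : ∑ u, cnt (S.jkind (2 * p)) v Kind.zeta u = 2 * p * S.nz := by
      rw [sum_cnt, card_jkind]; rfl
    rw [← hz]
    unfold u1
    rw [Finset.card_filter]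
    apply Finset.sum_le_sum
    intro u _
    split_ifs <;> omega
  have key : M ^ (2 * p * S.nz - (u1 S v).card + 2 * p * S.nf) ≤
      s ^ β * (M / s) ^ (p * (S.nz + 2 * S.nf)) / s ^ δ := by
    have e1 : p * (S.nz + 2 * S.nf) = p * S.nz + 2 * (p * S.nf) := by ring
    have e2 : 2 * p * S.nz = 2 * (p * S.nz) := by ring
    have e3 : 2 * p * S.nf = 2 * (p * S.nf) := by ring
    apply lin hM hMs
    · omega
    · rw [e1]
      omega
  calc 2 ^ (2 * p * S.nz) * M ^ (2 * p * S.nz - (u1 S v).card) *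
        (B ^ (2 * p * S.nf) * M ^ (2 * p * S.nf)) =
        (2 ^ (2 * p * S.nz) * B ^ (2 * p * S.nf)) *
          M ^ (2 * p * S.nz - (u1 S v).card + 2 * p * S.nf) := by rw [pow_add]; ring
    _ ≤ (2 ^ (2 * p * S.nz) * B ^ (2 * p * S.nf)) *
          (s ^ β * (M / s) ^ (p * (S.nz + 2 * S.nf)) / s ^ δ) := by
        apply mul_le_mul_of_nonneg_left key (by positivity)
    _ = _ := by ring

theorem prod_blk_zero {V : Type} [Fintype V] [DecidableEq V] {n P : ℕ} (S : Shape n)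
    (v : Fin P × Fin n → V) (hns : ¬ NoSingle S v) (M B : ℝ) :
    ∏ u, blk M B (cnt (S.jkind P) v Kind.zeta u) (cnt (S.jkind P) v Kind.phi u) = 0 := by
  unfold NoSingle at hns
  push Not at hns
  obtain ⟨u, hu⟩ := hns
  apply Finset.prod_eq_zero (Finset.mem_univ u)
  unfold blk
  rw [if_pos hu]

theorem ptw (num : NUMStmt) : PTWStmt := by
  intro V _ _ n p S hok hphi N hN x nb hnb v hv M s B hM hMs hB
  have hs0 : 0 < s := by linarith
  by_cases hns : NoSingle S v
  · have hnum := num V n (2 * p) S hok hphi N hN x nb hnb v hv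
    obtain ⟨hb1, hb2, hb3⟩ := blkT V n (2 * p) S v hns
    have := ptw_core S v hns M s B hM hMs hB
      ((NF (S.jrk (2 * p)) x v).card + (BB (S.jrk (2 * p)) (S.jpar (2 * p)) x v).card) 0
      (by omega) (by omega)
    simpa using this
  · rw [prod_blk_zero S v hns]
    positivity

theorem nz1_pos {n : ℕ} {S : Shape n} {a : Fin n} (h : S.Bon a) : 1 ≤ S.nz1 := by
  obtain ⟨t, ht1, ht2⟩ := h.zeta1
  unfold Shape.nz1
  rw [Nat.one_le_iff_ne_zero, ← Nat.pos_iff_ne_zero, Finset.card_pos]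
  exact ⟨t, by simp [ht1, ht2]⟩

theorem ptb (numb : NUMBStmt) (old' : OLDStmt) : PTBStmt := by
  intro V _ _ n p S hok hphi a ha N hN x nb hnb v hv M s B hM hMs hB
  have hs0 : 0 < s := by linarith
  by_cases hns : NoSingle S v
  · have hnum := numb V n (2 * p) S hok hphi a ha N hN x nb hnb v hv
    have hold := old' V n (2 * p) S hok hphi x v hns
    obtain ⟨hb1, hb2, hb3⟩ := blkT V n (2 * p) S v hns
    have hz1 := nz1_pos ha
    -- `2 p ≤ 2 old + ub`
    have hkey : 2 * p ≤ 2 * (old S x v).card + (ub S v).card := by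
      by_contra hcon
      push Not at hcon
      have h1 : S.nz1 * (2 * (old S x v).card + (ub S v).card + 1) ≤ S.nz1 * (2 * p) :=
        Nat.mul_le_mul_left _ hcon
      have h2 : (ub S v).card ≤ S.nz1 * (ub S v).card := Nat.le_mul_of_pos_left _ hz1
      have e1 : S.nz1 * (2 * (old S x v).card + (ub S v).card + 1) =
        2 * (S.nz1 * (old S x v).card) + S.nz1 * (ub S v).card + S.nz1 := by ring
      have e2 : 2 * p * S.nz1 = S.nz1 * (2 * p) := by ring
      rw [e1] at h1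
      rw [e2] at hold
      omega
    exact ptw_core S v hns M s B hM hMs hB
      ((NF (S.jrk (2 * p)) x v).card + (BB (S.jrk (2 * p)) (S.jpar (2 * p)) x v).card) p
      (by omega) (by omega)
  · rw [prod_blk_zero S v hns]
    positivity

end Pool.Agent.C4M
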