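import Pool.Agent.C4M.Defs

/-!
# C4M : statements of the modules of the moment part

Each `XStmt` is to be proved as `theorem x : XStmt` (in `Pool/Agent/C4M/X.lean` or a file of the
prover's own directory).
-/

namespace Pool.Agent.C4M

open Finset

/-- CNT: a set of maps such that the coordinate `j` has at most `c j` values when the earlier
coordinates are given has at most `∏ c j` elements. -/
def CNTStmt : Prop :=
  ∀ (V J : Type) [Fintype V] [DecidableEq V] [Fintype J] [DecidableEq J] (rk : J → ℕ)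
    (_ : Function.Injective rk) (A : Finset (J → V)) (c : J → ℝ) (_ : ∀ j, 0 ≤ c j)
    (_ : ∀ j (w : J → V),
      (((A.filter fun v => ∀ i, rk i < rk j → v i = w i).image fun v => v j).card : ℝ) ≤ c j),
    (A.card : ℝ) ≤ ∏ j, c j

/-- REV: the revealing lemma. -/
def REVStmt : Prop :=
  ∀ (V J : Type) [Fintype V] [DecidableEq V] [Fintype J] [DecidableEq J]
    (N : V → Finset V) (_ : IsNbd N) (rk : J → ℕ) (_ : Function.Injective rk)
    (par : J → Option J) (_ : ∀ j i, par j = some i → rk i < rk j) (x : V)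
    (nb : J → V → Finset V) (_ : ∀ j u, nb j u ⊆ N u) (cap : J → ℝ) (s : ℝ) (_ : 1 ≤ s)
    (_ : ∀ j, s ≤ cap j) (_ : ∀ j u, ((nb j u).card : ℝ) ≤ cap j),
    ∑ v ∈ univ.filter (fun v : J → V => (∀ j, v j ∈ nb j (ctr x par v j)) ∧
        ∀ j u, par j = some u → v j ≠ ctr x par v u),
      s ^ ((NF rk x v).card + (BB rk par x v).card) ≤ KREV (Fintype.card J) * ∏ j, cap j

/-- EXP: the average of a product factorises over the vertices. -/
def EXPStmt : Prop :=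
  ∀ (V Λ J : Type) [Fintype V] [DecidableEq V] [Fintype Λ] [DecidableEq Λ] [Fintype J]
    [DecidableEq J] (_ : 1 ≤ Fintype.card Λ) (φ : J → Λ → ℝ) (v : J → V),
    mean (fun h : V → Λ => ∏ j, φ j (h (v j))) =
      ∏ u, (∑ ℓ, ∏ j ∈ univ.filter (fun j => v j = u), φ j ℓ) / (Fintype.card Λ : ℝ)

/-- EXB: block bounds. -/
def EXBStmt : Prop :=
  ∀ (V Λ J : Type) [Fintype V] [DecidableEq V] [Fintype Λ] [DecidableEq Λ] [Fintype J]
    [DecidableEq J] (_ : 1 ≤ Fintype.card Λ) (B : ℝ) (_ : 0 ≤ B) (kind : J → Kind)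
    (φ : J → Λ → ℝ) (_ : FnOk kind B φ) (v : J → V),
    |mean (fun h : V → Λ => ∏ j, φ j (h (v j)))| ≤
      ∏ u, blk (Fintype.card Λ : ℝ) B (cnt kind v Kind.zeta u) (cnt kind v Kind.phi u)

/-- EXW: the window version (two zeta marks per copy, at different vertices). -/
def EXWStmt : Prop :=
  ∀ (V Λ : Type) [Fintype V] [DecidableEq V] [Fintype Λ] [DecidableEq Λ] (n p q : ℕ)
    (_ : 1 ≤ q) (_ : q ≤ Fintype.card Λ) (kind : Fin n → Kind) (t1 t2 : Fin n) (_ : t1 ≠ t2)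
    (_ : ∀ t, kind t = Kind.zeta ↔ t = t1 ∨ t = t2) (_ : ∀ t, kind t ≠ Kind.phi)
    (v : Fin (2 * p) × Fin n → V) (_ : ∀ c, v (c, t1) ≠ v (c, t2))
    (φ : Fin q → Fin n → Λ → ℝ) (_ : ∀ i t, kind t = Kind.none → ∀ ℓ, φ i t ℓ = 1)
    (_ : ∀ t, kind t = Kind.zeta →
      ∃ l : Fin q → Λ, Function.Injective l ∧ ∀ i ℓ, φ i t ℓ = mark (l i) ℓ),
    ∑ i : Fin (2 * p) → Fin q,
      |mean (fun h : V → Λ => ∏ j : Fin (2 * p) × Fin n, φ (i j.1) j.2 (h (v j)))| ≤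
      (q : ℝ) ^ p * ∏ u, blk (Fintype.card Λ : ℝ) 0
        (cnt (fun j : Fin (2 * p) × Fin n => kind j.2) v Kind.zeta u)
        (cnt (fun j : Fin (2 * p) × Fin n => kind j.2) v Kind.phi u)

/-! ## counting for one map `v` of `P` copies -/

/-- copies with a non-fresh index in stage 1 -/
def old {n P : ℕ} {V : Type} [DecidableEq V] (S : Shape n) (x : V) (v : Fin P × Fin n → V) :
    Finset (Fin P) :=
  univ.filter fun c => ∃ t, S.st t = 1 ∧ (c, t) ∈ NF (S.jrk P) x v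

/-- vertices with a zeta mark -/
def u1 {n P : ℕ} {V : Type} [Fintype V] [DecidableEq V] (S : Shape n) (v : Fin P × Fin n → V) :
    Finset V :=
  univ.filter fun u => 1 ≤ cnt (S.jkind P) v Kind.zeta u

/-- vertices with Phi marks only -/
def u0 {n P : ℕ} {V : Type} [Fintype V] [DecidableEq V] (S : Shape n) (v : Fin P × Fin n → V) :
    Finset V :=
  univ.filter fun u => cnt (S.jkind P) v Kind.zeta u = 0 ∧ 1 ≤ cnt (S.jkind P) v Kind.phi u

/-- vertices with exactly one zeta mark -/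
def ub {n P : ℕ} {V : Type} [Fintype V] [DecidableEq V] (S : Shape n) (v : Fin P × Fin n → V) :
    Finset V :=
  univ.filter fun u => cnt (S.jkind P) v Kind.zeta u = 1

/-- no vertex carries exactly one mark -/
def NoSingle {n P : ℕ} {V : Type} [DecidableEq V] (S : Shape n) (v : Fin P × Fin n → V) :
    Prop :=
  ∀ u, cnt (S.jkind P) v Kind.zeta u + cnt (S.jkind P) v Kind.phi u ≠ 1

/-- number of zeta marks in stage 1 -/
def Shape.nz1 {n : ℕ} (S : Shape n) : ℕ :=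
  (univ.filter fun t => S.kind t = Kind.zeta ∧ S.st t = 1).card

/-- NUM: lower bound for `|NF| + |B|`. -/
def NUMStmt : Prop :=
  ∀ (V : Type) [Fintype V] [DecidableEq V] (n P : ℕ) (S : Shape n) (_ : S.Ok) (_ : S.PhiOk)
    (N : V → Finset V) (_ : IsNbd N) (x : V) (nb : Fin n → V → Finset V)
    (_ : ∀ t u, nb t u ⊆ N u) (v : Fin P × Fin n → V) (_ : JValid S x nb v),
    P * S.nz + 2 * (P * S.nf) ≤ (NF (S.jrk P) x v).card +
      (BB (S.jrk P) (S.jpar P) x v).card + (u1 S v).card + 2 * (u0 S v).card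

/-- NUMB: the same with the additional old copies. -/
def NUMBStmt : Prop :=
  ∀ (V : Type) [Fintype V] [DecidableEq V] (n P : ℕ) (S : Shape n) (_ : S.Ok) (_ : S.PhiOk)
    (a : Fin n) (_ : S.Bon a)
    (N : V → Finset V) (_ : IsNbd N) (x : V) (nb : Fin n → V → Finset V)
    (_ : ∀ t u, nb t u ⊆ N u) (v : Fin P × Fin n → V) (_ : JValid S x nb v),
    P * S.nz + 2 * (P * S.nf) + (old S x v).card ≤ (NF (S.jrk P) x v).card +
      (BB (S.jrk P) (S.jpar P) x v).card + (u1 S v).card + 2 * (u0 S v).card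

/-- OLD: new copies are matched by old copies. -/
def OLDStmt : Prop :=
  ∀ (V : Type) [Fintype V] [DecidableEq V] (n P : ℕ) (S : Shape n) (_ : S.Ok) (_ : S.PhiOk)
    (x : V) (v : Fin P × Fin n → V) (_ : NoSingle S v),
    P * S.nz1 ≤ 2 * (S.nz1 * (old S x v).card) + (ub S v).card

/-- BLK: the product of the block bounds and the sizes of `u1`, `u0`, `ub`. -/
def BLKStmt : Prop :=
  ∀ (V : Type) [Fintype V] [DecidableEq V] (n P : ℕ) (S : Shape n)
    (v : Fin P × Fin n → V) (_ : NoSingle S v),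
    (∀ M B : ℝ, 1 ≤ M → 0 ≤ B →
      ∏ u, blk M B (cnt (S.jkind P) v Kind.zeta u) (cnt (S.jkind P) v Kind.phi u) ≤
        2 ^ (P * S.nz) * M ^ (P * S.nz - (u1 S v).card) * (B * M) ^ (P * S.nf)) ∧
    2 * (u1 S v).card ≤ P * S.nz + (ub S v).card ∧
    (ub S v).card + 2 * (u0 S v).card ≤ P * S.nf

/-- PTW: the pointwise inequality (from NUM and BLK). -/
def PTWStmt : Prop :=
  ∀ (V : Type) [Fintype V] [DecidableEq V] (n p : ℕ) (S : Shape n) (_ : S.Ok) (_ : S.PhiOk)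
    (N : V → Finset V) (_ : IsNbd N) (x : V) (nb : Fin n → V → Finset V)
    (_ : ∀ t u, nb t u ⊆ N u) (v : Fin (2 * p) × Fin n → V) (_ : JValid S x nb v)
    (M s B : ℝ) (_ : 1 ≤ M) (_ : M ≤ s) (_ : 0 ≤ B),
    ∏ u, blk M B (cnt (S.jkind (2 * p)) v Kind.zeta u) (cnt (S.jkind (2 * p)) v Kind.phi u) ≤
      2 ^ (2 * p * S.nz) * B ^ (2 * p * S.nf) *
      s ^ ((NF (S.jrk (2 * p)) x v).card + (BB (S.jrk (2 * p)) (S.jpar (2 * p)) x v).card) *
      (M / s) ^ (p * (S.nz + 2 * S.nf))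

/-- PTB: the pointwise inequality with the bonus (from NUMB, OLD and BLK). -/
def PTBStmt : Prop :=
  ∀ (V : Type) [Fintype V] [DecidableEq V] (n p : ℕ) (S : Shape n) (_ : S.Ok) (_ : S.PhiOk)
    (a : Fin n) (_ : S.Bon a)
    (N : V → Finset V) (_ : IsNbd N) (x : V) (nb : Fin n → V → Finset V)
    (_ : ∀ t u, nb t u ⊆ N u) (v : Fin (2 * p) × Fin n → V) (_ : JValid S x nb v)
    (M s B : ℝ) (_ : 1 ≤ M) (_ : M ≤ s) (_ : 0 ≤ B),
    ∏ u, blk M B (cnt (S.jkind (2 * p)) v Kind.zeta u) (cnt (S.jkind (2 * p)) v Kind.phi u) ≤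
      2 ^ (2 * p * S.nz) * B ^ (2 * p * S.nf) *
      s ^ ((NF (S.jrk (2 * p)) x v).card + (BB (S.jrk (2 * p)) (S.jpar (2 * p)) x v).card) *
      (M / s) ^ (p * (S.nz + 2 * S.nf)) / s ^ p

/-- POW: expansion of the moment of a window average of tree polynomials. -/
def POWStmt : Prop :=
  ∀ (V Λ : Type) [Fintype V] [DecidableEq V] [Fintype Λ] [DecidableEq Λ] (n p q : ℕ)
    (S : Shape n) (x : V) (nb : Fin n → V → Finset V) (s C0 B : ℝ) (_ : 0 < s) (_ : 0 ≤ C0)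
    (_ : 1 ≤ q) (_ : 1 ≤ Fintype.card Λ)
    (f : Fin q → Poly n V Λ) (_ : ∀ i, (f i).Adm S x nb s C0 B) (W : (Fin (2 * p) × Fin n → V) → ℝ)
    (_ : ∀ v, JValid S x nb v → ∑ i : Fin (2 * p) → Fin q,
      |mean (fun h : V → Λ => ∏ j : Fin (2 * p) × Fin n, (f (i j.1)).fn j.2 (h (v j)))| ≤ W v)
    (A : ℝ) (_ : ∀ X : Finset (Fin (2 * p) × Fin n → V), (∀ v ∈ X, JValid S x nb v) →
      ∑ v ∈ X, W v ≤ A),
    mean (fun h : V → Λ => ((∑ i, (f i).eval h) / q) ^ (2 * p)) ≤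
      (C0 / s ^ n) ^ (2 * p) / (q : ℝ) ^ (2 * p) * A

/-- MOM: the moment lemma. -/
def MOMStmt : Prop :=
  ∀ (n p : ℕ) (B : ℝ), 0 ≤ B → ∃ K : ℝ, 0 ≤ K ∧
    ∀ (V Λ : Type) [Fintype V] [DecidableEq V] [Fintype Λ] [DecidableEq Λ] (S : Shape n)
      (_ : S.Ok) (_ : S.PhiOk) (x : V) (N : V → Finset V) (nb : Fin n → V → Finset V)
      (cap : Fin n → ℝ) (s C0 : ℝ) (_ : Env (Λ := Λ) N nb cap s) (_ : 0 ≤ C0)
      (f : Poly n V Λ) (_ : f.Adm S x nb s C0 B),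
      mean (fun h : V → Λ => f.eval h ^ (2 * p)) ≤
        K * (C0 * ∏ t, cap t / s) ^ (2 * p) *
          ((Fintype.card Λ : ℝ) / s) ^ (p * (S.nz + 2 * S.nf))

/-- BON: the moment lemma with the bonus `s ^ (-p)` for shapes with a P-vertex. -/
def BONStmt : Prop :=
  ∀ (n p : ℕ) (B : ℝ), 0 ≤ B → ∃ K : ℝ, 0 ≤ K ∧
    ∀ (V Λ : Type) [Fintype V] [DecidableEq V] [Fintype Λ] [DecidableEq Λ] (S : Shape n)
      (_ : S.Ok) (_ : S.PhiOk) (a : Fin n) (_ : S.Bon a) (x : V) (N : V → Finset V)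
      (nb : Fin n → V → Finset V)
      (cap : Fin n → ℝ) (s C0 : ℝ) (_ : Env (Λ := Λ) N nb cap s) (_ : 0 ≤ C0)
      (f : Poly n V Λ) (_ : f.Adm S x nb s C0 B),
      mean (fun h : V → Λ => f.eval h ^ (2 * p)) ≤
        K * (C0 * ∏ t, cap t / s) ^ (2 * p) *
          ((Fintype.card Λ : ℝ) / s) ^ (p * (S.nz + 2 * S.nf)) / s ^ p

/-- WIN: the window average, exactly two zeta marks per copy, with the bonus. -/
def WINStmt : Prop :=
  ∀ (n p : ℕ), ∃ K : ℝ, 0 ≤ K ∧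
    ∀ (V Λ : Type) [Fintype V] [DecidableEq V] [Fintype Λ] [DecidableEq Λ] (S : Shape n)
      (_ : S.Ok) (_ : ∀ t, S.kind t ≠ Kind.phi ∧ S.st t ≤ 1) (a : Fin n) (_ : S.Bon a)
      (t1 t2 : Fin n) (_ : t1 ≠ t2) (_ : ∀ t, S.kind t = Kind.zeta ↔ t = t1 ∨ t = t2)
      (x : V) (N : V → Finset V) (nb : Fin n → V → Finset V)
      (_ : ∀ v : Fin n → V, Valid x S.par nb v → v t1 ≠ v t2)
      (cap : Fin n → ℝ) (s C0 : ℝ) (_ : Env (Λ := Λ) N nb cap s) (_ : 0 ≤ C0)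
      (q : ℕ) (_ : 1 ≤ q) (_ : q ≤ Fintype.card Λ)
      (f : Fin q → Poly n V Λ) (_ : ∀ i, (f i).Adm S x nb s C0 0)
      (_ : ∀ t, S.kind t = Kind.zeta →
        ∃ l : Fin q → Λ, Function.Injective l ∧ ∀ i ℓ, (f i).fn t ℓ = mark (l i) ℓ),
      mean (fun h : V → Λ => ((∑ i, (f i).eval h) / q) ^ (2 * p)) ≤
        K * (C0 * ∏ t, cap t / s) ^ (2 * p) *
          ((Fintype.card Λ : ℝ) / s) ^ (2 * p) / s ^ p / (q : ℝ) ^ p

/-- MKV: Markov's inequality for the counting measure. -/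
def MKVStmt : Prop :=
  ∀ (V Λ : Type) [Fintype V] [DecidableEq V] [Fintype Λ] [DecidableEq Λ]
    (_ : 1 ≤ Fintype.card Λ) (F : (V → Λ) → ℝ) (p : ℕ) (lam A : ℝ) (_ : 0 < lam)
    (_ : mean (fun h => F h ^ (2 * p)) ≤ A) (X : Finset (V → Λ)) (_ : ∀ h ∈ X, lam ≤ |F h|),
    (X.card : ℝ) ≤ (Fintype.card Λ : ℝ) ^ Fintype.card V * (A / lam ^ (2 * p))

end Pool.Agent.C4M
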